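import Pool.Agent.SLow.Dens

/-!
# Sets of primes of lower density at least `1/2`
-/

set_option autoImplicit false

noncomputable section

open NumberField

namespace Pool.Agent.SLow

variable {K : Type} [Field K] [NumberField K]

theorem Small.not_large {P : Ideal (𝓞 K) → Prop} (h : Small P) : ¬ Large P := by
  rintro ⟨D, hD⟩
  obtain ⟨c, C, hc, hC⟩ := h
  obtain ⟨x, hx⟩ : ∃ x : ℝ, C + D < (1 / 2 - c) * x :=
    ⟨(C + D + 1) / (1 / 2 - c), by
      rw [mul_div_cancel₀ _ (sub_ne_zero.2 hc.ne')]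
      linarith⟩
  set y : ℝ := max x 1 with hy
  have hy1 : 0 < y := lt_of_lt_of_le one_pos (le_max_right _ _)
  have hy2 : C + D < (1 / 2 - c) * y :=
    hx.trans_le (mul_le_mul_of_nonneg_left (le_max_left _ _) (by linarith))
  have h1 : (0 : ℝ) < Real.exp (-y) := Real.exp_pos _
  have h2 : Real.exp (-y) < 1 := Real.exp_lt_one_iff.2 (by linarith)
  have h3 := hD (1 + Real.exp (-y)) (by linarith) (by linarith)
  have h4 := hC (1 + Real.exp (-y)) (by linarith) (by linarith)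
  have h5 : Real.log (1 / (1 + Real.exp (-y) - 1)) = y := by
    rw [add_sub_cancel_left, one_div, ← Real.exp_neg, neg_neg, Real.log_exp]
  rw [h5] at h3 h4
  nlinarith

theorem Large.mono {P Q : Ideal (𝓞 K) → Prop} (h : Large P)
    (hPQ : ∀ q : Ideal (𝓞 K), q.IsPrime → q ≠ ⊥ → P q → Q q) : Large Q := by
  obtain ⟨C, hC⟩ := h
  refine ⟨C, fun s hs hs2 => (hC s hs hs2).trans ?_⟩
  let f : {q : Ideal (𝓞 K) // (q.IsPrime ∧ q ≠ ⊥) ∧ P q} →
      {q : Ideal (𝓞 K) // (q.IsPrime ∧ q ≠ ⊥) ∧ Q q} :=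
    fun q => ⟨q.1, q.2.1, hPQ q.1 q.2.1.1 q.2.1.2 q.2.2⟩
  have hf : Function.Injective f := by
    intro q q' h
    apply Subtype.ext
    exact congrArg (fun x : {q : Ideal (𝓞 K) // (q.IsPrime ∧ q ≠ ⊥) ∧ Q q} =>
      (x : Ideal (𝓞 K))) h
  exact Summable.tsum_le_tsum_of_inj f hf (fun q _ => by positivity) (fun q => le_rfl)
    (summable_primes P hs) (summable_primes Q hs)

end Pool.Agent.SLow
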