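import Pool.Agent.SLow.Step
import Pool.Agent.SLow.Large

/-!
# Stark's conjecture for `S` and for `S ∪ {q}`, for the extensions which are unramified outside `m`
-/

set_option autoImplicit false

noncomputable section

open NumberField Module Pool.Agent.StarkRQ Pool.Agent.StarkU Pool.Agent.HeckeM

namespace Pool.Agent.SLow

section congr

variable {K H : Type} [Field K] [NumberField K] [Field H] [NumberField H] [Algebra K H]

omit [NumberField H] in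
theorem isPZ_congr {m m' : Ideal (𝓞 K)} (h : ∀ a : Ideal (𝓞 K), IsCoprime a m ↔ IsCoprime a m')
    (σ : Gal(H/K)) (Z : ℂ → ℂ) : IsPZ m σ Z ↔ IsPZ m' σ Z := by
  have h : ∀ n, zcI m σ n = zcI m' σ n := by
    intro n
    unfold zcI
    refine Nat.card_congr (Equiv.subtypeEquivRight fun a => ?_)
    rw [h]
  unfold IsPZ
  simp only [h]

omit [NumberField H] in
theorem starkFor_congr {m m' : Ideal (𝓞 K)}
    (h : ∀ a : Ideal (𝓞 K), IsCoprime a m ↔ IsCoprime a m') {b : Bool} {c : ℕ} {ι₂ : K →+* ℝ}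
    {i : H →+* ℂ} : StarkFor b c ι₂ m i ↔ StarkFor b c ι₂ m' i := by
  unfold StarkFor
  simp only [isPZ_congr h]

omit [NumberField K] in
theorem coprime_mul_congr {m m' q : Ideal (𝓞 K)}
    (h : ∀ a : Ideal (𝓞 K), IsCoprime a m ↔ IsCoprime a m') (a : Ideal (𝓞 K)) :
    IsCoprime a (m * q) ↔ IsCoprime a (m' * q) := by
  rw [IsCoprime.mul_right_iff, IsCoprime.mul_right_iff, h]

omit [NumberField K] in
/-- a power of `m` is contained in `2^k` if all primes over `2` divide `m` -/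
theorem exists_pow_le [IsNoetherianRing (𝓞 K)] {m : Ideal (𝓞 K)}
    (h2 : ∀ 𝔭 : Ideal (𝓞 K), 𝔭.IsPrime → (2 : 𝓞 K) ∈ 𝔭 → m ≤ 𝔭) (k : ℕ) :
    ∃ n : ℕ, m ^ n ≤ Ideal.span {(2 : 𝓞 K)} ^ k := by
  have h3 : m ≤ (Ideal.span {(2 : 𝓞 K)}).radical := by
    rw [Ideal.radical_eq_sInf]
    refine le_sInf fun 𝔭 h𝔭 => ?_
    exact h2 𝔭 h𝔭.2 (h𝔭.1 (Ideal.mem_span_singleton_self 2))
  obtain ⟨n, hn⟩ := Ideal.exists_pow_le_of_le_radical_of_fg h3
    (IsNoetherian.noetherian m)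
  refine ⟨n * k, ?_⟩
  rw [pow_mul]
  exact Ideal.pow_right_mono hn k

end congr

section step

variable {K H : Type} [Field K] [NumberField K] [Field H] [NumberField H] [Algebra K H]
  [IsAbelianGalois K H]

/-- Either all quotients are good, or the conjecture fails for `H/K` and `m q`, for all primes `q`
with Frobenius element outside a proper subgroup. -/
theorem dichotomyFor (b : Bool) {i : H →+* ℂ} {ι₁ ι₂ : K →+* ℝ} {m : Ideal (𝓞 K)}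
    (hH : InRay ι₁ ι₂ m i) {Z : Gal(H/K) → ℂ → ℂ} (hZ : ∀ σ, IsPZ m σ (Z σ) ∧ Z σ 0 = 0) :
    (∀ γ, Good b i ι₂ (fun σ => Complex.exp (-2 * deriv (Z σ) 0)) γ) ∨
    ∃ U : Subgroup Gal(H/K), U ≠ ⊤ ∧ ∀ q : Ideal (𝓞 K), q.IsPrime → q ≠ ⊥ → ¬ m ≤ q →
      (∀ φ : Gal(H/K), IsFrob q φ → φ ∉ U) → ¬ StarkFor b 1 ι₂ (m * q) i := by
  have he : ∀ σ, (fun σ : Gal(H/K) => Complex.exp (-2 * deriv (Z σ) 0)) σ ≠ 0 :=
    fun σ => Complex.exp_ne_zero _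
  by_cases hU : goodSub b i ι₂ he = ⊤
  · left
    intro γ
    rw [← mem_goodSub he, hU]
    exact Subgroup.mem_top γ
  · right
    refine ⟨_, hU, fun q hq hq0 hqm hφ hs => ?_⟩
    obtain ⟨φ, hφ'⟩ := exists_isFrobU (M := H) hq hq0
    apply hφ φ hφ'
    rw [← inv_mem_iff, mem_goodSub]
    have h1 : HasArtinSymbol q φ := by
      refine ⟨[(q, φ)], ?_, by simp, by simp⟩
      intro x hx
      rw [List.mem_singleton] at hx
      rw [hx]
      exact ⟨hq, hq0, hφ'⟩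
    exact good_of_stark hH.unrAt hZ hq hq0 (coprime_of_not_le (hq.isMaximal hq0) hqm) h1 hs

/-- Tate: the conjecture for `m` implies the one for `m q` -/
theorem starkFor_mul (hK : finrank ℚ K = 2) {b : Bool} {i : H →+* ℂ} {ι₁ ι₂ : K →+* ℝ}
    (hι : ι₁ ≠ ι₂) {m : Ideal (𝓞 K)} (h0 : m ≠ ⊥) (h1 : m ≠ ⊤) (hH : InRay ι₁ ι₂ m i)
    {q : Ideal (𝓞 K)} (hq : q.IsPrime) (hq0 : q ≠ ⊥) (hqm : ¬ m ≤ q)
    (h : StarkFor b 1 ι₂ m i) : StarkFor b 1 ι₂ (m * q) i := by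
  obtain ⟨Z, hZ, -⟩ := exists_pz hK hι h0 h1 hH.unrAt hH.hmod
  obtain ⟨W, ε, h2, h3, h4, h5⟩ := h
  have hW : ∀ σ, deriv (W σ) 0 = deriv (Z σ) 0 := fun σ =>
    isPZ_deriv_unique (h2 σ).1 (hZ σ).1
  obtain ⟨φ, hφ⟩ := exists_isFrobU (M := H) hq hq0
  have hA : HasArtinSymbol q φ := by
    refine ⟨[(q, φ)], ?_, by simp, by simp⟩
    intro x hx
    rw [List.mem_singleton] at hx
    rw [hx]
    exact ⟨hq, hq0, hφ⟩
  have hc := coprime_of_not_le (hq.isMaximal hq0) hqm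
  have hP : ∀ σ, IsPZ (m * q) σ
      (fun s => Z σ s - (Ideal.absNorm q : ℂ) ^ (-s) * Z (σ * φ⁻¹) s) := fun σ =>
    isPZ_mul_prime hH.unrAt hq hq0 hc hA (hZ σ).1 (hZ (σ * φ⁻¹)).1
  refine ⟨fun σ s => Z σ s - (Ideal.absNorm q : ℂ) ^ (-s) * Z (σ * φ⁻¹) s,
    fun σ => ε σ * (ε (σ * φ⁻¹))⁻¹, fun σ => ⟨hP σ, ?_⟩, fun ρ σ => ?_, fun g hg σ => ?_,
    fun hb => ?_⟩
  · rw [deriv_mul_prime hH.unrAt hq hq0 hc hA (hZ σ).1 (hZ (σ * φ⁻¹)).1 (hZ (σ * φ⁻¹)).2 (hP σ),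
      coe_units_mul, coe_units_inv, map_mul, map_inv₀, (h2 σ).2, (h2 (σ * φ⁻¹)).2,
      ← Complex.exp_neg, ← Complex.exp_add, hW, hW]
    congr 1
    ring
  · rw [coe_units_mul, coe_units_inv, coe_units_mul, coe_units_inv, map_mul, map_inv₀, h3, h3,
      mul_assoc]
  · rw [coe_units_mul, coe_units_inv, map_mul, map_inv₀, norm_mul, norm_inv, h4 g hg, h4 g hg,
      inv_one, mul_one]
  · obtain ⟨E, i1, i2, i3, i4, i5, h6⟩ := h5 hb
    refine ⟨E, i1, i2, i3, i4, i5, fun σ => ?_⟩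
    obtain ⟨x, hx⟩ := h6 σ
    obtain ⟨y, hy⟩ := h6 (σ * φ⁻¹)
    refine ⟨x * y⁻¹, ?_⟩
    rw [coe_units_mul, coe_units_inv, map_mul, map_inv₀, mul_pow, inv_pow, hx, hy]

end step

section main

variable {K : Type} [Field K] [NumberField K]

omit [NumberField K] in
private theorem mul_ne_bot' {m M : Ideal (𝓞 K)} (h0 : m ≠ ⊥) (h0' : M ≠ ⊥) : m * M ≠ ⊥ := by
  rw [← Ideal.zero_eq_bot] at h0 h0' ⊢
  exact mul_ne_zero h0 h0'

private theorem two_pow_ne_bot (k : ℕ) : Ideal.span {(2 : 𝓞 K)} ^ k ≠ ⊥ := by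
  rw [← Ideal.zero_eq_bot]
  refine pow_ne_zero _ ?_
  rw [Ideal.zero_eq_bot, Ne, Ideal.span_singleton_eq_bot]
  exact two_ne_zero

omit [NumberField K] in
private theorem pow_ne_bot' {m : Ideal (𝓞 K)} (h0 : m ≠ ⊥) (j : ℕ) : m ^ j ≠ ⊥ := by
  rw [← Ideal.zero_eq_bot] at h0 ⊢
  exact pow_ne_zero _ h0

/-- arbitrary `m`: the squares -/
theorem towerSq (hK : finrank ℚ K = 2) {ι₁ ι₂ : K →+* ℝ} (hι : ι₁ ≠ ι₂) {m : Ideal (𝓞 K)}
    (h0 : m ≠ ⊥) (h1 : m ≠ ⊤) {H : Type} [Field H] [NumberField H] [Algebra K H]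
    [IsAbelianGalois K H] {i : H →+* ℂ} (hH : InTower ι₁ ι₂ m i)
    (hn : ¬ StarkFor true 2 ι₂ m i) :
    Large fun q => ¬ m ≤ q ∧ ¬ StarkFor false 1 ι₂ (m * q) i := by
  obtain ⟨j, hj⟩ := hH
  set m' : Ideal (𝓞 K) := m ^ (j + 1) with hm'
  have hcop : ∀ a : Ideal (𝓞 K), IsCoprime a m' ↔ IsCoprime a m := fun a =>
    IsCoprime.pow_right_iff (Nat.succ_pos j)
  have hle : m' ≤ m := Ideal.pow_le_self (Nat.succ_ne_zero j)
  have hH' : InRay ι₁ ι₂ m' i := hj.mono (Ideal.pow_le_pow_right (Nat.le_succ j))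
  have h0' : m' ≠ ⊥ := pow_ne_bot' h0 _
  have h1' : m' ≠ ⊤ := by
    intro h
    exact h1 (top_le_iff.1 (h.symm.le.trans hle))
  obtain ⟨Z, hZ, R, hR⟩ := exists_pz hK hι h0' h1' hH'.unrAt hH'.hmod
  rcases dichotomyFor false hH' hZ with hg | ⟨U, hU, hq⟩
  · exfalso
    apply hn
    have hRe : ∀ σ : Gal(H/K), Complex.exp (-2 * deriv (Z σ) 0) *
        Complex.exp (-2 * deriv (Z (R * σ)) 0) = 1 := by
      intro σ
      rw [← Complex.exp_add, ← mul_add, hR, mul_zero, Complex.exp_zero]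
    obtain ⟨ε, e1, e2, e3, e4⟩ := coreSq (fun σ => Complex.exp_ne_zero _) hg hRe
    refine ⟨Z, ε, fun σ => ⟨(isPZ_congr hcop σ _).1 (hZ σ).1, ?_⟩, e2, e3, fun _ => e4⟩
    rw [e1, ← Complex.exp_nat_mul]
    congr 1
    push_cast
    ring
  · obtain ⟨C, hC⟩ := density h0' hH'.unrAt hU
    refine Large.mono ⟨C, hC⟩ fun q hq1 hq2 hq3 => ⟨fun h => hq3.1 (hle.trans h), fun h => ?_⟩
    exact hq q hq1 hq2 hq3.1 hq3.2 ((starkFor_congr (coprime_mul_congr hcop)).2 h)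

/-- Two fields `H ⊆ L` in the tower: if the conjecture fails for `H` and `M` then it fails for `L`
and `M q` for many primes `q`. -/
theorem towerStep (b : Bool) (hK : finrank ℚ K = 2) {ι₁ ι₂ : K →+* ℝ} (hι : ι₁ ≠ ι₂)
    {m M : Ideal (𝓞 K)} (h0 : M ≠ ⊥) (h1 : M ≠ ⊤) (hM : M ≤ m)
    {H L : Type} [Field H] [NumberField H] [Algebra K H] [Field L] [NumberField L] [Algebra K L]
    [Algebra H L] [IsScalarTower K H L] [IsAbelianGalois K H] [IsAbelianGalois K L] {i : H →+* ℂ}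
    {I : L →+* ℂ} (hI : ∀ x : H, I (algebraMap H L x) = i x) (hL : InTower ι₁ ι₂ m I)
    (h2r : 2 ∣ finrank H L) (h4r : b = true → 4 ∣ finrank H L) (hn : ¬ StarkFor b 1 ι₂ M i) :
    Large fun q => ¬ M ≤ q ∧ ¬ StarkFor b 1 ι₂ (M * q) I := by
  obtain ⟨j, hj⟩ := hL
  have hm0 : m ≠ ⊥ := by
    rintro rfl
    exact h0 (le_bot_iff.1 hM)
  set M' : Ideal (𝓞 K) := m ^ j * M with hM'
  have hcop : ∀ a : Ideal (𝓞 K), IsCoprime a M' ↔ IsCoprime a M := by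
    intro a
    rw [hM', IsCoprime.mul_right_iff]
    refine ⟨fun h => h.2, fun h => ⟨IsCoprime.pow_right ?_, h⟩⟩
    rw [Ideal.isCoprime_iff_sup_eq] at h ⊢
    exact top_le_iff.1 (h.symm.le.trans (sup_le_sup_left hM _))
  have hleM : M' ≤ M := Ideal.mul_le_right
  have hL' : InRay ι₁ ι₂ M' I := hj.mono Ideal.mul_le_left
  have h0' : M' ≠ ⊥ := mul_ne_bot' (pow_ne_bot' hm0 _) h0
  have h1' : M' ≠ ⊤ := by
    intro h
    exact h1 (top_le_iff.1 (h.symm.le.trans hleM))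
  obtain ⟨Z, hZ, R, hR⟩ := exists_pz hK hι h0' h1' hL'.unrAt hL'.hmod
  rcases dichotomyFor b hL' hZ with hg | ⟨U, hU, hq⟩
  · exfalso
    apply hn
    have hRe : ∀ σ : Gal(L/K), Complex.exp (-2 * deriv (Z σ) 0) *
        Complex.exp (-2 * deriv (Z (R * σ)) 0) = 1 := by
      intro σ
      rw [← Complex.exp_add, ← mul_add, hR, mul_zero, Complex.exp_zero]
    obtain ⟨ε, e1, e2, e3, e4⟩ := core (H := H) (i := i) hI
      (fun σ => Complex.exp_ne_zero (-2 * deriv (Z σ) 0)) hg hRe h2r h4r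
    refine ⟨fun σ z => ∑ s ∈ fib L σ, Z s z, ε, fun σ => ⟨?_, ?_⟩, e2, e3, e4⟩
    · rw [← isPZ_congr hcop]
      exact isPZ_fib hL'.unrAt σ fun s _ => (hZ s).1
    · rw [e1, ← Complex.exp_sum]
      have hd : ∀ s : Gal(L/K), DifferentiableAt ℂ (Z s) 0 := fun s =>
        (hZ s).1.1.differentiableAt (isOpen_compl_singleton.mem_nhds (by simp))
      rw [deriv_fun_sum fun s _ => hd s, Finset.mul_sum]
      congr 1
      refine Finset.sum_congr rfl fun s _ => ?_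
      push_cast
      ring
  · obtain ⟨C, hC⟩ := density h0' hL'.unrAt hU
    refine Large.mono ⟨C, hC⟩ fun q hq1 hq2 hq3 => ⟨fun h => hq3.1 (hleM.trans h), fun h => ?_⟩
    exact hq q hq1 hq2 hq3.1 hq3.2 ((starkFor_congr (coprime_mul_congr hcop)).2 h)

/-- all primes over `2` divide `m`: there are bigger fields in the tower -/
theorem tower_exists {ι₁ ι₂ : K →+* ℝ} {m : Ideal (𝓞 K)} (h0 : m ≠ ⊥)
    (h2 : ∀ 𝔭 : Ideal (𝓞 K), 𝔭.IsPrime → (2 : 𝓞 K) ∈ 𝔭 → m ≤ 𝔭)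
    {H : Type} [Field H] [NumberField H] [Algebra K H]
    [IsAbelianGalois K H] {i : H →+* ℂ} (hH : InTower ι₁ ι₂ m i) :
    ∃ (L : Type) (_ : Field L) (_ : NumberField L) (_ : Algebra K L) (_ : Algebra H L)
      (_ : IsScalarTower K H L) (_ : IsAbelianGalois K L) (I : L →+* ℂ),
      (∀ x : H, I (algebraMap H L x) = i x) ∧ InTower ι₁ ι₂ m I ∧ 4 ∣ finrank H L := by
  obtain ⟨j, hj⟩ := hH
  have hj' : InRay ι₁ ι₂ (m ^ (j + 1)) i := hj.mono (Ideal.pow_le_pow_right (Nat.le_succ j))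
  have hle : m ^ (j + 1) ≤ m := Ideal.pow_le_self (Nat.succ_ne_zero j)
  obtain ⟨k, L, j1, j2, j3, j4, j5, j6, I, hI, hL, h4⟩ := exists_up (pow_ne_bot' h0 (j + 1))
    (fun 𝔭 h3 h4 => hle.trans (h2 𝔭 h3 h4)) hj'
  refine ⟨L, j1, j2, j3, j4, j5, j6, I, hI, ?_, h4⟩
  obtain ⟨n, hn⟩ := exists_pow_le h2 k
  refine ⟨n + (j + 1), hL.mono ?_⟩
  rw [pow_add]
  exact Ideal.mul_mono_left hn

/-- the moduli `m ∏ s` for sets `s` of `t` primes in `T`, starting from `m ∏ s₀` -/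
private theorem tower_down (b : Bool) (hK : finrank ℚ K = 2) {ι₁ ι₂ : K →+* ℝ} (hι : ι₁ ≠ ι₂)
    {m : Ideal (𝓞 K)} (h1 : m ≠ ⊤)
    (h2 : ∀ 𝔭 : Ideal (𝓞 K), 𝔭.IsPrime → (2 : 𝓞 K) ∈ 𝔭 → m ≤ 𝔭)
    (T : Ideal (𝓞 K) → Prop) (hT : ¬ Large fun q => ¬ T q) (t : ℕ) : ∀ M : Ideal (𝓞 K),
    M ≠ ⊥ → M ≤ m →
    (∀ s : Finset (Ideal (𝓞 K)), s.card = t →
      (∀ q ∈ s, q.IsPrime ∧ q ≠ ⊥ ∧ ¬ M ≤ q ∧ T q) → StarkS b ι₁ ι₂ m (M * ∏ q ∈ s, q)) →
    StarkS b ι₁ ι₂ m M := by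
  classical
  induction t with
  | zero =>
    intro M hM0 hM h
    have h3 := h ∅ rfl (by simp)
    rwa [Finset.prod_empty, mul_one] at h3
  | succ t ih =>
    intro M hM0 hM h H i1 i2 i3 i4 i hH
    by_contra hn
    have hM1 : M ≠ ⊤ := by
      intro h
      exact h1 (top_le_iff.1 (h.symm.le.trans hM))
    have hm0 : m ≠ ⊥ := by
      rintro rfl
      exact hM0 (le_bot_iff.1 hM)
    obtain ⟨L, j1, j2, j3, j4, j5, j6, I, hI, hL, h4⟩ := tower_exists hm0 h2 hH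
    have hlarge := towerStep b hK hι hM0 hM1 hM hI hL ((by norm_num : 2 ∣ 4).trans h4)
      (fun _ => h4) hn
    -- a bad prime in `T`
    obtain ⟨q, hq1, hq0, hqM, hqT, hq⟩ : ∃ q : Ideal (𝓞 K), q.IsPrime ∧ q ≠ ⊥ ∧ ¬ M ≤ q ∧ T q ∧
        ¬ StarkFor b 1 ι₂ (M * q) I := by
      by_contra hne
      push Not at hne
      exact hT (hlarge.mono fun q h3 h4 h5 h6 => h5.2 (hne q h3 h4 h5.1 h6))
    apply hq
    have hle : M * q ≤ M := Ideal.mul_le_left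
    have hleq : M * q ≤ q := Ideal.mul_le_right
    refine ih (M * q) (mul_ne_bot' hM0 hq0) (hle.trans hM) (fun s hs hs' => ?_) L I hL
    have hqs : q ∉ s := fun h3 => (hs' q h3).2.2.1 hleq
    have h3 := h (insert q s) (by rw [Finset.card_insert_of_notMem hqs, hs]) (by
      intro q' h4
      rcases Finset.mem_insert.1 h4 with rfl | h4
      · exact ⟨hq1, hq0, hqM, hqT⟩
      · obtain ⟨h5, h6, h7, h8⟩ := hs' q' h4
        exact ⟨h5, h6, fun h9 => h7 (hle.trans h9), h8⟩)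
    rwa [Finset.prod_insert hqs, ← mul_assoc] at h3

/-- Tate: more primes -/
private theorem tower_up (b : Bool) (hK : finrank ℚ K = 2) {ι₁ ι₂ : K →+* ℝ} (hι : ι₁ ≠ ι₂)
    {m : Ideal (𝓞 K)} (h0 : m ≠ ⊥) (h1 : m ≠ ⊤) (h : StarkS b ι₁ ι₂ m m)
    (s : Finset (Ideal (𝓞 K))) (hs : ∀ q ∈ s, q.IsPrime ∧ q ≠ ⊥ ∧ ¬ m ≤ q) :
    StarkS b ι₁ ι₂ m (m * ∏ q ∈ s, q) := by
  classical
  induction s using Finset.induction_on with
  | empty => rwa [Finset.prod_empty, mul_one]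
  | insert q s hqs ih =>
    have ih' := ih fun q' h' => hs q' (Finset.mem_insert_of_mem h')
    obtain ⟨hq1, hq0, hqm⟩ := hs q (Finset.mem_insert_self q s)
    intro H i1 i2 i3 i4 i hH
    have h3 := ih' H i hH
    set M : Ideal (𝓞 K) := m * ∏ q ∈ s, q with hM
    have hle : M ≤ m := Ideal.mul_le_left
    have hM0 : M ≠ ⊥ := by
      refine mul_ne_bot' h0 ?_
      rw [← Ideal.zero_eq_bot]
      exact Finset.prod_ne_zero_iff.2 fun q' h' =>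
        (hs q' (Finset.mem_insert_of_mem h')).2.1
    obtain ⟨j, hj⟩ := hH
    -- the modulus `m^(j+1) M`
    set M' : Ideal (𝓞 K) := m ^ j * M with hM'
    have hcop : ∀ a : Ideal (𝓞 K), IsCoprime a M' ↔ IsCoprime a M := by
      intro a
      rw [hM', IsCoprime.mul_right_iff]
      refine ⟨fun h => h.2, fun h => ⟨IsCoprime.pow_right ?_, h⟩⟩
      rw [Ideal.isCoprime_iff_sup_eq] at h ⊢
      exact top_le_iff.1 (h.symm.le.trans (sup_le_sup_left hle _))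
    have hM0' : M' ≠ ⊥ := mul_ne_bot' (pow_ne_bot' h0 j) hM0
    have hM1' : M' ≠ ⊤ := by
      intro h
      exact h1 (top_le_iff.1 (h.symm.le.trans (Ideal.mul_le_right.trans hle)))
    have hqM' : ¬ M' ≤ q := by
      intro h4
      rcases (hq1.mul_le.1 h4) with h5 | h5
      · exact hqm (hq1.le_of_pow_le h5)
      · rcases hq1.mul_le.1 h5 with h6 | h6
        · exact hqm h6
        · obtain ⟨q', h7, h8⟩ := (Ideal.IsPrime.prod_le hq1).1 h6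
          have h9 := hs q' (Finset.mem_insert_of_mem h7)
          have h10 : q' = q := (h9.1.isMaximal h9.2.1).eq_of_le hq1.ne_top h8
          rw [h10] at h7
          exact hqs h7
    have h4 := starkFor_mul hK hι hM0' hM1' (hj.mono Ideal.mul_le_left) hq1 hq0 hqM'
      ((starkFor_congr hcop).2 h3)
    rw [Finset.prod_insert hqs]
    have h5 : m * (q * ∏ q ∈ s, q) = M * q := by
      rw [hM]
      ring
    rw [h5]
    exact (starkFor_congr (coprime_mul_congr hcop)).1 h4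

/-- The conjecture for `S` is equivalent to the one for all `S ∪ {q₁, …, q_t}`, the `qᵢ` in `T`. -/
theorem starkS_iff (b : Bool) (hK : finrank ℚ K = 2) {ι₁ ι₂ : K →+* ℝ} (hι : ι₁ ≠ ι₂)
    {m : Ideal (𝓞 K)} (h0 : m ≠ ⊥) (h1 : m ≠ ⊤)
    (h2 : ∀ 𝔭 : Ideal (𝓞 K), 𝔭.IsPrime → (2 : 𝓞 K) ∈ 𝔭 → m ≤ 𝔭)
    (T : Ideal (𝓞 K) → Prop) (hT : Small fun q => ¬ T q) (t : ℕ) :
    StarkS b ι₁ ι₂ m m ↔ ∀ s : Finset (Ideal (𝓞 K)), s.card = t →
      (∀ q ∈ s, q.IsPrime ∧ q ≠ ⊥ ∧ ¬ m ≤ q ∧ T q) → StarkS b ι₁ ι₂ m (m * ∏ q ∈ s, q) :=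
  ⟨fun h s _ hs => tower_up b hK hι h0 h1 h s fun q hq =>
    ⟨(hs q hq).1, (hs q hq).2.1, (hs q hq).2.2.1⟩,
    fun h => tower_down b hK hι h1 h2 T hT.not_large t m h0 le_rfl h⟩

end main

end Pool.Agent.SLow
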