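import Pool.Agent.SLow.Defs

/-!
# Square roots which are abelian over `K`

`AbSq K x`: `x ∈ L` has a square root in an algebraic closure of `L` on which all automorphisms over
`K` commute. `AbSq.of_field`, `exists_field`: the same as a square root in an abelian extension.
-/

set_option autoImplicit false

noncomputable section

open NumberField Module

namespace Pool.Agent.SLow

variable {K L : Type} [Field K] [NumberField K] [Field L] [NumberField L] [Algebra K L]

/-- `x` has a square root on which the automorphisms over `K` commute -/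
def AbSq (K : Type) {L : Type} [Field K] [NumberField K] [Field L] [NumberField L] [Algebra K L]
    (x : L) : Prop :=
  ∃ y : AlgebraicClosure L, y ^ 2 = algebraMap L (AlgebraicClosure L) x ∧
    ∀ g h : Gal(AlgebraicClosure L/K), g (h y) = h (g y)

theorem AbSq.one : AbSq K (1 : L) := ⟨1, by simp, fun g h => by simp⟩

theorem AbSq.mul {x y : L} (hx : AbSq K x) (hy : AbSq K y) : AbSq K (x * y) := by
  obtain ⟨a, ha, ha'⟩ := hx
  obtain ⟨c, hc, hc'⟩ := hy
  refine ⟨a * c, by rw [mul_pow, ha, hc, map_mul], fun g h => ?_⟩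
  rw [map_mul, map_mul, map_mul, map_mul, ha', hc']

theorem AbSq.inv {x : L} (hx : AbSq K x) : AbSq K x⁻¹ := by
  obtain ⟨a, ha, ha'⟩ := hx
  refine ⟨a⁻¹, by rw [inv_pow, ha, map_inv₀], fun g h => ?_⟩
  rw [map_inv₀, map_inv₀, map_inv₀, map_inv₀, ha']

private theorem absq_alg : Algebra.IsAlgebraic K (AlgebraicClosure L) := by
  have h1 : Algebra.IsAlgebraic K L := Algebra.IsAlgebraic.of_finite K L
  have h2 : Algebra.IsAlgebraic L (AlgebraicClosure L) := inferInstance
  exact Algebra.IsAlgebraic.trans K L (AlgebraicClosure L)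

private theorem absq_normal : Normal K (AlgebraicClosure L) := by
  have h1 : Algebra.IsAlgebraic K (AlgebraicClosure L) := absq_alg
  exact normal_iff.2 fun x => ⟨(h1.isAlgebraic x).isIntegral, IsAlgClosed.splits _⟩

/-- the automorphisms commute on the image of an abelian extension -/
theorem comm_of_abelian {M Ω : Type} [Field M] [Algebra K M] [Field Ω] [Algebra K Ω] [Algebra M Ω]
    [IsScalarTower K M Ω] [IsAbelianGalois K M] (g h : Gal(Ω/K)) (x : M) :
    g (h (algebraMap M Ω x)) = h (g (algebraMap M Ω x)) := by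
  have e1 : ∀ (g : Gal(Ω/K)) (x : M), g (algebraMap M Ω x) = algebraMap M Ω (g.restrictNormal M x) :=
    fun g x => (AlgEquiv.restrictNormal_commutes g M x).symm
  rw [e1 h, e1 g, e1 g, e1 h]
  have h2 : g.restrictNormal M * h.restrictNormal M = h.restrictNormal M * g.restrictNormal M :=
    mul_comm' _ _
  exact congrArg (algebraMap M Ω) (DFunLike.congr_fun h2 x)

theorem AbSq.sq [IsAbelianGalois K L] (x : L) : AbSq K (x ^ 2) :=
  ⟨algebraMap L _ x, by rw [map_pow], fun g h => comm_of_abelian g h x⟩

/-- a square root in an abelian extension -/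
theorem AbSq.of_field {x : L} {E : Type} [Field E] [Algebra K E] [Algebra L E]
    [IsScalarTower K L E] [IsAbelianGalois K E] {y : E} (hy : y ^ 2 = algebraMap L E x) :
    AbSq K x := by
  have h1 : Algebra.IsAlgebraic K E := inferInstance
  have h2 : Algebra.IsAlgebraic L E := Algebra.IsAlgebraic.tower_top (K := K) L
  let f : E →ₐ[L] AlgebraicClosure L := IsAlgClosed.lift
  let _ : Algebra E (AlgebraicClosure L) := f.toRingHom.toAlgebra
  have hf : ∀ z : E, algebraMap E (AlgebraicClosure L) z = f z := fun _ => rfl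
  have ht : IsScalarTower K E (AlgebraicClosure L) := by
    refine IsScalarTower.of_algebraMap_eq fun z => ?_
    rw [hf, IsScalarTower.algebraMap_apply K L E, f.commutes,
      ← IsScalarTower.algebraMap_apply K L (AlgebraicClosure L)]
  refine ⟨f y, ?_, fun g h => ?_⟩
  · rw [← map_pow, hy, f.commutes]
  · rw [← hf]
    exact comm_of_abelian g h y

variable (K L) in
/-- the elements on which the automorphisms over `K` commute -/
private def cf : IntermediateField K (AlgebraicClosure L) where
  carrier := {y | ∀ g h : Gal(AlgebraicClosure L/K), g (h y) = h (g y)}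
  mul_mem' := fun {a c} ha hc g h => by
    rw [map_mul, map_mul, map_mul, map_mul, ha g h, hc g h]
  add_mem' := fun {a c} ha hc g h => by
    rw [map_add, map_add, map_add, map_add, ha g h, hc g h]
  algebraMap_mem' := fun x g h => by simp
  inv_mem' := fun a ha g h => by
    rw [map_inv₀, map_inv₀, map_inv₀, map_inv₀, ha g h]

private theorem mem_cf {y : AlgebraicClosure L} :
    y ∈ cf K L ↔ ∀ g h : Gal(AlgebraicClosure L/K), g (h y) = h (g y) := Iff.rfl

private theorem cf_stable {y : AlgebraicClosure L} (hy : y ∈ cf K L)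
    (t : Gal(AlgebraicClosure L/K)) : t y ∈ cf K L := by
  rw [mem_cf] at hy ⊢
  intro g h
  calc g (h (t y)) = (g * h) (t y) := rfl
    _ = t ((g * h) y) := hy _ _
    _ = t (g (h y)) := rfl
    _ = t (h (g y)) := by rw [hy g h]
    _ = t ((h * g) y) := rfl
    _ = (h * g) (t y) := (hy _ _).symm
    _ = h (g (t y)) := rfl

private theorem cf_abelian : IsAbelianGalois K (cf K L) := by
  have hn : Normal K (AlgebraicClosure L) := absq_normal
  have h1 : Normal K (cf K L) := by
    rw [IntermediateField.normal_iff_forall_map_le']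
    intro t
    rintro _ ⟨y, hy, rfl⟩
    exact cf_stable hy t
  have h2 : IsGalois K (cf K L) := ⟨⟩
  refine { h2, IsMulCommutative.of_comm ?_ with }
  intro σ τ
  obtain ⟨g, rfl⟩ := AlgEquiv.restrictNormalHom_surjective (F := K) (K₁ := cf K L)
    (AlgebraicClosure L) σ
  obtain ⟨h, rfl⟩ := AlgEquiv.restrictNormalHom_surjective (F := K) (K₁ := cf K L)
    (AlgebraicClosure L) τ
  ext x
  have e1 : ∀ (g : Gal(AlgebraicClosure L/K)) (x : cf K L),
      ((AlgEquiv.restrictNormalHom (cf K L) g x : cf K L) : AlgebraicClosure L) = g x :=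
    fun g x => AlgEquiv.restrictNormal_commutes g (cf K L) x
  rw [AlgEquiv.mul_apply, AlgEquiv.mul_apply, e1, e1, e1, e1]
  exact mem_cf.1 x.2 g h

/-- square roots in one abelian extension -/
theorem exists_field {H : Type} [Field H] [NumberField H] [Algebra K H] [Algebra H L]
    [IsScalarTower K H L] [IsAbelianGalois K L] {J : Type} {x : J → H}
    (hx : ∀ j, AbSq K (algebraMap H L (x j))) :
    ∃ (E : Type) (_ : Field E) (_ : Algebra K E) (_ : Algebra H E) (_ : IsScalarTower K H E),
      IsAbelianGalois K E ∧ ∀ j, ∃ y : E, y ^ 2 = algebraMap H E (x j) := by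
  have hL : ∀ z : L, algebraMap L (AlgebraicClosure L) z ∈ cf K L := fun z =>
    mem_cf.2 fun g h => comm_of_abelian g h z
  let f : L →ₐ[K] cf K L :=
    (IsScalarTower.toAlgHom K L (AlgebraicClosure L)).codRestrict (cf K L).toSubalgebra hL
  have hf : ∀ z : L, ((f z : cf K L) : AlgebraicClosure L) =
      algebraMap L (AlgebraicClosure L) z := fun _ => rfl
  let i2 : Algebra H (cf K L) := ((f : L →+* cf K L).comp (algebraMap H L)).toAlgebra
  have hi : ∀ z : H, algebraMap H (cf K L) z = f (algebraMap H L z) := fun _ => rfl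
  have i3 : IsScalarTower K H (cf K L) := by
    refine IsScalarTower.of_algebraMap_eq fun z => ?_
    rw [hi, ← IsScalarTower.algebraMap_apply K H L, f.commutes]
  refine ⟨cf K L, inferInstance, inferInstance, i2, i3, cf_abelian, fun j => ?_⟩
  obtain ⟨y, hy, hy'⟩ := hx j
  refine ⟨⟨y, mem_cf.2 hy'⟩, ?_⟩
  apply Subtype.ext
  rw [hi, hf, ← hy]
  rfl

end Pool.Agent.SLow
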