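import Pool.Agent.SLow.MainD0
import Pool.Agent.HeckeM.Coset
import Pool.Agent.HeckeM.Fund
import Pool.Agent.HeckeRQ.LSer

/-!
# The continuation of the zeta function of a ray class modulo an ideal, with its value at `0`

The same statement as `HeckeM.exists_cont_rcoefI`, and moreover `W 0 = 0` for both parities `j`.
-/

set_option autoImplicit false

noncomputable section

open NumberField Module Pool.Agent.StarkRQ Pool.Agent.HeckeRQ Pool.Agent.HeckeM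

namespace Pool.Agent.SLow

variable {K : Type} [Field K] [NumberField K]

/-- multiplication by a unit -/
private def contMul {m : Ideal (𝓞 K)} {𝔟 : Ideal (𝓞 K)} (u : (𝓞 K)ˣ)
    (hu : (u : 𝓞 K) - 1 ∈ m) :
    {α : 𝓞 K // α ∈ 𝔟 ∧ α - 1 ∈ m} ≃ {α : 𝓞 K // α ∈ 𝔟 ∧ α - 1 ∈ m} where
  toFun α := ⟨(u : 𝓞 K) * α, 𝔟.mul_mem_left _ α.2.1, fund_mul hu α.2.2⟩
  invFun α := ⟨((u⁻¹ : (𝓞 K)ˣ) : 𝓞 K) * α, 𝔟.mul_mem_left _ α.2.1,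
    fund_mul (fund_inv_congr hu) α.2.2⟩
  left_inv α := Subtype.ext (by simp)
  right_inv α := Subtype.ext (by simp)

omit [NumberField K] in
private theorem cont_sgn_le (ι₂ : K →+* ℝ) (m : Ideal (𝓞 K)) (𝔟 : Ideal (𝓞 K)) (j : ℕ)
    (𝔞 : Ideal (𝓞 K)) : |sgnI ι₂ m 𝔟 j 𝔞| ≤ 1 := by
  unfold sgnI
  split_ifs with h
  · rw [abs_pow]
    refine pow_le_one₀ (abs_nonneg _) ?_
    rcases SignType.sign (ι₂ (h.choose : K)) <;> decide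
  · simp

omit [NumberField K] in
/-- the sign does not depend on the generator -/
private theorem cont_sgn {ι₂ : K →+* ℝ} {m : Ideal (𝓞 K)} {𝔟 : Ideal (𝓞 K)} {j : ℕ} (hj : j ≤ 1)
    (hpos : j = 1 → ∀ u : (𝓞 K)ˣ, (u : 𝓞 K) - 1 ∈ m → 0 < ι₂ ((u : 𝓞 K) : K))
    {𝔞 : Ideal (𝓞 K)} {α : 𝓞 K} (h1 : α - 1 ∈ m) (h2 : 𝔞 * 𝔟 = Ideal.span {α}) :
    sgnI ι₂ m 𝔟 j 𝔞 = ((SignType.sign (ι₂ (α : K)) : ℤ)) ^ j := by
  have h : ∃ α : 𝓞 K, α - 1 ∈ m ∧ 𝔞 * 𝔟 = Ideal.span {α} := ⟨α, h1, h2⟩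
  unfold sgnI
  rw [dif_pos h]
  obtain ⟨h3, h4⟩ := h.choose_spec
  set β := h.choose with hβ
  rcases Nat.le_one_iff_eq_zero_or_eq_one.1 hj with rfl | rfl
  · rw [pow_zero, pow_zero]
  · rw [h2, Ideal.span_singleton_eq_span_singleton] at h4
    obtain ⟨u, hu⟩ := h4
    have h5 : (u : 𝓞 K) - 1 ∈ m := by
      have e : (u : 𝓞 K) - 1 = (β - 1) - (u : 𝓞 K) * (α - 1) := by
        rw [← hu]
        ring
      rw [e]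
      exact m.sub_mem h3 (m.mul_mem_left _ h1)
    have h6 := hpos rfl u h5
    rw [pow_one, pow_one, ← hu]
    have e : ι₂ ((α * (u : 𝓞 K) : 𝓞 K) : K) = ι₂ (α : K) * ι₂ ((u : 𝓞 K) : K) := by
      rw [← map_mul]
      rfl
    rw [e, sign_mul, sign_pos h6, mul_one]

theorem exists_cont_rcoefI0 (hK : finrank ℚ K = 2) {ι₁ ι₂ : K →+* ℝ} (hι : ι₁ ≠ ι₂)
    {m : Ideal (𝓞 K)} (hm : m ≠ ⊥) (h2m : (2 : 𝓞 K) ∉ m)
    {𝔟 : Ideal (𝓞 K)} (h0 : 𝔟 ≠ ⊥) (hb : IsCoprime 𝔟 m) {j : ℕ}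
    (hj : j ≤ 1) (hpos : j = 1 → ∀ u : (𝓞 K)ˣ, (u : 𝓞 K) - 1 ∈ m →
      0 < ι₂ ((u : 𝓞 K) : K)) :
    ∃ W : ℂ → ℂ, IsCont (fun n => (rcoefI ι₂ m 𝔟 j n : ℂ)) W ∧
      (W 0 = 0 ∧ (j = 0 → deriv W 0 = 0)) := by
  have h1m : (1 : 𝓞 K) ∉ m := by
    intro h
    apply h2m
    rw [← one_add_one_eq_two]
    exact m.add_mem h h
  obtain ⟨ε, hε1, hε2, hε3, hε4⟩ := exists_unit_gen hK hι hm h2m
  obtain ⟨L, v, w, φ, hφ⟩ := exists_coset hK hι hm h0 hb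
  set η := |ι₁ ((ε : 𝓞 K) : K)| with hη
  set κ : ℝ := ((SignType.sign (ι₂ ((ε : 𝓞 K) : K)) : ℤ) : ℝ) with hκ
  have hcoe : ∀ α : 𝓞 K, α ≠ 0 → ∀ ι : K →+* ℝ, ι (α : K) ≠ 0 := by
    intro α hα ι
    rw [Ne, map_eq_zero, RingOfIntegers.coe_eq_zero_iff]
    exact hα
  have hεne : ι₂ ((ε : 𝓞 K) : K) ≠ 0 := hcoe _ ε.ne_zero ι₂
  have hκ2 : κ ^ 2 = 1 := by
    rcases lt_or_gt_of_ne hεne with h | h
    · rw [hκ, sign_neg h]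
      simp
    · rw [hκ, sign_pos h]
      simp
  have hκη : κ * η⁻¹ = ι₂ ((ε : 𝓞 K) : K) := by
    rw [← hε3]
    rcases lt_or_gt_of_ne hεne with h | h
    · rw [hκ, sign_neg h, abs_of_neg h]
      simp
    · rw [hκ, sign_pos h, abs_of_pos h]
      simp
  have hκj : κ ^ j = 1 := by
    rcases Nat.le_one_iff_eq_zero_or_eq_one.1 hj with h | h
    · rw [h, pow_zero]
    · rw [h, pow_one, hκ, sign_pos (hpos h ε hε1)]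
      simp
  have hX : ∀ p, ((φ p : 𝓞 K)) ≠ 0 := fun p => fund_ne_zero h1m (φ p).2.2
  have hne : ∀ p, L.fst p + v ≠ 0 ∧ L.snd p + w ≠ 0 := by
    intro p
    rw [← (hφ p).1, ← (hφ p).2]
    exact ⟨hcoe _ (hX p) ι₁, hcoe _ (hX p) ι₂⟩
  set ρ : Equiv.Perm (ℤ × ℤ) := φ.trans ((contMul ε hε1).trans φ.symm) with hρ
  have hρφ : ∀ p, (φ (ρ p) : 𝓞 K) = (ε : 𝓞 K) * (φ p : 𝓞 K) := by
    intro p
    rw [hρ]
    simp [contMul]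
  have hρ1 : ∀ p, (L.fst (ρ p) + v) ^ 2 = η ^ 2 * (L.fst p + v) ^ 2 := by
    intro p
    rw [← (hφ (ρ p)).1, ← (hφ p).1, hρφ, hη, sq_abs, ← mul_pow, ← map_mul]
    rfl
  have hρ2 : ∀ p, L.snd (ρ p) + w = κ * η⁻¹ * (L.snd p + w) := by
    intro p
    rw [← (hφ (ρ p)).2, ← (hφ p).2, hρφ, hκη, ← map_mul]
    rfl
  obtain ⟨D, hD1, hD2, hD3⟩ := L.exists_D0 hne hj hε2 ρ hκ2 hκj hρ1 hρ2
  obtain ⟨e, he⟩ := exists_equiv_ideals h1m hε1 hε2 hε3 hε4 h0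
  have hb0 : Ideal.absNorm 𝔟 ≠ 0 := by
    rw [Ne, Ideal.absNorm_eq_zero_iff]
    exact h0
  have hbc : ((Ideal.absNorm 𝔟 : ℕ) : ℂ) ≠ 0 := Nat.cast_ne_zero.2 hb0
  have hcpow : ∀ s : ℂ, HasDerivAt (fun s : ℂ => ((Ideal.absNorm 𝔟 : ℕ) : ℂ) ^ s)
      (((Ideal.absNorm 𝔟 : ℕ) : ℂ) ^ s * Complex.log (Ideal.absNorm 𝔟 : ℕ)) s := by
    intro s
    have h := (hasDerivAt_id s).const_cpow (c := ((Ideal.absNorm 𝔟 : ℕ) : ℂ)) (Or.inl hbc)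
    simpa using h
  refine ⟨fun s => ((Ideal.absNorm 𝔟 : ℕ) : ℂ) ^ s * D s, ⟨?_, ?_, ?_⟩, ?_⟩
  · have h1 : DifferentiableOn ℂ (fun s : ℂ => ((Ideal.absNorm 𝔟 : ℕ) : ℂ) ^ s) {1}ᶜ :=
      fun s _ => (hcpow s).differentiableAt.differentiableWithinAt
    exact h1.mul hD1
  · intro s hs
    exact lseriesSummable_ideals (cont_sgn_le ι₂ m 𝔟 j) hs
  · intro s hs
    symm
    refine lseries_ideals (cont_sgn_le ι₂ m 𝔟 j)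
      (P := fun 𝔞 => ∃ α : 𝓞 K, α - 1 ∈ m ∧ 𝔞 * 𝔟 = Ideal.span {α}) ?_ ?_ hs ?_
    · rintro 𝔞 ⟨α, h1, h2⟩ rfl
      rw [Ideal.bot_mul] at h2
      exact fund_ne_zero h1m h1 (Ideal.span_singleton_eq_bot.1 h2.symm)
    · intro 𝔞 _ h
      unfold sgnI
      rw [dif_neg h]
    · have h1 := (hD3 s hs).mul_left (((Ideal.absNorm 𝔟 : ℕ) : ℂ) ^ s)
      let E : {p : ℤ × ℤ // |L.fst p + v| ≤ |L.snd p + w| ∧
          |L.snd p + w| < η ^ 2 * |L.fst p + v|} ≃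
          {𝔞 : Ideal (𝓞 K) // ∃ α : 𝓞 K, α - 1 ∈ m ∧ 𝔞 * 𝔟 = Ideal.span {α}} :=
        ((φ.subtypeEquiv (q := fun α : {α : 𝓞 K // α ∈ 𝔟 ∧ α - 1 ∈ m} =>
          |ι₁ ((α : 𝓞 K) : K)| ≤ |ι₂ ((α : 𝓞 K) : K)| ∧
          |ι₂ ((α : 𝓞 K) : K)| < η ^ 2 * |ι₁ ((α : 𝓞 K) : K)|) (fun p => by
            rw [(hφ p).1, (hφ p).2])).trans
          (Equiv.subtypeSubtypeEquivSubtypeInter _ (fun α : 𝓞 K =>
            |ι₁ (α : K)| ≤ |ι₂ (α : K)| ∧ |ι₂ (α : K)| < η ^ 2 * |ι₁ (α : K)|))).trans e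
      have hE : ∀ p, (E p : Ideal (𝓞 K)) * 𝔟 = Ideal.span {(φ p.1 : 𝓞 K)} := fun p => he _
      rw [← E.hasSum_iff]
      refine (Eq.subst (motive := fun F : {p : ℤ × ℤ // |L.fst p + v| ≤ |L.snd p + w| ∧
          |L.snd p + w| < η ^ 2 * |L.fst p + v|} → ℂ => HasSum F _) (funext fun p => ?_) h1)
      have h2 := hE p
      have h3 : Ideal.absNorm (E p : Ideal (𝓞 K)) * Ideal.absNorm 𝔟 =
          Ideal.absNorm (Ideal.span {(φ p.1 : 𝓞 K)}) := by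
        rw [← h2, map_mul]
      have h4 := norm_eq hK hι (φ p.1 : 𝓞 K)
      rw [(hφ p.1).1, (hφ p.1).2, ← h3] at h4
      have h5 := cont_sgn hj hpos (φ p.1).2.2 h2
      rw [(hφ p.1).2] at h5
      show ((Ideal.absNorm 𝔟 : ℕ) : ℂ) ^ s * (((SignType.sign (L.snd p.1 + w) : ℤ) : ℂ) ^ j *
          ((|(L.fst p.1 + v) * (L.snd p.1 + w)| : ℝ) : ℂ) ^ (-s)) =
        ((sgnI ι₂ m 𝔟 j (E p : Ideal (𝓞 K)) : ℤ) : ℂ) *
          ((Ideal.absNorm (E p : Ideal (𝓞 K)) : ℕ) : ℂ) ^ (-s)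
      rw [h5, ← h4]
      push_cast
      rw [Complex.natCast_mul_natCast_cpow, Complex.cpow_neg ((Ideal.absNorm 𝔟 : ℕ) : ℂ)]
      have h6 : ((Ideal.absNorm 𝔟 : ℕ) : ℂ) ^ s ≠ 0 := by
        rw [Ne, Complex.cpow_eq_zero_iff]
        exact fun h => hbc h.1
      field_simp
  · obtain ⟨h1, h2'⟩ := hD2
    refine ⟨?_, ?_⟩
    · show _ * D 0 = 0
      rw [h1, mul_zero]
    · intro hj0
      have h2 := h2' hj0
      have h3 : DifferentiableAt ℂ D 0 :=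
        hD1.differentiableAt (isOpen_compl_singleton.mem_nhds (by simp))
      have h4 := (hcpow 0).mul h3.hasDerivAt
      rw [h1, h2, mul_zero, mul_zero, add_zero] at h4
      exact h4.deriv

end Pool.Agent.SLow
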