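import Pool.Agent.SLow.Defs
import Pool.Agent.HeckeM.CoeffR
import Pool.Agent.HeckeRQ.LSer
import Pool.Agent.CMR.Mod

/-!
# Partial zeta functions of a subextension `H ⊆ H'`

Model: `StarkRQ/Restrict.lean` (`zcoeff_restrict`). For `a` prime to `m` (and `a ≠ ⊥`) the Artin
symbols exist and are unique in `H'` and `H` (`HeckeM.artM_iff`, `StarkU.artU_exists`), and
restriction of the one in `H'` is the one in `H` (`CMR.hasArtin_restrict`). So the ideals counted by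
`zcI m σ n` are the disjoint union over the `s` over `σ` of those counted by `zcI m s n`.
-/

set_option autoImplicit false

noncomputable section

open NumberField Module Pool.Agent.StarkRQ Pool.Agent.StarkU Pool.Agent.HeckeM

namespace Pool.Agent.SLow

variable {K H L : Type} [Field K] [NumberField K] [Field H] [NumberField H] [Field L]
  [NumberField L] [Algebra K H] [Algebra K L] [Algebra H L] [IsScalarTower K H L]
  [IsAbelianGalois K H] [IsAbelianGalois K L]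

open Classical in
/-- the elements of `Gal(L/K)` over `σ` -/
def fib (L : Type) [Field L] [NumberField L] [Algebra K L] [Algebra H L] [IsScalarTower K H L]
    (σ : Gal(H/K)) : Finset Gal(L/K) :=
  Finset.univ.filter fun s => AlgEquiv.restrictNormalHom H s = σ

omit [IsAbelianGalois K L] in
theorem mem_fib {σ : Gal(H/K)} {s : Gal(L/K)} :
    s ∈ fib L σ ↔ AlgEquiv.restrictNormalHom H s = σ := by
  classical
  unfold fib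
  rw [Finset.mem_filter]
  exact ⟨fun h => h.2, fun h => ⟨Finset.mem_univ _, h⟩⟩

/-- if `L` is unramified outside `m` then so is `H` -/
theorem unrAt_down {m : Ideal (𝓞 K)}
    (hur : ∀ 𝔮 : Ideal (𝓞 K), 𝔮.IsPrime → 𝔮 ≠ ⊥ → IsCoprime 𝔮 m → UnrAt L 𝔮) :
    ∀ 𝔮 : Ideal (𝓞 K), 𝔮.IsPrime → 𝔮 ≠ ⊥ → IsCoprime 𝔮 m → UnrAt H 𝔮 := by
  intro 𝔮 h1 h2 h3 Q hQ hQ𝔮 hdvd
  have hHL : IsGalois H L := IsGalois.tower_top_of_isGalois K H L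
  obtain ⟨Q', hQ', hQ'Q⟩ := exists_over (F := H) (M := L) Q
  have halg : algebraMap (𝓞 K) (𝓞 L) =
      (algebraMap (𝓞 H) (𝓞 L)).comp (algebraMap (𝓞 K) (𝓞 H)) := by
    ext x
    change algebraMap K L (x : K) = algebraMap H L (algebraMap K H (x : K))
    rw [← IsScalarTower.algebraMap_apply K H L]
  have hQ'𝔮 : Q'.comap (algebraMap (𝓞 K) (𝓞 L)) = 𝔮 := by
    rw [halg, ← Ideal.comap_comap, hQ'Q, hQ𝔮]
  refine hur 𝔮 h1 h2 h3 Q' hQ' hQ'𝔮 ?_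
  have h4 : Q' ∣ Q.map (algebraMap (𝓞 H) (𝓞 L)) := by
    rw [Ideal.dvd_iff_le, Ideal.map_le_iff_le_comap, hQ'Q]
  have h5 : (Q.map (algebraMap (𝓞 H) (𝓞 L))) ^ 2 ∣ 𝔮.map (algebraMap (𝓞 K) (𝓞 L)) := by
    rw [halg, ← Ideal.map_map, ← Ideal.map_pow]
    obtain ⟨J, hJ⟩ := hdvd
    rw [hJ, Ideal.map_mul]
    exact dvd_mul_right _ _
  exact (pow_dvd_pow_of_dvd h4 2).trans h5

theorem zcI_fib {m : Ideal (𝓞 K)}
    (hur : ∀ 𝔮 : Ideal (𝓞 K), 𝔮.IsPrime → 𝔮 ≠ ⊥ → IsCoprime 𝔮 m → UnrAt L 𝔮)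
    (σ : Gal(H/K)) {n : ℕ} (hn : n ≠ 0) : zcI m σ n = ∑ s ∈ fib L σ, zcI m s n := by
  classical
  have hne : ∀ 𝔞 : Ideal (𝓞 K), Ideal.absNorm 𝔞 = n → 𝔞 ≠ ⊥ := by
    rintro 𝔞 h rfl
    rw [Ideal.absNorm_bot] at h
    exact hn h.symm
  have hfin : Finite {𝔞 : Ideal (𝓞 K) // Ideal.absNorm 𝔞 = n} :=
    (Ideal.finite_setOfPred_absNorm_eq n).to_subtype
  have hfib : ∀ s : (fib L σ : Finset Gal(L/K)),
      Finite {𝔞 : Ideal (𝓞 K) // Ideal.absNorm 𝔞 = n ∧ IsCoprime 𝔞 m ∧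
        HasArtinSymbol 𝔞 (s : Gal(L/K))} :=
    fun s => Finite.of_injective
      (fun 𝔞 => (⟨𝔞.1, 𝔞.2.1⟩ : {𝔞 : Ideal (𝓞 K) // Ideal.absNorm 𝔞 = n}))
      fun a b h => Subtype.ext (congrArg (fun z : {𝔞 : Ideal (𝓞 K) // Ideal.absNorm 𝔞 = n} =>
        z.1) h)
  have hurH := unrAt_down (H := H) hur
  have hart : ∀ 𝔞 : Ideal (𝓞 K), Ideal.absNorm 𝔞 = n → IsCoprime 𝔞 m → ∀ s : Gal(L/K),
      HasArtinSymbol 𝔞 s ↔ s = art 𝔞 := fun 𝔞 h h' s => artM_iff hur (hne 𝔞 h) h' s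
  have hart' : ∀ 𝔞 : Ideal (𝓞 K), Ideal.absNorm 𝔞 = n → IsCoprime 𝔞 m →
      (HasArtinSymbol 𝔞 σ ↔ σ = AlgEquiv.restrictNormalHom H (art 𝔞 : Gal(L/K))) := by
    intro 𝔞 h h'
    have h1 : HasArtinSymbol 𝔞 (art 𝔞 : Gal(L/K)) := (hart 𝔞 h h' _).2 rfl
    have h2 := CMR.hasArtin_restrict (M := H) h1
    constructor
    · intro h3
      exact artM_unique hurH (hne 𝔞 h) h' h3 h2
    · rintro rfl
      exact h2
  unfold zcI
  rw [← Finset.sum_coe_sort, ← Nat.card_sigma]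
  refine Nat.card_congr ⟨fun 𝔞 => ⟨⟨art 𝔞.1, mem_fib.2
      ((hart' 𝔞.1 𝔞.2.1 𝔞.2.2.1).1 𝔞.2.2.2).symm⟩, 𝔞.1, 𝔞.2.1, 𝔞.2.2.1,
      (hart 𝔞.1 𝔞.2.1 𝔞.2.2.1 _).2 rfl⟩, fun x => ⟨x.2.1, x.2.2.1, x.2.2.2.1, ?_⟩, ?_, ?_⟩
  · rw [hart' x.2.1 x.2.2.1 x.2.2.2.1, ← (hart x.2.1 x.2.2.1 x.2.2.2.1 _).1 x.2.2.2.2,
      mem_fib.1 x.1.2]
  · intro 𝔞
    rfl
  · rintro ⟨⟨s, hs⟩, ⟨𝔞, h1, h2, h3⟩⟩
    obtain rfl := (hart 𝔞 h1 h2 s).1 h3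
    rfl

theorem isPZ_fib {m : Ideal (𝓞 K)}
    (hur : ∀ 𝔮 : Ideal (𝓞 K), 𝔮.IsPrime → 𝔮 ≠ ⊥ → IsCoprime 𝔮 m → UnrAt L 𝔮)
    (σ : Gal(H/K)) {Z : Gal(L/K) → ℂ → ℂ} (hZ : ∀ s ∈ fib L σ, IsPZ m s (Z s)) :
    IsPZ m σ (fun z => ∑ s ∈ fib L σ, Z s z) := by
  classical
  refine ⟨DifferentiableOn.fun_sum fun s hs => (hZ s hs).1, fun z hz => ?_⟩
  have h1 : ∀ s ∈ fib L σ, LSeriesSummable (fun n => (zcI m s n : ℂ)) z := by
    intro s _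
    refine Summable.of_norm_bounded (Analytic.card_summable K hz).norm fun n => ?_
    refine LSeries.norm_term_le z ?_
    simp only [Complex.norm_natCast]
    have hfin : Finite {𝔞 : Ideal (𝓞 K) // Ideal.absNorm 𝔞 = n} :=
      (Ideal.finite_setOfPred_absNorm_eq n).to_subtype
    have h2 : zcI m s n ≤ Nat.card {𝔞 : Ideal (𝓞 K) // Ideal.absNorm 𝔞 = n} :=
      Nat.card_le_card_of_injective
        (fun 𝔞 : {𝔞 : Ideal (𝓞 K) // Ideal.absNorm 𝔞 = n ∧ IsCoprime 𝔞 m ∧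
          HasArtinSymbol 𝔞 s} => (⟨𝔞.1, 𝔞.2.1⟩ : {𝔞 : Ideal (𝓞 K) // Ideal.absNorm 𝔞 = n}))
        fun a b h => Subtype.ext (congrArg (fun z : {𝔞 : Ideal (𝓞 K) //
          Ideal.absNorm 𝔞 = n} => z.1) h)
    exact_mod_cast h2
  have h3 : (∑ s ∈ fib L σ, Z s z) = ∑ s ∈ fib L σ, LSeries (fun n => (zcI m s n : ℂ)) z :=
    Finset.sum_congr rfl fun s hs => (hZ s hs).2 z hz
  simp only
  rw [h3, ← LSeries_sum h1]
  refine LSeries_congr (fun {n} hn => ?_) z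
  rw [Finset.sum_apply, zcI_fib hur σ hn]
  push_cast
  rfl

end Pool.Agent.SLow
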