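import Pool.Agent.SLow.Good
import Pool.Agent.SLow.Norm

/-!
# Units of `H` from the units of a bigger field

If all quotients `e σ / e τ` are given by units of `L` with the required properties,
`e σ e (R σ) = 1`, and `[L : H]` is even (divisible by `4` if `b = true`), then the products of `e` over the fibres of
`Gal(L/K) → Gal(H/K)` are given by units of `H` with the required properties.
-/

set_option autoImplicit false

noncomputable section

open NumberField Module

namespace Pool.Agent.SLow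

section fibres

variable {K H L : Type} [Field K] [NumberField K] [Field H] [NumberField H] [Field L]
  [NumberField L] [Algebra K H] [Algebra K L] [Algebra H L] [IsScalarTower K H L]
  [IsAbelianGalois K H]

variable (H) in
/-- the product over a fibre -/
theorem prod_fib (e : Gal(L/K) → ℂ) (s : Gal(L/K)) :
    ∏ t ∈ fib L (1 : Gal(H/K)), e (s * t) =
      ∏ u ∈ fib L (AlgEquiv.restrictNormalHom H s), e u := by
  refine Finset.prod_equiv (Equiv.mulLeft s) (fun t => ?_) fun t _ => rfl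
  rw [mem_fib, mem_fib, Equiv.coe_mulLeft, map_mul]
  exact ⟨fun h => by rw [h, mul_one], fun h => mul_eq_left.1 h⟩

theorem card_fib_one [IsAbelianGalois K L] : (fib L (1 : Gal(H/K))).card = finrank H L := by
  classical
  have h1 : (fib L (1 : Gal(H/K))).card =
      Nat.card (AlgEquiv.restrictNormalHom H : Gal(L/K) →* Gal(H/K)).ker := by
    rw [Nat.card_eq_fintype_card, Fintype.card_subtype]
    congr 1
    ext s
    rw [mem_fib, Finset.mem_filter, MonoidHom.mem_ker]
    simp
  have h2 := (AlgEquiv.restrictNormalHom H : Gal(L/K) →* Gal(H/K)).ker.card_mul_index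
  rw [Subgroup.index_ker, MonoidHom.range_eq_top.2
    (AlgEquiv.restrictNormalHom_surjective L), Subgroup.card_top,
    IsGalois.card_aut_eq_finrank, IsGalois.card_aut_eq_finrank,
    ← Module.finrank_mul_finrank K H L, mul_comm] at h2
  rw [h1]
  exact mul_left_cancel₀ (Module.finrank_pos (R := K) (M := H)).ne' h2

omit [NumberField K] [NumberField H] in
/-- a unit of `L` fixed by the kernel of the restriction comes from `H` -/
theorem exists_unit_down [IsAbelianGalois K L] {u : (𝓞 L)ˣ}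
    (hu : ∀ t : Gal(L/K), AlgEquiv.restrictNormalHom H t = 1 → t ((u : 𝓞 L) : L) = (u : 𝓞 L)) :
    ∃ v : (𝓞 H)ˣ, algebraMap H L ((v : 𝓞 H) : H) = ((u : 𝓞 L) : L) := by
  have hG : IsGalois H L := IsGalois.tower_top_of_isGalois K H L
  have hfix : ∀ τ : Gal(L/H), τ ((u : 𝓞 L) : L) = (u : 𝓞 L) := by
    intro τ
    refine hu (τ.restrictScalars K) ?_
    ext x
    apply (algebraMap H L).injective
    have h1 := AlgEquiv.restrictNormal_commutes (τ.restrictScalars K) H x
    have h2 : (AlgEquiv.restrictNormalHom H (τ.restrictScalars K)) x =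
        ((τ.restrictScalars K).restrictNormal H) x := rfl
    rw [h2, h1, AlgEquiv.restrictScalars_apply, τ.commutes]
    rfl
  obtain ⟨x, hx⟩ := (InfiniteGalois.mem_range_algebraMap_iff_fixed ((u : 𝓞 L) : L)).mpr hfix
  have hx0 : x ≠ 0 := by
    rintro rfl
    rw [map_zero] at hx
    exact coe_units_ne u hx.symm
  have h1 : IsIntegral ℤ x := by
    refine (isIntegral_algebraMap_iff (algebraMap H L).injective).1 ?_
    rw [hx]
    exact RingOfIntegers.isIntegral_coe _
  have h2 : IsIntegral ℤ x⁻¹ := by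
    refine (isIntegral_algebraMap_iff (algebraMap H L).injective).1 ?_
    rw [map_inv₀, hx, ← coe_units_inv]
    exact RingOfIntegers.isIntegral_coe _
  refine ⟨⟨⟨x, h1⟩, ⟨x⁻¹, h2⟩, ?_, ?_⟩, hx⟩
  · apply RingOfIntegers.ext
    exact mul_inv_cancel₀ hx0
  · apply RingOfIntegers.ext
    exact inv_mul_cancel₀ hx0

end fibres

theorem core {K H L : Type} [Field K] [NumberField K] [Field H] [NumberField H] [Field L]
    [NumberField L] [Algebra K H] [Algebra K L] [Algebra H L] [IsScalarTower K H L]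
    [IsAbelianGalois K H] [IsAbelianGalois K L] {b : Bool} {i : H →+* ℂ} {I : L →+* ℂ}
    (hI : ∀ x : H, I (algebraMap H L x) = i x) {ι₂ : K →+* ℝ} {e : Gal(L/K) → ℂ}
    (he : ∀ σ, e σ ≠ 0) (hgood : ∀ γ, Good b I ι₂ e γ) {R : Gal(L/K)}
    (hR : ∀ σ, e σ * e (R * σ) = 1) (h2r : 2 ∣ finrank H L) (h4r : b = true → 4 ∣ finrank H L) :
    ∃ ε : Gal(H/K) → (𝓞 H)ˣ,
      (∀ σ, i ((ε σ : 𝓞 H) : H) = ∏ s ∈ fib L σ, e s) ∧
      (∀ ρ σ, ρ ((ε σ : 𝓞 H) : H) = ((ε (ρ * σ) : 𝓞 H) : H)) ∧
      (∀ g : H →+* ℂ, (∀ x : K, g (algebraMap K H x) = ι₂ x) →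
        ∀ σ, ‖g ((ε σ : 𝓞 H) : H)‖ = 1) ∧
      (b = true → ∃ (E : Type) (_ : Field E) (_ : Algebra K E) (_ : Algebra H E)
        (_ : IsScalarTower K H E), IsAbelianGalois K E ∧
          ∀ σ, ∃ y : E, y ^ 2 = algebraMap H E ((ε σ : 𝓞 H) : H)) := by
  classical
  choose r h1 h2 h3 h4' using hgood
  obtain ⟨m, hm⟩ := h2r
  set N : Finset Gal(L/K) := fib L (1 : Gal(H/K)) with hN
  have hcard : N.card = 2 * m := by rw [hN, card_fib_one, hm]
  let P : Gal(L/K) → (𝓞 L)ˣ := fun s => (∏ t ∈ N, (r t s)⁻¹) * (r R s) ^ m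
  have hPdef : ∀ s, P s = (∏ t ∈ N, (r t s)⁻¹) * (r R s) ^ m := fun _ => rfl
  -- coercions
  let c : (𝓞 L)ˣ →* L := ((algebraMap (𝓞 L) L : 𝓞 L →+* L) : 𝓞 L →* L).comp (Units.coeHom (𝓞 L))
  have hc : ∀ u : (𝓞 L)ˣ, c u = ((u : 𝓞 L) : L) := fun _ => rfl
  have hP : ∀ s, ((P s : 𝓞 L) : L) =
      (∏ t ∈ N, ((r t s : 𝓞 L) : L)⁻¹) * ((r R s : 𝓞 L) : L) ^ m := by
    intro s
    rw [← hc, hPdef, map_mul, map_prod, map_pow, hc]
    congr 1
    refine Finset.prod_congr rfl fun t _ => ?_
    rw [hc, coe_units_inv]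
  -- the values under `I`
  have hIP : ∀ s, I ((P s : 𝓞 L) : L) = ∏ u ∈ fib L (AlgEquiv.restrictNormalHom H s), e u := by
    intro s
    rw [hP, map_mul, map_prod, map_pow, ← prod_fib H e s, ← hN]
    have e1 : ∀ t, I (((r t s : 𝓞 L) : L)⁻¹) = e (s * t) * (e s)⁻¹ := by
      intro t
      rw [map_inv₀, ← h1 t s, mul_inv_rev, ← mul_assoc, mul_inv_cancel₀ (he _), one_mul]
    have e2 : I ((r R s : 𝓞 L) : L) = e s ^ 2 := by
      have e3 := h1 R s
      have e4 : s * R = R * s := mul_comm' _ _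
      rw [e4] at e3
      have e5 := hR s
      calc I ((r R s : 𝓞 L) : L) = I ((r R s : 𝓞 L) : L) * (e s * e (R * s)) := by
            rw [e5, mul_one]
        _ = (I ((r R s : 𝓞 L) : L) * e (R * s)) * e s := by ring
        _ = e s ^ 2 := by rw [e3, sq]
    simp only [e1, e2]
    rw [Finset.prod_mul_distrib, Finset.prod_const, hcard, ← pow_mul, inv_pow, mul_assoc,
      inv_mul_cancel₀ (pow_ne_zero _ (he s)), mul_one]
  have hPP : ∀ s s', AlgEquiv.restrictNormalHom H s = AlgEquiv.restrictNormalHom H s' →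
      P s = P s' := by
    intro s s' h
    apply Units.ext
    apply RingOfIntegers.ext
    apply I.injective
    rw [hIP, hIP, h]
  have hact : ∀ ρ s, ρ ((P s : 𝓞 L) : L) = ((P (ρ * s) : 𝓞 L) : L) := by
    intro ρ s
    rw [hP, hP, map_mul, map_prod, map_pow, h2]
    congr 1
    refine Finset.prod_congr rfl fun t _ => ?_
    rw [map_inv₀, h2]
  -- descent
  have hdown : ∀ s, ∃ v : (𝓞 H)ˣ, algebraMap H L ((v : 𝓞 H) : H) = ((P s : 𝓞 L) : L) := by
    intro s
    refine exists_unit_down (K := K) fun t ht => ?_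
    rw [hact, hPP (t * s) s]
    rw [map_mul, ht, one_mul]
  choose v hv using hdown
  have hsurj : Function.Surjective (AlgEquiv.restrictNormalHom H : Gal(L/K) →* Gal(H/K)) :=
    AlgEquiv.restrictNormalHom_surjective L
  choose l hl using hsurj
  have hvl : ∀ s σ, AlgEquiv.restrictNormalHom H s = σ →
      algebraMap H L ((v (l σ) : 𝓞 H) : H) = ((P s : 𝓞 L) : L) := by
    intro s σ h
    rw [hv, hPP (l σ) s]
    rw [hl, h]
  refine ⟨fun σ => v (l σ), fun σ => ?_, fun ρ σ => ?_, fun g hg σ => ?_, fun hb => ?_⟩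
  · rw [← hI, hv, hIP, hl]
  · apply (algebraMap H L).injective
    rw [hvl (l ρ * l σ) (ρ * σ) (by rw [map_mul, hl, hl]), ← hact, ← hv]
    have e1 := AlgEquiv.restrictNormal_commutes (l ρ) H ((v (l σ) : 𝓞 H) : H)
    have e2 : AlgEquiv.restrictNormalHom H (l ρ) = (l ρ).restrictNormal H := rfl
    rw [← e2, hl] at e1
    exact e1
  · have hG : Algebra.IsAlgebraic H L := Algebra.IsAlgebraic.of_finite H L
    let _ : Algebra H ℂ := g.toAlgebra
    let g' : L →ₐ[H] ℂ := IsAlgClosed.lift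
    have hg' : ∀ x : H, g' (algebraMap H L x) = g x := fun x => g'.commutes x
    have hgK : ∀ x : K, (g' : L →+* ℂ) (algebraMap K L x) = ι₂ x := by
      intro x
      rw [IsScalarTower.algebraMap_apply K H L, ← hg]
      exact hg' _
    rw [← hg', hv]
    change ‖(g' : L →+* ℂ) ((P (l σ) : 𝓞 L) : L)‖ = 1
    rw [hP, map_mul, map_prod, map_pow, norm_mul, norm_prod, norm_pow, h3 _ _ hgK, one_pow,
      mul_one]
    refine Finset.prod_eq_one fun t _ => ?_
    rw [map_inv₀, norm_inv, h3 _ _ hgK, inv_one]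
  · refine exists_field (L := L) fun σ => ?_
    rw [hv, hP]
    have e1 : AbSq K (((r R (l σ) : 𝓞 L) : L) ^ m) := by
      obtain ⟨d, hd⟩ := h4r hb
      have e2 : m = d * 2 := by omega
      rw [e2, pow_mul]
      exact AbSq.sq (K := K) _
    refine AbSq.mul ?_ e1
    refine Finset.prod_induction _ (AbSq K) (fun _ _ => AbSq.mul) AbSq.one fun t _ => ?_
    exact (h4' t hb _).inv

end Pool.Agent.SLow
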