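import Pool.Agent.SLow.Good

/-!
# The squares, for an arbitrary modulus

If all quotients `e σ / e τ` are given by units of `L` with the required properties and
`e σ e (R σ) = 1`, then so are the `e σ ^ 2`, and the square roots `± e σ` lie in one abelian
extension of `K` (`g ∈ Gal(Ω/K)` acts by `g (y σ) = s(g) y (g σ)` with a sign `s(g)`).
-/

set_option autoImplicit false

noncomputable section

open NumberField Module

namespace Pool.Agent.SLow

theorem coreSq {K L : Type} [Field K] [NumberField K] [Field L] [NumberField L] [Algebra K L]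
    [IsAbelianGalois K L] {b : Bool} {i : L →+* ℂ} {ι₂ : K →+* ℝ} {e : Gal(L/K) → ℂ}
    (he : ∀ σ, e σ ≠ 0) (hgood : ∀ γ, Good b i ι₂ e γ) {R : Gal(L/K)}
    (hR : ∀ σ, e σ * e (R * σ) = 1) :
    ∃ ε : Gal(L/K) → (𝓞 L)ˣ,
      (∀ σ, i ((ε σ : 𝓞 L) : L) = e σ ^ 2) ∧
      (∀ ρ σ, ρ ((ε σ : 𝓞 L) : L) = ((ε (ρ * σ) : 𝓞 L) : L)) ∧
      (∀ g : L →+* ℂ, (∀ x : K, g (algebraMap K L x) = ι₂ x) →
        ∀ σ, ‖g ((ε σ : 𝓞 L) : L)‖ = 1) ∧
      ∃ (E : Type) (_ : Field E) (_ : Algebra K E) (_ : Algebra L E)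
        (_ : IsScalarTower K L E), IsAbelianGalois K E ∧
          ∀ σ, ∃ y : E, y ^ 2 = algebraMap L E ((ε σ : 𝓞 L) : L) := by
  choose r h1 h2 h3 h4 using hgood
  have e2 : ∀ s, i ((r R s : 𝓞 L) : L) = e s ^ 2 := by
    intro s
    have e3 := h1 R s
    have e4 : s * R = R * s := mul_comm' _ _
    rw [e4] at e3
    have e5 := hR s
    calc i ((r R s : 𝓞 L) : L) = i ((r R s : 𝓞 L) : L) * (e s * e (R * s)) := by
          rw [e5, mul_one]
      _ = (i ((r R s : 𝓞 L) : L) * e (R * s)) * e s := by ring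
      _ = e s ^ 2 := by rw [e3, sq]
  refine ⟨r R, e2, h2 R, h3 R, ?_⟩
  refine exists_field (L := L) (H := L) fun σ => ?_
  -- the algebraic closure in `ℂ`
  let _ : Algebra L ℂ := i.toAlgebra
  let I : AlgebraicClosure L →ₐ[L] ℂ := IsAlgClosed.lift
  have hI : ∀ x : L, I (algebraMap L _ x) = i x := fun x => I.commutes x
  -- the square roots
  have hy : ∀ s, ∃ y : AlgebraicClosure L,
      y ^ 2 = algebraMap L _ ((r R s : 𝓞 L) : L) ∧ I y = e s := by
    intro s
    obtain ⟨y, hy⟩ := IsAlgClosed.exists_pow_nat_eq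
      (algebraMap L (AlgebraicClosure L) ((r R s : 𝓞 L) : L)) (n := 2) (by norm_num)
    have h5 : I y ^ 2 = e s ^ 2 := by rw [← map_pow, hy, hI, e2]
    rcases sq_eq_sq_iff_eq_or_eq_neg.1 h5 with h6 | h6
    · exact ⟨y, hy, h6⟩
    · exact ⟨-y, by rw [neg_sq, hy], by rw [map_neg, h6, neg_neg]⟩
  choose y hy hIy using hy
  have hy0 : ∀ s, y s ≠ 0 := by
    intro s h
    apply he s
    rw [← hIy, h, map_zero]
  have hquot : ∀ γ s, y s = algebraMap L _ ((r γ s : 𝓞 L) : L) * y (s * γ) := by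
    intro γ s
    apply (I : AlgebraicClosure L →+* ℂ).injective
    change I (y s) = I (algebraMap L _ ((r γ s : 𝓞 L) : L) * y (s * γ))
    rw [map_mul, hI, hIy, hIy, h1]
  have hres : ∀ (g : Gal(AlgebraicClosure L/K)) (x : L),
      g (algebraMap L _ x) = algebraMap L _ (AlgEquiv.restrictNormalHom L g x) :=
    fun g x => (AlgEquiv.restrictNormal_commutes g L x).symm
  -- the sign of an automorphism
  have hsign : ∀ g : Gal(AlgebraicClosure L/K), ∃ s : ℤ,
      ∀ σ, g (y σ) = (s : AlgebraicClosure L) * y (AlgEquiv.restrictNormalHom L g * σ) := by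
    intro g
    have h5 : g (y 1) ^ 2 = y (AlgEquiv.restrictNormalHom L g * 1) ^ 2 := by
      rw [← map_pow, hy, hy, hres, h2]
    obtain ⟨s, hs⟩ : ∃ s : ℤ, g (y 1) =
        (s : AlgebraicClosure L) * y (AlgEquiv.restrictNormalHom L g * 1) := by
      rcases sq_eq_sq_iff_eq_or_eq_neg.1 h5 with h6 | h6
      · exact ⟨1, by rw [h6]; simp⟩
      · exact ⟨-1, by rw [h6]; simp⟩
    refine ⟨s, fun σ => ?_⟩
    have h6 := hquot σ⁻¹ σ
    rw [mul_inv_cancel] at h6
    have h7 := hquot σ⁻¹ (AlgEquiv.restrictNormalHom L g * σ)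
    rw [mul_inv_cancel_right] at h7
    rw [h6, h7, map_mul, hs, hres, h2, mul_one]
    ring
  refine ⟨y σ, hy σ, fun g h => ?_⟩
  obtain ⟨s, hs⟩ := hsign g
  obtain ⟨t, ht⟩ := hsign h
  rw [ht, hs, map_mul, map_mul, map_intCast, map_intCast, hs, ht, ← mul_assoc, ← mul_assoc,
    mul_comm' (AlgEquiv.restrictNormalHom L g) (AlgEquiv.restrictNormalHom L h)]
  rw [← mul_assoc, ← mul_assoc]
  ring

end Pool.Agent.SLow
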