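import Pool.Agent.HeckeM.Defs

/-!
# Stark's conjecture for the abelian extensions of `K` which are unramified outside `m ∞₂`
-/

set_option autoImplicit false

open NumberField Module Pool.Agent.StarkRQ Pool.Agent.HeckeM

namespace Pool.Agent.SLow

section

variable {K H : Type} [Field K] [NumberField K] [Field H] [NumberField H] [Algebra K H]

/-- `H/K` (abelian, with the embedding `i`) is a subextension of the ray class field of modulus
`m ∞₂` of `K`: `H` is real under `i`, `i` extends `ι₁`, all prime ideals of `K` which are prime to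
`m` are unramified in `H`, and the Artin symbol of every principal ideal `(α)` with `α ≡ 1` modulo
`m` and `α` positive at `ι₂` is trivial on `H`. -/
structure InRay (ι₁ ι₂ : K →+* ℝ) (m : Ideal (𝓞 K)) (i : H →+* ℂ) : Prop where
  hreal : ∀ y : H, (i y).im = 0
  hover : ∀ x : K, i (algebraMap K H x) = ι₁ x
  hunr : ∀ 𝔓 : Ideal (𝓞 H), 𝔓.IsPrime → 𝔓 ≠ ⊥ →
    IsCoprime (𝔓.comap (algebraMap (𝓞 K) (𝓞 H))) m →
    ¬ 𝔓 ^ 2 ∣ (𝔓.comap (algebraMap (𝓞 K) (𝓞 H))).map (algebraMap (𝓞 K) (𝓞 H))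
  hmod : ∀ α : 𝓞 K, α - 1 ∈ m → 0 < ι₂ (α : K) →
    HasArtinSymbol (Ideal.span {α}) (1 : Gal(H/K))

/-- Conditions 1, 2, 3 of the question for `H/K` and the set `S` of the prime factors of `m` and the
two infinite places, with the exponent `2 c`: there are partial zeta functions `Z σ` (continued to
`ℂ ∖ {1}`), and units `ε σ` of `H`, equal to `exp (-2 c ζ'(0, σ))` under `i`, permuted by
`Gal(H/K)`, and of absolute value `1` at all embeddings of `H` over `ι₂`. If `b = true` then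
moreover all the square roots of the `ε σ` lie in one abelian extension `E` of `K`. -/
def StarkFor (b : Bool) (c : ℕ) (ι₂ : K →+* ℝ) (m : Ideal (𝓞 K)) (i : H →+* ℂ) : Prop :=
  ∃ (Z : Gal(H/K) → ℂ → ℂ) (ε : Gal(H/K) → (𝓞 H)ˣ),
    (∀ σ, IsPZ m σ (Z σ) ∧
      i ((ε σ : 𝓞 H) : H) = Complex.exp (-(2 * (c : ℂ)) * deriv (Z σ) 0)) ∧
    (∀ ρ σ, ρ ((ε σ : 𝓞 H) : H) = ((ε (ρ * σ) : 𝓞 H) : H)) ∧
    (∀ g : H →+* ℂ, (∀ x : K, g (algebraMap K H x) = ι₂ x) →
      ∀ σ, ‖g ((ε σ : 𝓞 H) : H)‖ = 1) ∧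
    (b = true → ∃ (E : Type) (_ : Field E) (_ : Algebra K E) (_ : Algebra H E)
      (_ : IsScalarTower K H E), IsAbelianGalois K E ∧
        ∀ σ, ∃ y : E, y ^ 2 = algebraMap H E ((ε σ : 𝓞 H) : H))

/-- `H` is contained in the ray class field of modulus `m^j ∞₂` for some `j`. -/
def InTower (ι₁ ι₂ : K →+* ℝ) (m : Ideal (𝓞 K)) (i : H →+* ℂ) : Prop :=
  ∃ j : ℕ, InRay ι₁ ι₂ (m ^ j) i

end

section

variable {K : Type} [Field K] [NumberField K]

/-- The conjecture for all abelian extensions `H/K` in the ray class fields of the moduli `m^j ∞₂`,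
with `S` = the prime factors of `M` and the infinite places. -/
def StarkS (b : Bool) (ι₁ ι₂ : K →+* ℝ) (m M : Ideal (𝓞 K)) : Prop :=
  ∀ (H : Type) [Field H] [NumberField H] [Algebra K H] [IsAbelianGalois K H] (i : H →+* ℂ),
    InTower ι₁ ι₂ m i → StarkFor b 1 ι₂ M i

/-- The set of the nonzero primes `q` of `K` with `P q` has lower (logarithmic) Dirichlet density at
least `1/2`: `∑ N(q)^(-s) ≥ 1/2 log (1 / (s - 1)) - C` for `1 < s < 2`. (The sums converge, and the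
sum over all primes is `log (1 / (s - 1)) + O(1)`.) -/
def Large (P : Ideal (𝓞 K) → Prop) : Prop :=
  ∃ C : ℝ, ∀ s : ℝ, 1 < s → s < 2 → 1 / 2 * Real.log (1 / (s - 1)) - C ≤
    ∑' q : {q : Ideal (𝓞 K) // (q.IsPrime ∧ q ≠ ⊥) ∧ P q},
      (Ideal.absNorm (q : Ideal (𝓞 K)) : ℝ) ^ (-s)

/-- The set of the nonzero primes `q` of `K` with `P q` has upper (logarithmic) Dirichlet density
less than `1/2`: `∑ N(q)^(-s) ≤ c log (1 / (s - 1)) + C` for `1 < s < 2`, with `c < 1/2`. -/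
def Small (P : Ideal (𝓞 K) → Prop) : Prop :=
  ∃ c C : ℝ, c < 1 / 2 ∧ ∀ s : ℝ, 1 < s → s < 2 →
    ∑' q : {q : Ideal (𝓞 K) // (q.IsPrime ∧ q ≠ ⊥) ∧ P q},
      (Ideal.absNorm (q : Ideal (𝓞 K)) : ℝ) ^ (-s) ≤ c * Real.log (1 / (s - 1)) + C

end

end Pool.Agent.SLow
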