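import Pool.Agent.SLow.Defs
import Pool.Agent.HeckeM.CoeffR
import Pool.Agent.CMR.RDens

/-!
# The primes whose Frobenius element is outside a proper subgroup have lower density `≥ 1/2`

`U < G = Gal(L/K)` proper, `E` = field fixed by `U`, `d = [E : K] = [G : U] ≥ 2`. Let `A` be the set
of the primes `q` of `K` prime to `m` with Frobenius element in `U` (unique as `q` is unramified,
`StarkU.isFrob_unique`): they split completely in `E`: over `q` there are `d ≥ 2` (we need only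
two different) primes of `E` of norm `N q` (`exists_two` in `CMG/SplitTriv.lean` (private): the
only input is that all primes of `E` over `q` have norm `N q`: for a prime `𝔔` of `L` over `q` the
Frobenius `φ` of `𝔔` is in `U`, so it is trivial on `E`: `x^{N q} ≡ x` modulo `𝔔 ∩ E` for all
integers `x` of `E`, so the residue field has at most `N q` elements). Copy the private lemmas of
`CMR/RDens.lean` (`swt`, `ZA`, `ZZ`, `za_split`, `zz_le_za`, `za_sq_le`, `zz_lim`, `zz_empty_lim`):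
`ZZ_T(s) ≤ ZA_{not in T}(s) ≤ ZA_A(s) ZA_B(s)`, `ZA_A(s)^2 ≤ ζ_E(s) ≤ C/(s-1)` and
`ZZ_T(s) ≥ c/(s-1)` for `1 < s < 2`, where `T` is a finite set of primes (those which are ramified
in `E` or divide `m`, `exists_two`), `B` = the primes not in `T`, prime to `m`, with Frobenius
outside `U`. So `ZA_B(s) ≥ c' (s-1)^(-1/2)`. Finally (new)
`ZA_B(s) ≤ exp(∑_{q ∈ B} N q^(-s) + C'')`: for finite sets `F` of primes
`∏_{q ∈ F} (1 - N q^(-s))^{-1} = exp(∑ -log(1 - N q^(-s))) ≤ exp(∑ (N q^(-s) + 2 N q^(-2s)))`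
(or `≤ exp(∑ N q^(-s) + 1/(N q (N q - 1)))`), and `∑_q N q^(-2) < ∞`.
-/

set_option autoImplicit false

noncomputable section

open NumberField Module Pool.Agent.StarkRQ Pool.Agent.StarkU Pool.Agent.HeckeM
open Filter Topology UniqueFactorizationMonoid
open scoped ENNReal Pointwise

namespace Pool.Agent.SLow

section

variable {K : Type} [Field K] [NumberField K]

/-- the summand of the zeta function -/
private def swt (s : ℝ) (I : Ideal (𝓞 K)) : ℝ≥0∞ := ENNReal.ofReal ((Ideal.absNorm I : ℝ) ^ (-s))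

private lemma swt_mul (s : ℝ) (I J : Ideal (𝓞 K)) : swt s (I * J) = swt s I * swt s J := by
  rw [swt, swt, swt, map_mul, Nat.cast_mul, Real.mul_rpow (Nat.cast_nonneg _) (Nat.cast_nonneg _),
    ENNReal.ofReal_mul (by positivity)]

open Classical in
/-- the sum over the nonzero ideals which are prime to `T` -/
private def ZZ (T : Finset (Ideal (𝓞 K))) (s : ℝ) : ℝ≥0∞ :=
  ∑' I : Ideal (𝓞 K), if I ≠ ⊥ ∧ ∀ p ∈ T, ¬ p ∣ I then swt s I else 0

variable (K) in
/-- the coefficients of the zeta function -/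
private def cf (s : ℝ) (n : ℕ) : ℝ :=
  if n = 0 then 0 else (Nat.card {I : Ideal (𝓞 K) // Ideal.absNorm I = n} : ℝ) * (n : ℝ) ^ (-s)

private lemma cf_nonneg (s : ℝ) (n : ℕ) : 0 ≤ cf K s n := by
  rw [cf]
  split_ifs
  · exact le_rfl
  · positivity

private lemma zz_empty (s : ℝ) : ZZ (∅ : Finset (Ideal (𝓞 K))) s =
    ∑' n : ℕ, ENNReal.ofReal (cf K s n) := by
  classical
  rw [ZZ, ← (Equiv.sigmaFiberEquiv (fun I : Ideal (𝓞 K) => Ideal.absNorm I)).tsum_eq,
    ENNReal.tsum_sigma']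
  refine tsum_congr fun n => ?_
  rw [cf]
  split_ifs with hn
  · rw [ENNReal.ofReal_zero, ENNReal.tsum_eq_zero]
    rintro ⟨I, hI⟩
    have h1 : I = ⊥ := Ideal.absNorm_eq_zero_iff.1 (hI.trans hn)
    simp [Equiv.sigmaFiberEquiv, h1]
  · have hfin : Finite {I : Ideal (𝓞 K) // Ideal.absNorm I = n} :=
      Ideal.finite_setOfPred_absNorm_eq n
    have h2 : ∀ I : {I : Ideal (𝓞 K) // Ideal.absNorm I = n},
        (if (Equiv.sigmaFiberEquiv (fun I : Ideal (𝓞 K) => Ideal.absNorm I) ⟨n, I⟩) ≠ ⊥ ∧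
          ∀ p ∈ (∅ : Finset (Ideal (𝓞 K))),
            ¬ p ∣ (Equiv.sigmaFiberEquiv (fun I : Ideal (𝓞 K) => Ideal.absNorm I) ⟨n, I⟩)
        then swt s (Equiv.sigmaFiberEquiv (fun I : Ideal (𝓞 K) => Ideal.absNorm I) ⟨n, I⟩)
        else 0) = ENNReal.ofReal ((n : ℝ) ^ (-s)) := by
      rintro ⟨I, hI⟩
      have h1 : I ≠ ⊥ := by
        rintro rfl
        rw [Ideal.absNorm_bot] at hI
        exact hn hI.symm
      simp [Equiv.sigmaFiberEquiv, h1, swt, hI]
    rw [tsum_congr h2]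
    have := Fintype.ofFinite {I : Ideal (𝓞 K) // Ideal.absNorm I = n}
    rw [tsum_fintype, Finset.sum_const, Finset.card_univ, nsmul_eq_mul, Nat.card_eq_fintype_card,
      ENNReal.ofReal_mul (Nat.cast_nonneg _), ENNReal.ofReal_natCast]

private lemma zeta_eq_tsum (s : ℝ) :
    dedekindZeta K s = ((∑' n : ℕ, cf K s n : ℝ) : ℂ) := by
  rw [dedekindZeta, LSeries, Complex.ofReal_tsum]
  refine tsum_congr fun n => ?_
  rw [LSeries.term_def, cf]
  split_ifs with hn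
  · simp
  · rw [Complex.ofReal_mul, Complex.ofReal_cpow (Nat.cast_nonneg n), Complex.ofReal_neg,
      Complex.ofReal_natCast, Complex.ofReal_natCast, Complex.cpow_neg, div_eq_mul_inv]

/-- the pole -/
private lemma zz_empty_lim : ∃ κ : ℝ, 0 < κ ∧
    (∀ᶠ s in 𝓝[>] (1 : ℝ), ZZ (∅ : Finset (Ideal (𝓞 K))) s ≠ ⊤) ∧
    Tendsto (fun s : ℝ => (s - 1) * (ZZ (∅ : Finset (Ideal (𝓞 K))) s).toReal) (𝓝[>] 1) (𝓝 κ) := by
  have h1 := tendsto_sub_one_mul_dedekindZeta_nhdsGT K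
  have h2 : Tendsto (fun s : ℝ => (s - 1) * ∑' n : ℕ, cf K s n) (𝓝[>] 1)
      (𝓝 (dedekindZeta_residue K)) := by
    have h3 := (Complex.continuous_re.tendsto _).comp h1
    refine (h3.congr fun s => ?_)
    rw [Function.comp_apply, zeta_eq_tsum, ← Complex.ofReal_one, ← Complex.ofReal_sub,
      ← Complex.ofReal_mul, Complex.ofReal_re]
  have h3 : ∀ᶠ s in 𝓝[>] (1 : ℝ), Summable (cf K s) := by
    filter_upwards [h2.eventually (eventually_gt_nhds (dedekindZeta_residue_pos K))] with s hs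
    by_contra h
    rw [tsum_eq_zero_of_not_summable h, mul_zero] at hs
    exact lt_irrefl _ hs
  refine ⟨dedekindZeta_residue K, dedekindZeta_residue_pos K, ?_, ?_⟩
  · filter_upwards [h3] with s hs
    rw [zz_empty, ← ENNReal.ofReal_tsum_of_nonneg (cf_nonneg s) hs]
    exact ENNReal.ofReal_ne_top
  · refine h2.congr' ?_
    filter_upwards [h3] with s hs
    rw [zz_empty, ← ENNReal.ofReal_tsum_of_nonneg (cf_nonneg s) hs,
      ENNReal.toReal_ofReal (tsum_nonneg (cf_nonneg s))]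

/-- one more prime -/
private lemma zz_insert {T : Finset (Ideal (𝓞 K))} (hT : ∀ p ∈ T, Prime p) {q : Ideal (𝓞 K)}
    (hq : Prime q) (hqT : q ∉ T) (s : ℝ) :
    ZZ T s = ZZ (insert q T) s + swt s q * ZZ T s := by
  classical
  conv_lhs => rw [ZZ]
  conv_rhs => rw [ZZ, ZZ]
  have h1 : ∀ I : Ideal (𝓞 K), (if I ≠ ⊥ ∧ ∀ p ∈ T, ¬ p ∣ I then swt s I else 0) =
      (if I ≠ ⊥ ∧ ∀ p ∈ insert q T, ¬ p ∣ I then swt s I else 0) +
        (if (I ≠ ⊥ ∧ ∀ p ∈ T, ¬ p ∣ I) ∧ q ∣ I then swt s I else 0) := by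
    intro I
    by_cases h2 : I ≠ ⊥ ∧ ∀ p ∈ T, ¬ p ∣ I
    · by_cases h3 : q ∣ I
      · rw [if_pos h2, if_neg, if_pos ⟨h2, h3⟩, zero_add]
        intro h4
        exact h4.2 q (Finset.mem_insert_self q T) h3
      · rw [if_pos h2, if_pos, if_neg fun h4 => h3 h4.2, add_zero]
        refine ⟨h2.1, fun p hp => ?_⟩
        rcases Finset.mem_insert.1 hp with rfl | hp
        · exact h3
        · exact h2.2 p hp
    · rw [if_neg h2, if_neg, if_neg fun h4 => h2 h4.1, add_zero]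
      intro h4
      exact h2 ⟨h4.1, fun p hp => h4.2 p (Finset.mem_insert_of_mem hp)⟩
  conv_lhs => rw [tsum_congr h1, ENNReal.tsum_add]
  congr 1
  rw [← ENNReal.tsum_mul_left]
  have hinj : Function.Injective fun J : Ideal (𝓞 K) => q * J := fun I J h =>
    mul_left_cancel₀ hq.ne_zero h
  rw [← hinj.tsum_eq]
  · refine tsum_congr fun J => ?_
    have h2 : ((q * J ≠ ⊥ ∧ ∀ p ∈ T, ¬ p ∣ q * J) ∧ q ∣ q * J) ↔ (J ≠ ⊥ ∧ ∀ p ∈ T, ¬ p ∣ J) := by
      constructor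
      · rintro ⟨⟨h3, h4⟩, -⟩
        refine ⟨?_, fun p hp h5 => h4 p hp (h5.mul_left q)⟩
        rintro rfl
        apply h3
        rw [← Ideal.zero_eq_bot, mul_zero]
      · rintro ⟨h3, h4⟩
        refine ⟨⟨?_, fun p hp h5 => ?_⟩, dvd_mul_right q J⟩
        · rw [← Ideal.zero_eq_bot] at h3 ⊢
          exact mul_ne_zero hq.ne_zero h3
        · rcases (hT p hp).dvd_or_dvd h5 with h6 | h6
          · apply hqT
            have h7 := ((hT p hp).dvd_prime_iff_associated hq).1 h6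
            rw [← associated_iff_eq.1 h7]
            exact hp
          · exact h4 p hp h6
    simp only [h2]
    split_ifs
    · rw [swt_mul]
    · rw [mul_zero]
  · intro I hI
    rw [Function.mem_support] at hI
    have h2 : (I ≠ ⊥ ∧ ∀ p ∈ T, ¬ p ∣ I) ∧ q ∣ I := by
      by_contra h3
      rw [if_neg h3] at hI
      exact hI rfl
    obtain ⟨J, rfl⟩ := h2.2
    exact ⟨J, rfl⟩

private lemma zz_lim (T : Finset (Ideal (𝓞 K))) (hT : ∀ p ∈ T, Prime p) : ∃ κ : ℝ, 0 < κ ∧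
    (∀ᶠ s in 𝓝[>] (1 : ℝ), ZZ T s ≠ ⊤) ∧
    Tendsto (fun s : ℝ => (s - 1) * (ZZ T s).toReal) (𝓝[>] 1) (𝓝 κ) := by
  classical
  induction T using Finset.induction_on with
  | empty => exact zz_empty_lim
  | insert q T hqT ih =>
    obtain ⟨κ, hκ, h1, h2⟩ := ih fun p hp => hT p (Finset.mem_insert_of_mem hp)
    have hq := hT q (Finset.mem_insert_self q T)
    have hT' : ∀ p ∈ T, Prime p := fun p hp => hT p (Finset.mem_insert_of_mem hp)
    have hN : (1 : ℝ) < (Ideal.absNorm q : ℝ) := by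
      have h3 : Ideal.absNorm q ≠ 0 := fun h => hq.ne_zero (Ideal.absNorm_eq_zero_iff.1 h)
      have h4 : Ideal.absNorm q ≠ 1 := fun h => hq.not_isUnit (by
        rw [Ideal.isUnit_iff]
        exact Ideal.absNorm_eq_one_iff.1 h)
      exact_mod_cast (by omega : 1 < Ideal.absNorm q)
    have hlt : ((Ideal.absNorm q : ℝ)) ^ (-(1 : ℝ)) < 1 :=
      Real.rpow_lt_one_of_one_lt_of_neg hN (by norm_num)
    refine ⟨κ * (1 - (Ideal.absNorm q : ℝ) ^ (-(1 : ℝ))), mul_pos hκ (sub_pos.2 hlt), ?_, ?_⟩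
    · filter_upwards [h1] with s hs
      intro h3
      apply hs
      rw [zz_insert hT' hq hqT, h3, top_add]
    · have h3 : Tendsto (fun s : ℝ => 1 - (Ideal.absNorm q : ℝ) ^ (-s)) (𝓝[>] 1)
          (𝓝 (1 - (Ideal.absNorm q : ℝ) ^ (-(1 : ℝ)))) := by
        apply Tendsto.mono_left _ nhdsWithin_le_nhds
        apply ContinuousAt.tendsto (f := fun s : ℝ => 1 - (Ideal.absNorm q : ℝ) ^ (-s))
        have : ContinuousAt (fun s : ℝ => (Ideal.absNorm q : ℝ) ^ (-s)) 1 :=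
          (Real.continuousAt_const_rpow (by linarith)).comp continuousAt_neg
        exact continuousAt_const.sub this
      refine (h2.mul h3).congr' ?_
      filter_upwards [h1] with s hs
      have h4 := zz_insert hT' hq hqT s
      have h5 : ZZ (insert q T) s ≠ ⊤ := fun h => hs (by rw [h4, h, top_add])
      have h6 : swt s q * ZZ T s ≠ ⊤ := ENNReal.mul_ne_top ENNReal.ofReal_ne_top hs
      have h7 := congrArg ENNReal.toReal h4
      rw [ENNReal.toReal_add h5 h6, ENNReal.toReal_mul, swt,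
        ENNReal.toReal_ofReal (by positivity)] at h7
      have h8 : (ZZ (insert q T) s).toReal =
          (ZZ T s).toReal * (1 - (Ideal.absNorm q : ℝ) ^ (-s)) := by
        rw [mul_sub, mul_one]
        nth_rw 1 [h7]
        ring
      rw [h8]
      ring

/-! ### Sums over ideals whose prime factors have a given property -/

/-- the sum over the ideals whose prime factors satisfy `A` -/
private def ZA (A : Ideal (𝓞 K) → Prop) (s : ℝ) : ℝ≥0∞ :=
  ∑' I : {I : Ideal (𝓞 K) // I ≠ ⊥ ∧ ∀ p ∈ normalizedFactors I, A p}, swt s I.1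

private lemma za_nf {m : Multiset (Ideal (𝓞 K))} (hm : ∀ p ∈ m, Prime p) :
    m.prod ≠ ⊥ ∧ normalizedFactors m.prod = m := by
  refine ⟨?_, normalizedFactors_prod_of_prime hm⟩
  intro h0
  have h1 : (0 : Ideal (𝓞 K)) ∈ m := Multiset.prod_eq_zero_iff.1 h0
  exact (hm 0 h1).ne_zero rfl

private lemma za_mono {A A' : Ideal (𝓞 K) → Prop} (h : ∀ p, Prime p → A p → A' p) (s : ℝ) :
    ZA A s ≤ ZA A' s := by
  let e : {I : Ideal (𝓞 K) // I ≠ ⊥ ∧ ∀ p ∈ normalizedFactors I, A p} →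
      {I : Ideal (𝓞 K) // I ≠ ⊥ ∧ ∀ p ∈ normalizedFactors I, A' p} := fun I =>
    ⟨I.1, I.2.1, fun p hp => h p (prime_of_normalized_factor p hp) (I.2.2 p hp)⟩
  have he : Function.Injective e := by
    intro I J hIJ
    have h1 : (e I).1 = (e J).1 := congrArg Subtype.val hIJ
    exact Subtype.ext h1
  exact ENNReal.tsum_comp_le_tsum_of_injective he fun I => swt s I.1

private lemma za_split (A B : Ideal (𝓞 K) → Prop) (s : ℝ) :
    ZA A s ≤ ZA (fun p => A p ∧ B p) s * ZA (fun p => A p ∧ ¬ B p) s := by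
  classical
  have h1 : ∀ I : Ideal (𝓞 K), ∀ p ∈ (normalizedFactors I).filter B, Prime p := fun I p hp =>
    prime_of_normalized_factor p (Multiset.mem_of_mem_filter hp)
  have h2 : ∀ I : Ideal (𝓞 K), ∀ p ∈ (normalizedFactors I).filter (fun p => ¬ B p), Prime p :=
    fun I p hp => prime_of_normalized_factor p (Multiset.mem_of_mem_filter hp)
  let F : {I : Ideal (𝓞 K) // I ≠ ⊥ ∧ ∀ p ∈ normalizedFactors I, A p} →
      {I : Ideal (𝓞 K) // I ≠ ⊥ ∧ ∀ p ∈ normalizedFactors I, A p ∧ B p} ×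
      {I : Ideal (𝓞 K) // I ≠ ⊥ ∧ ∀ p ∈ normalizedFactors I, A p ∧ ¬ B p} := fun I =>
    (⟨((normalizedFactors I.1).filter B).prod, (za_nf (h1 I.1)).1, fun p hp => by
      rw [(za_nf (h1 I.1)).2] at hp
      exact ⟨I.2.2 p (Multiset.mem_filter.1 hp).1, (Multiset.mem_filter.1 hp).2⟩⟩,
    ⟨((normalizedFactors I.1).filter (fun p => ¬ B p)).prod, (za_nf (h2 I.1)).1, fun p hp => by
      rw [(za_nf (h2 I.1)).2] at hp
      exact ⟨I.2.2 p (Multiset.mem_filter.1 hp).1, (Multiset.mem_filter.1 hp).2⟩⟩)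
  have hF : ∀ I, (F I).1.1 * (F I).2.1 = I.1 := by
    intro I
    show ((normalizedFactors I.1).filter B).prod *
      ((normalizedFactors I.1).filter (fun p => ¬ B p)).prod = I.1
    rw [← Multiset.prod_add, Multiset.filter_add_not, Ideal.prod_normalizedFactors_eq_self I.2.1]
  have hinj : Function.Injective F := by
    intro I J h
    apply Subtype.ext
    rw [← hF I, ← hF J, h]
  have h3 : ZA A s = ∑' I : {I : Ideal (𝓞 K) // I ≠ ⊥ ∧ ∀ p ∈ normalizedFactors I, A p},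
      swt s (F I).1.1 * swt s (F I).2.1 := by
    rw [ZA]
    refine tsum_congr fun I => ?_
    rw [← swt_mul, hF]
  rw [h3, ZA, ZA, ← ENNReal.tsum_mul_right]
  simp only [← ENNReal.tsum_mul_left]
  rw [← ENNReal.tsum_prod (f := fun (I : {I : Ideal (𝓞 K) // I ≠ ⊥ ∧ ∀ p ∈ normalizedFactors I,
    A p ∧ B p}) (J : {I : Ideal (𝓞 K) // I ≠ ⊥ ∧ ∀ p ∈ normalizedFactors I, A p ∧ ¬ B p}) =>
    swt s I.1 * swt s J.1)]
  exact ENNReal.tsum_comp_le_tsum_of_injective hinj fun x => swt s x.1.1 * swt s x.2.1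

private lemma zz_le_za (T : Finset (Ideal (𝓞 K))) (s : ℝ) : ZZ T s ≤ ZA (fun p => p ∉ T) s := by
  classical
  have hsub : ZZ T s = ∑' I : {I : Ideal (𝓞 K) // I ≠ ⊥ ∧ ∀ p ∈ T, ¬ p ∣ I}, swt s I.1 := by
    rw [ZZ]
    have h1 := tsum_subtype {I : Ideal (𝓞 K) | I ≠ ⊥ ∧ ∀ p ∈ T, ¬ p ∣ I} (swt s)
    refine Eq.trans ?_ h1.symm
    refine tsum_congr fun I => ?_
    rw [Set.indicator_apply]
    rfl
  rw [hsub]
  let e : {I : Ideal (𝓞 K) // I ≠ ⊥ ∧ ∀ p ∈ T, ¬ p ∣ I} →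
      {I : Ideal (𝓞 K) // I ≠ ⊥ ∧ ∀ p ∈ normalizedFactors I, p ∉ T} := fun I =>
    ⟨I.1, I.2.1, fun p hp hpT => I.2.2 p hpT (dvd_of_mem_normalizedFactors hp)⟩
  have he : Function.Injective e := by
    intro I J hIJ
    have h1 : (e I).1 = (e J).1 := congrArg Subtype.val hIJ
    exact Subtype.ext h1
  exact ENNReal.tsum_comp_le_tsum_of_injective he fun I => swt s I.1

private lemma one_le_norm {I : Ideal (𝓞 K)} (hI : I ≠ ⊥) : (1 : ℝ) ≤ (Ideal.absNorm I : ℝ) := by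
  have h3 : Ideal.absNorm I ≠ 0 := fun h => hI (Ideal.absNorm_eq_zero_iff.1 h)
  exact_mod_cast (by omega : 1 ≤ Ideal.absNorm I)

private lemma swt_anti {s t : ℝ} (h : s ≤ t) {I : Ideal (𝓞 K)} (hI : I ≠ ⊥) :
    swt t I ≤ swt s I :=
  ENNReal.ofReal_le_ofReal (Real.rpow_le_rpow_of_exponent_le (one_le_norm hI) (by linarith))

private lemma zz_anti (T : Finset (Ideal (𝓞 K))) {s t : ℝ} (h : s ≤ t) : ZZ T t ≤ ZZ T s := by
  classical
  unfold ZZ
  refine ENNReal.tsum_le_tsum fun I => ?_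
  split_ifs with h1
  · exact swt_anti h h1.1
  · exact le_rfl

private lemma zz_ne_top {s : ℝ} (hs : 1 < s) : ZZ (∅ : Finset (Ideal (𝓞 K))) s ≠ ⊤ := by
  obtain ⟨κ, -, h1, -⟩ := zz_empty_lim (K := K)
  have h2 : ∀ᶠ t in 𝓝[>] (1 : ℝ), t < s :=
    (eventually_lt_nhds hs).filter_mono nhdsWithin_le_nhds
  obtain ⟨t, ht1, ht2⟩ := (h1.and h2).exists
  exact ne_top_of_le_ne_top ht1 (zz_anti _ ht2.le)

private lemma zz_le_zz (T : Finset (Ideal (𝓞 K))) (s : ℝ) :
    ZZ T s ≤ ZZ (∅ : Finset (Ideal (𝓞 K))) s := by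
  classical
  unfold ZZ
  refine ENNReal.tsum_le_tsum fun I => ?_
  split_ifs with h1 h2
  · exact le_rfl
  · exact absurd ⟨h1.1, fun p hp => absurd hp (Finset.notMem_empty p)⟩ h2
  · exact zero_le
  · exact le_rfl

private lemma swt_one (s : ℝ) : swt s (1 : Ideal (𝓞 K)) = 1 := by
  rw [swt, map_one, Nat.cast_one, Real.one_rpow, ENNReal.ofReal_one]

private lemma swt_pow (s : ℝ) (q : Ideal (𝓞 K)) (k : ℕ) : swt s (q ^ k) = swt s q ^ k := by
  induction k with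
  | zero => rw [pow_zero, pow_zero, swt_one]
  | succ k ih => rw [pow_succ, pow_succ, swt_mul, ih]

private lemma one_le_zz {T : Finset (Ideal (𝓞 K))} (hT : ∀ p ∈ T, Prime p) (s : ℝ) :
    1 ≤ ZZ T s := by
  classical
  have h1 : (if (1 : Ideal (𝓞 K)) ≠ ⊥ ∧ ∀ p ∈ T, ¬ p ∣ 1 then swt s (1 : Ideal (𝓞 K)) else 0) =
      1 := by
    rw [if_pos, swt_one]
    refine ⟨?_, fun p hp h => (hT p hp).not_isUnit (isUnit_of_dvd_one h)⟩
    rw [← Ideal.zero_eq_bot]
    exact one_ne_zero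
  rw [← h1]
  unfold ZZ
  exact ENNReal.le_tsum (f := fun I : Ideal (𝓞 K) =>
    if I ≠ ⊥ ∧ ∀ p ∈ T, ¬ p ∣ I then swt s I else 0) 1

private lemma zz_lower {T : Finset (Ideal (𝓞 K))} (hT : ∀ p ∈ T, Prime p) :
    ∃ c : ℝ, 0 < c ∧ ∀ s : ℝ, 1 < s → c ≤ (s - 1) * (ZZ T s).toReal := by
  obtain ⟨κ, hκ, -, h2⟩ := zz_lim T hT
  have h3 := h2.eventually (lt_mem_nhds (half_lt_self hκ))
  obtain ⟨u, hu, h4⟩ := mem_nhdsGT_iff_exists_Ioo_subset.1 h3
  have hu1 : (1 : ℝ) < u := hu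
  refine ⟨min (κ / 2) (u - 1), lt_min (by linarith) (by linarith), fun s hs => ?_⟩
  by_cases hsu : s < u
  · exact (min_le_left _ _).trans (le_of_lt (h4 ⟨hs, hsu⟩))
  · refine (min_le_right _ _).trans ?_
    have h5 : 1 ≤ (ZZ T s).toReal := by
      have h6 := ENNReal.toReal_mono (ne_top_of_le_ne_top (zz_ne_top hs) (zz_le_zz T s))
        (one_le_zz hT s)
      rwa [ENNReal.toReal_one] at h6
    nlinarith

variable (K) in
private lemma zz_upper : ∃ C : ℝ, 0 < C ∧ ∀ s : ℝ, 1 < s → s < 2 →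
    (s - 1) * (ZZ (∅ : Finset (Ideal (𝓞 K))) s).toReal ≤ C := by
  obtain ⟨κ, hκ, -, h2⟩ := zz_empty_lim (K := K)
  have h3 := h2.eventually (gt_mem_nhds (lt_add_one κ))
  obtain ⟨u, hu, h4⟩ := mem_nhdsGT_iff_exists_Ioo_subset.1 h3
  have hu1 : (1 : ℝ) < u := hu
  refine ⟨max (κ + 1) (ZZ (∅ : Finset (Ideal (𝓞 K))) u).toReal,
    lt_max_of_lt_left (by linarith), fun s hs hs2 => ?_⟩
  by_cases hsu : s < u
  · exact (le_of_lt (h4 ⟨hs, hsu⟩)).trans (le_max_left _ _)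
  · refine le_trans ?_ (le_max_right _ _)
    have h5 : (ZZ (∅ : Finset (Ideal (𝓞 K))) s).toReal ≤
        (ZZ (∅ : Finset (Ideal (𝓞 K))) u).toReal :=
      ENNReal.toReal_mono (zz_ne_top hu1) (zz_anti _ (not_lt.1 hsu))
    have h6 : 0 ≤ (ZZ (∅ : Finset (Ideal (𝓞 K))) s).toReal := ENNReal.toReal_nonneg
    nlinarith

private lemma two_le_norm {q : Ideal (𝓞 K)} (hq : Prime q) : (2 : ℝ) ≤ (Ideal.absNorm q : ℝ) := by
  have h3 : Ideal.absNorm q ≠ 0 := fun h => hq.ne_zero (Ideal.absNorm_eq_zero_iff.1 h)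
  have h4 : Ideal.absNorm q ≠ 1 := fun h => hq.not_isUnit (by
    rw [Ideal.isUnit_iff]
    exact Ideal.absNorm_eq_one_iff.1 h)
  exact_mod_cast (by omega : 2 ≤ Ideal.absNorm q)

/-- the exponent -/
private def ex (s : ℝ) (q : Ideal (𝓞 K)) : ℝ :=
  (Ideal.absNorm q : ℝ) ^ (-s) + 2 * (Ideal.absNorm q : ℝ) ^ (-(2 : ℝ))

private lemma za_single {q : Ideal (𝓞 K)} (hq : Prime q) {s : ℝ} (hs : 1 < s) :
    ZA (fun p => p = q) s ≤ ENNReal.ofReal (Real.exp (ex s q)) := by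
  have h1 : ∀ I : {I : Ideal (𝓞 K) // I ≠ ⊥ ∧ ∀ p ∈ normalizedFactors I, p = q},
      I.1 = q ^ Multiset.card (normalizedFactors I.1) := by
    intro I
    have h2 : normalizedFactors I.1 =
        Multiset.replicate (Multiset.card (normalizedFactors I.1)) q :=
      Multiset.eq_replicate.2 ⟨rfl, I.2.2⟩
    conv_lhs => rw [← Ideal.prod_normalizedFactors_eq_self I.2.1, h2, Multiset.prod_replicate]
  have hinj : Function.Injective
      fun I : {I : Ideal (𝓞 K) // I ≠ ⊥ ∧ ∀ p ∈ normalizedFactors I, p = q} =>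
        Multiset.card (normalizedFactors I.1) := by
    intro I J h
    apply Subtype.ext
    rw [h1 I, h1 J]
    exact congrArg _ h
  have h3 : ZA (fun p => p = q) s ≤ ∑' k : ℕ, swt s q ^ k := by
    refine le_trans (le_of_eq ?_) (ENNReal.tsum_comp_le_tsum_of_injective hinj
      fun k => swt s q ^ k)
    rw [ZA]
    refine tsum_congr fun I => ?_
    conv_lhs => rw [h1 I]
    exact swt_pow s q _
  refine h3.trans ?_
  have hN := two_le_norm hq
  have hx0 : 0 < (Ideal.absNorm q : ℝ) ^ (-s) := Real.rpow_pos_of_pos (by linarith) _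
  have hx : (Ideal.absNorm q : ℝ) ^ (-s) ≤ 1 / 2 := by
    calc (Ideal.absNorm q : ℝ) ^ (-s) ≤ (Ideal.absNorm q : ℝ) ^ (-(1 : ℝ)) :=
          Real.rpow_le_rpow_of_exponent_le (by linarith) (by linarith)
      _ = (Ideal.absNorm q : ℝ)⁻¹ := Real.rpow_neg_one _
      _ ≤ 1 / 2 := by
          rw [one_div]
          exact inv_anti₀ (by norm_num) hN
  have hx2 : ((Ideal.absNorm q : ℝ) ^ (-s)) ^ 2 ≤ (Ideal.absNorm q : ℝ) ^ (-(2 : ℝ)) := by
    rw [← Real.rpow_natCast, ← Real.rpow_mul (by linarith)]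
    refine Real.rpow_le_rpow_of_exponent_le (by linarith) ?_
    push_cast
    linarith
  have h4 : (1 - swt s q)⁻¹ = ENNReal.ofReal ((1 - (Ideal.absNorm q : ℝ) ^ (-s))⁻¹) := by
    rw [swt, ← ENNReal.ofReal_one, ← ENNReal.ofReal_sub _ hx0.le,
      ENNReal.ofReal_inv_of_pos (by linarith)]
  rw [ENNReal.tsum_geometric, h4]
  refine ENNReal.ofReal_le_ofReal ?_
  obtain ⟨x, hxdef⟩ : ∃ x : ℝ, x = (Ideal.absNorm q : ℝ) ^ (-s) := ⟨_, rfl⟩
  unfold ex
  rw [← hxdef] at hx0 hx hx2 ⊢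
  have h5 : (1 - x)⁻¹ ≤ 1 + (x + 2 * x ^ 2) := by
    rw [inv_le_iff_one_le_mul₀ (by linarith)]
    nlinarith [mul_nonneg hx0.le (sub_nonneg.2 hx), mul_nonneg (mul_nonneg hx0.le hx0.le)
      (sub_nonneg.2 hx)]
  calc (1 - x)⁻¹ ≤ (x + 2 * x ^ 2) + 1 := by linarith
    _ ≤ Real.exp (x + 2 * x ^ 2) := Real.add_one_le_exp _
    _ ≤ _ := Real.exp_le_exp.2 (by linarith)

private lemma za_finset {s : ℝ} (hs : 1 < s) (F : Finset (Ideal (𝓞 K))) :
    (∀ q ∈ F, Prime q) →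
    ZA (fun q => q ∈ F) s ≤ ENNReal.ofReal (Real.exp (∑ q ∈ F, ex s q)) := by
  classical
  induction F using Finset.induction_on with
  | empty =>
    intro _
    rw [Finset.sum_empty, Real.exp_zero, ENNReal.ofReal_one]
    have h1 : ∀ I : {I : Ideal (𝓞 K) // I ≠ ⊥ ∧ ∀ q ∈ normalizedFactors I,
        q ∈ (∅ : Finset (Ideal (𝓞 K)))}, I.1 = 1 := by
      intro I
      have h2 : normalizedFactors I.1 = 0 := by
        rw [Multiset.eq_zero_iff_forall_notMem]
        intro q hq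
        exact absurd (I.2.2 q hq) (Finset.notMem_empty q)
      rw [← Ideal.prod_normalizedFactors_eq_self I.2.1, h2, Multiset.prod_zero]
    have hinj : Function.Injective fun _ : {I : Ideal (𝓞 K) // I ≠ ⊥ ∧
        ∀ q ∈ normalizedFactors I, q ∈ (∅ : Finset (Ideal (𝓞 K)))} => () :=
      fun I J _ => Subtype.ext ((h1 I).trans (h1 J).symm)
    have h3 := ENNReal.tsum_comp_le_tsum_of_injective hinj (fun _ => (1 : ℝ≥0∞))
    rw [tsum_fintype (fun _ : Unit => (1 : ℝ≥0∞))] at h3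
    refine le_trans (le_of_eq ?_) (h3.trans (le_of_eq (by simp)))
    rw [ZA]
    refine tsum_congr fun I => ?_
    rw [h1 I, swt_one]
  | insert q F hq ih =>
    intro hF
    rw [Finset.sum_insert hq, Real.exp_add, ENNReal.ofReal_mul (Real.exp_nonneg _)]
    refine (za_split (fun p => p ∈ insert q F) (fun p => p = q) s).trans (mul_le_mul' ?_ ?_)
    · exact (za_mono (fun _ _ h => h.2) s).trans (za_single (hF q (Finset.mem_insert_self q F)) hs)
    · exact (za_mono (fun p _ h => (Finset.mem_insert.1 h.1).resolve_left h.2) s).trans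
        (ih fun p hp => hF p (Finset.mem_insert_of_mem hp))

private lemma za_le_exp {B : Ideal (𝓞 K) → Prop} {s X : ℝ} (hs : 1 < s)
    (hX : ∀ F : Finset (Ideal (𝓞 K)), (∀ q ∈ F, Prime q ∧ B q) → ∑ q ∈ F, ex s q ≤ X) :
    ZA B s ≤ ENNReal.ofReal (Real.exp X) := by
  classical
  rw [ZA, ENNReal.tsum_eq_iSup_sum]
  refine iSup_le fun t => ?_
  let F : Finset (Ideal (𝓞 K)) := t.biUnion fun I => (normalizedFactors I.1).toFinset
  have hF : ∀ q ∈ F, Prime q ∧ B q := by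
    intro q hq
    obtain ⟨I, -, hI⟩ := Finset.mem_biUnion.1 hq
    rw [Multiset.mem_toFinset] at hI
    exact ⟨prime_of_normalized_factor q hI, I.2.2 q hI⟩
  let e : {I // I ∈ t} → {I : Ideal (𝓞 K) // I ≠ ⊥ ∧ ∀ p ∈ normalizedFactors I, p ∈ F} :=
    fun I => ⟨I.1.1, I.1.2.1, fun p hp =>
      Finset.mem_biUnion.2 ⟨I.1, I.2, Multiset.mem_toFinset.2 hp⟩⟩
  have he : Function.Injective e := by
    intro I J hIJ
    have h1 : (e I).1 = (e J).1 := congrArg Subtype.val hIJ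
    exact Subtype.ext (Subtype.ext h1)
  have h1 : ∑ I ∈ t, swt s I.1 ≤ ZA (fun q => q ∈ F) s := by
    rw [← Finset.tsum_subtype t fun I => swt s I.1]
    exact ENNReal.tsum_comp_le_tsum_of_injective he fun I => swt s I.1
  refine h1.trans ((za_finset hs F fun q hq => (hF q hq).1).trans ?_)
  exact ENNReal.ofReal_le_ofReal (Real.exp_le_exp.2 (hX F hF))

omit [NumberField K] in
private lemma sum_le_tsum_sub {P : Ideal (𝓞 K) → Prop} {f : Ideal (𝓞 K) → ℝ} (h0 : ∀ q, 0 ≤ f q)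
    (hf : Summable fun q : {q // P q} => f q) (F : Finset (Ideal (𝓞 K))) (hF : ∀ q ∈ F, P q) :
    ∑ q ∈ F, f q ≤ ∑' q : {q // P q}, f q := by
  classical
  rw [← Finset.sum_subtype_of_mem f hF]
  exact hf.sum_le_tsum _ fun q _ => h0 q

end

section

variable {M M' : Type} [Field M] [NumberField M] [Field M'] [NumberField M'] [Algebra M M']

/-- an injective map from pairs of ideals of `M` to ideals of `M'` -/
private lemma za_sq_le {A : Ideal (𝓞 M) → Prop} {q₁ q₂ : Ideal (𝓞 M) → Ideal (𝓞 M')}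
    (hq₁ : ∀ p, Prime p → A p → Prime (q₁ p) ∧ (q₁ p).comap (algebraMap (𝓞 M) (𝓞 M')) = p ∧
      Ideal.absNorm (q₁ p) = Ideal.absNorm p)
    (hq₂ : ∀ p, Prime p → A p → Prime (q₂ p) ∧ (q₂ p).comap (algebraMap (𝓞 M) (𝓞 M')) = p ∧
      Ideal.absNorm (q₂ p) = Ideal.absNorm p)
    (hne : ∀ p, Prime p → A p → q₁ p ≠ q₂ p) (s : ℝ) :
    ZA A s * ZA A s ≤ ZZ (∅ : Finset (Ideal (𝓞 M'))) s := by
  classical
  have hmem : ∀ I : Ideal (𝓞 M), (I ≠ ⊥ ∧ ∀ p ∈ normalizedFactors I, A p) →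
      ∀ p ∈ normalizedFactors I, Prime p ∧ A p := fun I hI p hp =>
    ⟨prime_of_normalized_factor p hp, hI.2 p hp⟩
  let F : {I : Ideal (𝓞 M) // I ≠ ⊥ ∧ ∀ p ∈ normalizedFactors I, A p} ×
      {I : Ideal (𝓞 M) // I ≠ ⊥ ∧ ∀ p ∈ normalizedFactors I, A p} → Ideal (𝓞 M') := fun x =>
    ((normalizedFactors x.1.1).map q₁ + (normalizedFactors x.2.1).map q₂).prod
  have hprime : ∀ x : {I : Ideal (𝓞 M) // I ≠ ⊥ ∧ ∀ p ∈ normalizedFactors I, A p} ×
      {I : Ideal (𝓞 M) // I ≠ ⊥ ∧ ∀ p ∈ normalizedFactors I, A p},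
      ∀ q ∈ (normalizedFactors x.1.1).map q₁ + (normalizedFactors x.2.1).map q₂, Prime q := by
    intro x q hq
    rcases Multiset.mem_add.1 hq with h | h
    · obtain ⟨p, hp, rfl⟩ := Multiset.mem_map.1 h
      have := hmem _ x.1.2 p hp
      exact (hq₁ p this.1 this.2).1
    · obtain ⟨p, hp, rfl⟩ := Multiset.mem_map.1 h
      have := hmem _ x.2.2 p hp
      exact (hq₂ p this.1 this.2).1
  have hnf : ∀ x, normalizedFactors (F x) =
      (normalizedFactors x.1.1).map q₁ + (normalizedFactors x.2.1).map q₂ := fun x =>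
    normalizedFactors_prod_of_prime (hprime x)
  have hF0 : ∀ x, F x ≠ ⊥ := by
    intro x h0
    have h1 : (0 : Ideal (𝓞 M')) ∈
        (normalizedFactors x.1.1).map q₁ + (normalizedFactors x.2.1).map q₂ :=
      Multiset.prod_eq_zero_iff.1 h0
    exact (hprime x 0 h1).ne_zero rfl
  -- the parts of the factorisation
  have hcomap₁ : ∀ I : Ideal (𝓞 M), (I ≠ ⊥ ∧ ∀ p ∈ normalizedFactors I, A p) →
      ((normalizedFactors I).map q₁).map (Ideal.comap (algebraMap (𝓞 M) (𝓞 M'))) =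
        normalizedFactors I := by
    intro I hI
    rw [Multiset.map_map]
    conv_rhs => rw [← Multiset.map_id (normalizedFactors I)]
    refine Multiset.map_congr rfl fun p hp => ?_
    have := hmem _ hI p hp
    exact (hq₁ p this.1 this.2).2.1
  have hcomap₂ : ∀ I : Ideal (𝓞 M), (I ≠ ⊥ ∧ ∀ p ∈ normalizedFactors I, A p) →
      ((normalizedFactors I).map q₂).map (Ideal.comap (algebraMap (𝓞 M) (𝓞 M'))) =
        normalizedFactors I := by
    intro I hI
    rw [Multiset.map_map]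
    conv_rhs => rw [← Multiset.map_id (normalizedFactors I)]
    refine Multiset.map_congr rfl fun p hp => ?_
    have := hmem _ hI p hp
    exact (hq₂ p this.1 this.2).2.1
  have hfil₁ : ∀ x, (normalizedFactors (F x)).filter
      (fun q => q = q₁ (q.comap (algebraMap (𝓞 M) (𝓞 M')))) =
        (normalizedFactors x.1.1).map q₁ := by
    intro x
    rw [hnf, Multiset.filter_add, Multiset.filter_eq_self.2, Multiset.filter_eq_nil.2, add_zero]
    · intro q hq
      obtain ⟨p, hp, rfl⟩ := Multiset.mem_map.1 hq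
      have := hmem _ x.2.2 p hp
      rw [(hq₂ p this.1 this.2).2.1]
      exact fun h => hne p this.1 this.2 h.symm
    · intro q hq
      obtain ⟨p, hp, rfl⟩ := Multiset.mem_map.1 hq
      have := hmem _ x.1.2 p hp
      rw [(hq₁ p this.1 this.2).2.1]
  have hinj : Function.Injective F := by
    intro x y hxy
    have h1 : (normalizedFactors x.1.1).map q₁ = (normalizedFactors y.1.1).map q₁ := by
      rw [← hfil₁ x, ← hfil₁ y, hxy]
    have h2 : (normalizedFactors x.2.1).map q₂ = (normalizedFactors y.2.1).map q₂ := by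
      have h3 := hnf x
      rw [hxy, hnf y, h1] at h3
      exact (add_left_cancel h3).symm
    have h3 : normalizedFactors x.1.1 = normalizedFactors y.1.1 := by
      rw [← hcomap₁ _ x.1.2, ← hcomap₁ _ y.1.2, h1]
    have h4 : normalizedFactors x.2.1 = normalizedFactors y.2.1 := by
      rw [← hcomap₂ _ x.2.2, ← hcomap₂ _ y.2.2, h2]
    refine Prod.ext (Subtype.ext ?_) (Subtype.ext ?_)
    · rw [← Ideal.prod_normalizedFactors_eq_self x.1.2.1,
        ← Ideal.prod_normalizedFactors_eq_self y.1.2.1, h3]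
    · rw [← Ideal.prod_normalizedFactors_eq_self x.2.2.1,
        ← Ideal.prod_normalizedFactors_eq_self y.2.2.1, h4]
  have hnorm : ∀ (q : Ideal (𝓞 M) → Ideal (𝓞 M')), (∀ p, Prime p → A p →
      Ideal.absNorm (q p) = Ideal.absNorm p) →
      ∀ I : Ideal (𝓞 M), (I ≠ ⊥ ∧ ∀ p ∈ normalizedFactors I, A p) →
      Ideal.absNorm ((normalizedFactors I).map q).prod = Ideal.absNorm I := by
    intro q hq I hI
    conv_rhs => rw [← Ideal.prod_normalizedFactors_eq_self hI.1]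
    rw [map_multiset_prod, map_multiset_prod, Multiset.map_map]
    congr 1
    refine Multiset.map_congr rfl fun p hp => ?_
    have := hmem _ hI p hp
    exact hq p this.1 this.2
  have hswt : ∀ x, swt s (F x) = swt s x.1.1 * swt s x.2.1 := by
    intro x
    simp only [F]
    rw [Multiset.prod_add, swt_mul]
    congr 1
    · rw [swt, swt, hnorm q₁ (fun p hp hpT => (hq₁ p hp hpT).2.2) _ x.1.2]
    · rw [swt, swt, hnorm q₂ (fun p hp hpT => (hq₂ p hp hpT).2.2) _ x.2.2]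
  rw [ZA, ← ENNReal.tsum_mul_right]
  simp only [← ENNReal.tsum_mul_left]
  rw [← ENNReal.tsum_prod (f := fun I J : {I : Ideal (𝓞 M) // I ≠ ⊥ ∧
    ∀ p ∈ normalizedFactors I, A p} => swt s I.1 * swt s J.1)]
  simp only [← hswt]
  rw [ZZ]
  refine le_trans (le_of_eq ?_) (ENNReal.tsum_comp_le_tsum_of_injective hinj _)
  refine tsum_congr fun x => ?_
  rw [if_pos]
  exact ⟨hF0 x, by simp⟩

open Classical in
/-- the exceptional primes -/
private def bad (M' : Type) [Field M'] [NumberField M'] [Algebra M M']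
    {S : Set (Ideal (𝓞 M))} (hS : S.Finite) : Finset (Ideal (𝓞 M)) :=
  hS.toFinset.filter Prime ∪ ((normalizedFactors (differentIdeal (𝓞 M) (𝓞 M'))).toFinset.image
    (Ideal.comap (algebraMap (𝓞 M) (𝓞 M')))).filter Prime

private lemma exists_two {S : Set (Ideal (𝓞 M))} (hS : S.Finite) {D : Ideal (𝓞 M) → Prop}
    (h : ∀ 𝔮 : Ideal (𝓞 M'), 𝔮.IsPrime → 𝔮 ≠ ⊥ →
      𝔮.comap (algebraMap (𝓞 M) (𝓞 M')) ∉ S → D (𝔮.comap (algebraMap (𝓞 M) (𝓞 M'))) →
      Ideal.absNorm 𝔮 = Ideal.absNorm (𝔮.comap (algebraMap (𝓞 M) (𝓞 M'))))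
    (hm : Module.finrank M M' ≠ 1) {p : Ideal (𝓞 M)} (hp : Prime p) (hpT : p ∉ bad M' hS)
    (hD : D p) :
    ∃ q₁ q₂ : Ideal (𝓞 M'), (Prime q₁ ∧ q₁.comap (algebraMap (𝓞 M) (𝓞 M')) = p ∧
      Ideal.absNorm q₁ = Ideal.absNorm p) ∧ (Prime q₂ ∧
        q₂.comap (algebraMap (𝓞 M) (𝓞 M')) = p ∧ Ideal.absNorm q₂ = Ideal.absNorm p) ∧
      q₁ ≠ q₂ := by
  classical
  have hm1 : 1 < Module.finrank M M' := by
    have := Module.finrank_pos (R := M) (M := M')
    omega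
  have hp0 : p ≠ ⊥ := hp.ne_zero
  have hpP : p.IsPrime := Ideal.isPrime_of_prime hp
  have hpM : p.IsMaximal := hpP.isMaximal hp0
  have hpS : p ∉ S := by
    intro h1
    apply hpT
    rw [bad, Finset.mem_union, Finset.mem_filter]
    exact Or.inl ⟨hS.mem_toFinset.2 h1, hp⟩
  have hN : 1 < Ideal.absNorm p := by
    have h3 : Ideal.absNorm p ≠ 0 := fun h => hp0 (Ideal.absNorm_eq_zero_iff.1 h)
    have h4 : Ideal.absNorm p ≠ 1 := fun h => hpP.ne_top (Ideal.absNorm_eq_one_iff.1 h)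
    omega
  set P := p.map (algebraMap (𝓞 M) (𝓞 M')) with hP
  have hPN : Ideal.absNorm P = Ideal.absNorm p ^ Module.finrank M M' := by
    rw [hP, Ideal.absNorm_algebraMap, IsFractionRing.finrank_eq (𝓞 M) M (𝓞 M') M']
  have hP0 : P ≠ ⊥ := by
    intro h0
    rw [h0, Ideal.absNorm_bot] at hPN
    exact pow_ne_zero _ (by omega) hPN.symm
  -- primes containing `P`
  have key : ∀ q : Ideal (𝓞 M'), q.IsMaximal → P ≤ q →
      Prime q ∧ q.comap (algebraMap (𝓞 M) (𝓞 M')) = p ∧ Ideal.absNorm q = Ideal.absNorm p := by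
    intro q hq hPq
    have hq0 : q ≠ ⊥ := by
      rintro rfl
      exact hP0 (le_bot_iff.1 hPq)
    have h1 : q.comap (algebraMap (𝓞 M) (𝓞 M')) = p :=
      (hpM.eq_of_le (Ideal.comap_ne_top _ hq.ne_top) (Ideal.map_le_iff_le_comap.1 hPq)).symm
    refine ⟨Ideal.prime_of_isPrime hq0 hq.isPrime, h1, ?_⟩
    rw [h q hq.isPrime hq0 (by rw [h1]; exact hpS) (by rw [h1]; exact hD), h1]
  have hPtop : P ≠ ⊤ := by
    intro h1
    rw [h1, Ideal.absNorm_top] at hPN
    exact (Nat.one_lt_pow (by omega) hN).ne hPN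
  obtain ⟨q₁, hq₁, hPq₁⟩ := Ideal.exists_le_maximal P hPtop
  obtain ⟨J, hJ⟩ := Ideal.dvd_iff_le.2 hPq₁
  have h1 := key q₁ hq₁ hPq₁
  have hJtop : J ≠ ⊤ := by
    intro h2
    rw [hJ, h2, map_mul, Ideal.absNorm_top, mul_one, h1.2.2] at hPN
    have h3 := Nat.pow_lt_pow_right hN hm1
    rw [pow_one] at h3
    omega
  obtain ⟨q₂, hq₂, hJq₂⟩ := Ideal.exists_le_maximal J hJtop
  have hPq₂ : P ≤ q₂ := by
    rw [hJ]
    exact Ideal.mul_le_right.trans hJq₂
  refine ⟨q₁, q₂, h1, key q₂ hq₂ hPq₂, ?_⟩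
  rintro rfl
  have h2 : q₁ ^ 2 ∣ p.map (algebraMap (𝓞 M) (𝓞 M')) := by
    rw [← hP, hJ, pow_two]
    exact mul_dvd_mul_left _ (Ideal.dvd_iff_le.2 hJq₂)
  have h3 := pow_sub_one_dvd_differentIdeal (𝓞 M) (p := p) q₁ 2 hp0 h2
  rw [show 2 - 1 = 1 from rfl, pow_one] at h3
  apply hpT
  rw [bad, Finset.mem_union, Finset.mem_filter]
  refine Or.inr ?_
  rw [Finset.mem_filter]
  refine ⟨Finset.mem_image.2 ⟨q₁, ?_, h1.2.1⟩, hp⟩
  rw [Multiset.mem_toFinset, Ideal.mem_normalizedFactors_iff differentIdeal_ne_bot]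
  exact ⟨hq₁.isPrime, Ideal.dvd_iff_le.1 h3⟩

end

/-- the sums `∑ N q^(-s)` over sets of primes converge for `s > 1` -/
theorem summable_primes {K : Type} [Field K] [NumberField K] (P : Ideal (𝓞 K) → Prop) {s : ℝ}
    (hs : 1 < s) :
    Summable fun q : {q : Ideal (𝓞 K) // (q.IsPrime ∧ q ≠ ⊥) ∧ P q} =>
      (Ideal.absNorm (q : Ideal (𝓞 K)) : ℝ) ^ (-s) := by
  classical
  have h1 : ∑' q : {q : Ideal (𝓞 K) // (q.IsPrime ∧ q ≠ ⊥) ∧ P q},
      swt s (q : Ideal (𝓞 K)) ≠ ⊤ := by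
    refine ne_top_of_le_ne_top (zz_ne_top (K := K) hs) ?_
    rw [ZZ]
    refine le_trans (le_of_eq ?_) (ENNReal.tsum_comp_le_tsum_of_injective
      (f := fun q : {q : Ideal (𝓞 K) // (q.IsPrime ∧ q ≠ ⊥) ∧ P q} => (q : Ideal (𝓞 K)))
      Subtype.val_injective _)
    refine tsum_congr fun q => ?_
    rw [if_pos]
    exact ⟨q.2.1.2, fun p hp => absurd hp (Finset.notMem_empty p)⟩
  refine (ENNReal.summable_toReal h1).congr fun q => ?_
  rw [swt, ENNReal.toReal_ofReal (by positivity)]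
section

variable {K L : Type} [Field K] [NumberField K] [Field L] [NumberField L] [Algebra K L]
  [IsAbelianGalois K L]

/-- the primes with Frobenius element in `U` split completely in the field fixed by `U` -/
private lemma norm_eq_of_frob {U : Subgroup Gal(L/K)} {p : Ideal (𝓞 K)} (hp : p.IsPrime)
    (hp0 : p ≠ ⊥) {φ : Gal(L/K)} (hφ : IsFrob p φ) (hU : φ ∈ U)
    {q : Ideal (𝓞 (IntermediateField.fixedField U))} (hq : q.IsPrime) (hq0 : q ≠ ⊥)
    (hqp : q.comap (algebraMap (𝓞 K) (𝓞 (IntermediateField.fixedField U))) = p) :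
    Ideal.absNorm q = Ideal.absNorm p := by
  obtain ⟨P, hP, hPp, hc⟩ := hφ
  obtain ⟨Q, hQ, hQq⟩ := exists_over (F := IntermediateField.fixedField U) (M := L) q
  have hal : algebraMap (𝓞 K) (𝓞 L) = (algebraMap (𝓞 (IntermediateField.fixedField U)) (𝓞 L)).comp
      (algebraMap (𝓞 K) (𝓞 (IntermediateField.fixedField U))) := by
    ext x
    rfl
  have hQp : Q.comap (algebraMap (𝓞 K) (𝓞 L)) = p := by
    rw [hal, ← Ideal.comap_comap, hQq, hqp]
  have h1 : Cong (toG K L φ) P (Ideal.absNorm p) := hc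
  obtain ⟨ρ, hρ⟩ := exists_smul_eq_over hPp hQp
  have h3 := h1.conj (toG K L ρ)
  rw [hρ, ← map_inv, ← map_mul, ← map_mul, gal_comm ρ φ, mul_inv_cancel_right] at h3
  have h4 : ∀ x : 𝓞 (IntermediateField.fixedField U), x - x ^ Ideal.absNorm p ∈ q := by
    intro x
    rw [← hQq, Ideal.mem_comap, map_sub, map_pow]
    have h5 := h3 (algebraMap (𝓞 (IntermediateField.fixedField U)) (𝓞 L) x)
    have h6 : toG K L φ • algebraMap (𝓞 (IntermediateField.fixedField U)) (𝓞 L) x =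
        algebraMap (𝓞 (IntermediateField.fixedField U)) (𝓞 L) x := by
      apply RingOfIntegers.ext
      exact (x : IntermediateField.fixedField U).2 ⟨φ, hU⟩
    rwa [h6] at h5
  have hqM : q.IsMaximal := hq.isMaximal hq0
  have hfin : Finite (𝓞 (IntermediateField.fixedField U) ⧸ q) :=
    Ideal.finiteQuotientOfFreeOfNeBot q hq0
  have hN : 1 < Ideal.absNorm p := by
    have h5 : Ideal.absNorm p ≠ 0 := fun h => hp0 (Ideal.absNorm_eq_zero_iff.1 h)
    have h6 : Ideal.absNorm p ≠ 1 := fun h => hp.ne_top (Ideal.absNorm_eq_one_iff.1 h)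
    omega
  apply le_antisymm
  · let := Ideal.Quotient.field q
    let := Fintype.ofFinite (𝓞 (IntermediateField.fixedField U) ⧸ q)
    have h5 : Ideal.absNorm q = Fintype.card (𝓞 (IntermediateField.fixedField U) ⧸ q) := by
      rw [Ideal.absNorm_apply, Submodule.cardQuot_apply, Nat.card_eq_fintype_card]
    have hne := FiniteField.X_pow_card_sub_X_ne_zero
      (𝓞 (IntermediateField.fixedField U) ⧸ q) hN
    have h6 := Polynomial.card_le_degree_of_subset_roots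
      (p := (Polynomial.X ^ Ideal.absNorm p - Polynomial.X :
        Polynomial (𝓞 (IntermediateField.fixedField U) ⧸ q))) (Z := Finset.univ) (by
        intro y _
        rw [Polynomial.mem_roots hne, Polynomial.IsRoot.def]
        obtain ⟨x, rfl⟩ := Ideal.Quotient.mk_surjective y
        rw [Polynomial.eval_sub, Polynomial.eval_pow, Polynomial.eval_X, ← map_pow, ← map_sub,
          Ideal.Quotient.eq_zero_iff_mem, ← neg_mem_iff, neg_sub]
        exact h4 x)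
    rw [FiniteField.X_pow_card_sub_X_natDegree_eq _ hN, Finset.card_univ] at h6
    rw [h5]
    exact h6
  · have h5 : Function.Injective (Ideal.quotientMap q
        (algebraMap (𝓞 K) (𝓞 (IntermediateField.fixedField U))) le_rfl) :=
      Ideal.quotientMap_injective
    have h6 : Nat.card (𝓞 K ⧸ q.comap (algebraMap (𝓞 K) (𝓞 (IntermediateField.fixedField U)))) ≤
        Nat.card (𝓞 (IntermediateField.fixedField U) ⧸ q) :=
      Nat.card_le_card_of_injective _ h5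
    rw [hqp] at h6
    exact h6

omit [IsAbelianGalois K L] in
private lemma finrank_ne {U : Subgroup Gal(L/K)} (hU : U ≠ ⊤) :
    Module.finrank K (IntermediateField.fixedField U) ≠ 1 := by
  intro h
  rw [IntermediateField.finrank_eq_one_iff] at h
  have h1 := IntermediateField.fixingSubgroup_fixedField U
  rw [h] at h1
  apply hU
  rw [← h1]
  exact IntermediateField.fixingSubgroup_bot

end

theorem density {K L : Type} [Field K] [NumberField K] [Field L] [NumberField L] [Algebra K L]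
    [IsAbelianGalois K L] {m : Ideal (𝓞 K)} (h0 : m ≠ ⊥)
    (hur : ∀ 𝔮 : Ideal (𝓞 K), 𝔮.IsPrime → 𝔮 ≠ ⊥ → IsCoprime 𝔮 m → UnrAt L 𝔮)
    {U : Subgroup Gal(L/K)} (hU : U ≠ ⊤) :
    ∃ C : ℝ, ∀ s : ℝ, 1 < s → s < 2 → 1 / 2 * Real.log (1 / (s - 1)) - C ≤
      ∑' q : {q : Ideal (𝓞 K) // (q.IsPrime ∧ q ≠ ⊥) ∧ (¬ m ≤ q ∧
        ∀ φ : Gal(L/K), IsFrob q φ → φ ∉ U)},
        (Ideal.absNorm (q : Ideal (𝓞 K)) : ℝ) ^ (-s) := by
  classical
  obtain ⟨E, hE⟩ : ∃ E : IntermediateField K L, E = IntermediateField.fixedField U := ⟨_, rfl⟩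
  have hS : (↑(normalizedFactors m).toFinset : Set (Ideal (𝓞 K))).Finite := Finset.finite_toSet _
  have hSm : ∀ p : Ideal (𝓞 K), Prime p → m ≤ p →
      p ∈ (↑(normalizedFactors m).toFinset : Set (Ideal (𝓞 K))) := by
    intro p hp hmp
    rw [Finset.mem_coe, Multiset.mem_toFinset, Ideal.mem_normalizedFactors_iff h0]
    exact ⟨Ideal.isPrime_of_prime hp, hmp⟩
  set D : Ideal (𝓞 K) → Prop := fun p => ∃ φ : Gal(L/K), IsFrob p φ ∧ φ ∈ U with hD
  have h : ∀ 𝔮 : Ideal (𝓞 E), 𝔮.IsPrime → 𝔮 ≠ ⊥ →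
      𝔮.comap (algebraMap (𝓞 K) (𝓞 E)) ∉
        (↑(normalizedFactors m).toFinset : Set (Ideal (𝓞 K))) →
      D (𝔮.comap (algebraMap (𝓞 K) (𝓞 E))) →
      Ideal.absNorm 𝔮 = Ideal.absNorm (𝔮.comap (algebraMap (𝓞 K) (𝓞 E))) := by
    subst hE
    rintro 𝔮 h1 h2 - ⟨φ, h3, h4⟩
    have h5 : 𝔮.comap (algebraMap (𝓞 K) (𝓞 (IntermediateField.fixedField U))) ≠ ⊥ :=
      fun h5 => h2 (Ideal.eq_bot_of_comap_eq_bot h5)
    exact norm_eq_of_frob (h1.comap _) h5 h3 h4 h1 h2 rfl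
  have hm : Module.finrank K E ≠ 1 := by
    rw [hE]
    exact finrank_ne hU
  have h2 : ∀ p : Ideal (𝓞 K), ∃ q : Ideal (𝓞 E) × Ideal (𝓞 E), Prime p →
      (p ∉ bad E hS ∧ D p) →
      (Prime q.1 ∧ q.1.comap (algebraMap (𝓞 K) (𝓞 E)) = p ∧
        Ideal.absNorm q.1 = Ideal.absNorm p) ∧ (Prime q.2 ∧
        q.2.comap (algebraMap (𝓞 K) (𝓞 E)) = p ∧ Ideal.absNorm q.2 = Ideal.absNorm p) ∧
      q.1 ≠ q.2 := by
    intro p
    by_cases hp : Prime p ∧ (p ∉ bad E hS ∧ D p)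
    · obtain ⟨q₁, q₂, h3⟩ := exists_two hS (D := D) h hm hp.1 hp.2.1 hp.2.2
      exact ⟨(q₁, q₂), fun _ _ => h3⟩
    · exact ⟨(⊥, ⊥), fun h3 h4 => absurd ⟨h3, h4⟩ hp⟩
  choose q hq using h2
  have hle : ∀ s : ℝ, ZA (fun p => p ∉ bad E hS ∧ D p) s * ZA (fun p => p ∉ bad E hS ∧ D p) s ≤
      ZZ (∅ : Finset (Ideal (𝓞 E))) s :=
    fun s => za_sq_le (A := fun p => p ∉ bad E hS ∧ D p) (q₁ := fun p => (q p).1)
      (q₂ := fun p => (q p).2)
      (fun p hp hpT => (hq p hp hpT).1) (fun p hp hpT => (hq p hp hpT).2.1)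
      (fun p hp hpT => (hq p hp hpT).2.2) s
  have hbad : ∀ p ∈ bad E hS, Prime p := by
    intro p hp
    rw [bad, Finset.mem_union, Finset.mem_filter, Finset.mem_filter] at hp
    rcases hp with hp | hp
    · exact hp.2
    · exact hp.2
  have hbadm : ∀ p : Ideal (𝓞 K), Prime p → p ∉ bad E hS → ¬ m ≤ p := by
    intro p hp hpb hmp
    apply hpb
    rw [bad, Finset.mem_union, Finset.mem_filter]
    exact Or.inl ⟨hS.mem_toFinset.2 (hSm p hp hmp), hp⟩
  obtain ⟨c, hc, hc'⟩ := zz_lower hbad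
  obtain ⟨C, hC, hC'⟩ := zz_upper E
  set C₂ : ℝ := ∑' q : {q : Ideal (𝓞 K) // (q.IsPrime ∧ q ≠ ⊥) ∧ True},
    (Ideal.absNorm (q : Ideal (𝓞 K)) : ℝ) ^ (-(2 : ℝ)) with hC₂
  refine ⟨2 * C₂ - 1 / 2 * Real.log (c ^ 2 / C), fun s hs hs2 => ?_⟩
  set X : ℝ := ∑' q : {q : Ideal (𝓞 K) // (q.IsPrime ∧ q ≠ ⊥) ∧ (¬ m ≤ q ∧
        ∀ φ : Gal(L/K), IsFrob q φ → φ ∉ U)},
        (Ideal.absNorm (q : Ideal (𝓞 K)) : ℝ) ^ (-s) with hX
  have h3 : ZA (fun p => p ∉ bad E hS ∧ ¬ D p) s ≤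
      ENNReal.ofReal (Real.exp (X + 2 * C₂)) := by
    refine za_le_exp hs fun F hF => ?_
    unfold ex
    rw [Finset.sum_add_distrib, ← Finset.mul_sum]
    refine add_le_add ?_ (mul_le_mul_of_nonneg_left ?_ (by norm_num))
    · refine sum_le_tsum_sub (f := fun q : Ideal (𝓞 K) => (Ideal.absNorm q : ℝ) ^ (-s))
        (fun q => by positivity) (summable_primes (fun q => ¬ m ≤ q ∧
          ∀ φ : Gal(L/K), IsFrob q φ → φ ∉ U) hs) F fun q hq => ?_
      obtain ⟨h4, h5, h6⟩ := hF q hq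
      exact ⟨⟨Ideal.isPrime_of_prime h4, h4.ne_zero⟩, hbadm q h4 h5,
        fun φ h7 h8 => h6 ⟨φ, h7, h8⟩⟩
    · refine sum_le_tsum_sub (f := fun q : Ideal (𝓞 K) => (Ideal.absNorm q : ℝ) ^ (-(2 : ℝ)))
        (fun q => by positivity) (summable_primes (fun _ => True) (by norm_num)) F
          fun q hq => ?_
      have h4 := (hF q hq).1
      exact ⟨⟨Ideal.isPrime_of_prime h4, h4.ne_zero⟩, trivial⟩
  have h4 : ZZ (bad E hS) s ≤ ZA (fun p => p ∉ bad E hS ∧ D p) s *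
      ENNReal.ofReal (Real.exp (X + 2 * C₂)) :=
    (zz_le_za _ s).trans ((za_split _ D s).trans (mul_le_mul' le_rfl h3))
  have h5 : ZZ (bad E hS) s * ZZ (bad E hS) s ≤ ZZ (∅ : Finset (Ideal (𝓞 E))) s *
      ENNReal.ofReal (Real.exp (X + 2 * C₂) * Real.exp (X + 2 * C₂)) := by
    rw [ENNReal.ofReal_mul (Real.exp_nonneg _)]
    refine (mul_le_mul' h4 h4).trans ?_
    rw [mul_mul_mul_comm]
    exact mul_le_mul' (hle s) le_rfl
  have h6 := ENNReal.toReal_mono (ENNReal.mul_ne_top (zz_ne_top hs) ENNReal.ofReal_ne_top) h5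
  rw [ENNReal.toReal_mul, ENNReal.toReal_mul, ENNReal.toReal_ofReal (by positivity),
    ← Real.exp_add] at h6
  have hs1 : 0 < s - 1 := sub_pos.2 hs
  have h7 := hc' s hs
  have h8 := hC' s hs hs2
  set z := (ZZ (bad E hS) s).toReal with hz
  set w := (ZZ (∅ : Finset (Ideal (𝓞 E))) s).toReal with hw
  have h9 : c ^ 2 ≤ (s - 1) * (C * Real.exp ((X + 2 * C₂) + (X + 2 * C₂))) := by
    calc c ^ 2 ≤ ((s - 1) * z) ^ 2 := pow_le_pow_left₀ hc.le h7 2
      _ = (s - 1) * (s - 1) * (z * z) := by ring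
      _ ≤ (s - 1) * (s - 1) * (w * Real.exp ((X + 2 * C₂) + (X + 2 * C₂))) :=
          mul_le_mul_of_nonneg_left h6 (by positivity)
      _ = (s - 1) * (((s - 1) * w) * Real.exp ((X + 2 * C₂) + (X + 2 * C₂))) := by ring
      _ ≤ _ := by gcongr
  have h10 : c ^ 2 / C * (1 / (s - 1)) ≤ Real.exp ((X + 2 * C₂) + (X + 2 * C₂)) := by
    rw [mul_one_div, div_div, div_le_iff₀ (mul_pos hC hs1)]
    calc c ^ 2 ≤ _ := h9
      _ = _ := by ring
  have h11 := Real.log_le_log (by positivity) h10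
  rw [Real.log_exp, Real.log_mul (by positivity) (by positivity)] at h11
  linarith

end Pool.Agent.SLow
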