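import Pool.Agent.SLow.Defs
import Pool.Agent.HeckeM.CoeffR
import Pool.Agent.HeckeRQ.Hecke

/-!
# The Euler factor at a prime `q` which does not divide `m`

`zcI_mul_prime`: split the ideals `a` prime to `m`, of norm `n` and with Artin symbol `σ` into those
prime to `q` (i.e. prime to `m q`) and those divisible by `q`, `a = q a'`; then `a'` is prime to
`m`, has norm `n / N q` and Artin symbol `σ φ⁻¹` (`artM_iff`, `StarkU.artU_mul`; `φ = art q` is the
Frobenius element). The sets are finite for `n ≠ 0` (`Ideal.finite_setOfPred_absNorm_eq`).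

`isPZ_mul_prime`: sum over `n`; for `1 < Re s` the series converge absolutely
(`0 ≤ zcI m σ n ≤` number of ideals of norm `n`, see `HeckeRQ/LSer.lean` and
`StarkRQ.Analytic.card_summable`): `LSeries` of `n ↦ if N q ∣ n then c (n / N q) else 0` is
`(N q)^(-s)` times the `LSeries` of `c` (all coefficients at `n = 0` are irrelevant).

`isPZ_unique`: identity theorem, as `hk_zero` in `HeckeM/Hecke.lean`.
-/

set_option autoImplicit false

noncomputable section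

open NumberField Module Pool.Agent.StarkRQ Pool.Agent.StarkU Pool.Agent.HeckeM

namespace Pool.Agent.SLow

variable {K H : Type} [Field K] [NumberField K] [Field H] [NumberField H] [Algebra K H]
  [IsAbelianGalois K H]

omit [IsAbelianGalois K H] in
private theorem zcI_eq (m : Ideal (𝓞 K)) (σ : Gal(H/K)) (n : ℕ) :
    zcI m σ n = {a : Ideal (𝓞 K) | Ideal.absNorm a = n ∧ IsCoprime a m ∧
      HasArtinSymbol a σ}.ncard := rfl

private theorem coprime_iff_not_dvd {q : Ideal (𝓞 K)} (hq : q.IsPrime) (hq0 : q ≠ ⊥)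
    (a : Ideal (𝓞 K)) : IsCoprime a q ↔ ¬ q ∣ a := by
  have hmax : q.IsMaximal := hq.isMaximal hq0
  rw [Ideal.isCoprime_iff_sup_eq, sup_comm, Ideal.dvd_iff_le]
  constructor
  · intro h h2
    rw [sup_eq_left.2 h2] at h
    exact hq.ne_top h
  · intro h
    exact hmax.out.2 _ (left_lt_sup.2 h)

private theorem art_prime_mul {m : Ideal (𝓞 K)}
    (hur : ∀ 𝔮 : Ideal (𝓞 K), 𝔮.IsPrime → 𝔮 ≠ ⊥ → IsCoprime 𝔮 m → UnrAt H 𝔮)
    {q : Ideal (𝓞 K)} (hq0 : q ≠ ⊥) (hqm : IsCoprime q m) {φ : Gal(H/K)}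
    (hφ : HasArtinSymbol q φ) (σ : Gal(H/K)) {a : Ideal (𝓞 K)} (ha : a ≠ ⊥)
    (ham : IsCoprime a m) : HasArtinSymbol (q * a) σ ↔ HasArtinSymbol a (σ * φ⁻¹) := by
  have hqa : q * a ≠ ⊥ := by
    rw [← Ideal.zero_eq_bot] at hq0 ha ⊢
    exact mul_ne_zero hq0 ha
  rw [artM_iff hur hqa (hqm.mul_left ham), artM_iff hur ha ham,
    artU_mul gal_comm hq0 ha (unrAll hur hqm) (unrAll hur ham),
    ← (artM_iff hur hq0 hqm φ).1 hφ, gal_comm φ (art a)]
  exact (mul_inv_eq_iff_eq_mul).symm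

theorem zcI_mul_prime {m : Ideal (𝓞 K)}
    (hur : ∀ 𝔮 : Ideal (𝓞 K), 𝔮.IsPrime → 𝔮 ≠ ⊥ → IsCoprime 𝔮 m → UnrAt H 𝔮)
    {q : Ideal (𝓞 K)} (hq : q.IsPrime) (hq0 : q ≠ ⊥) (hqm : IsCoprime q m) {φ : Gal(H/K)}
    (hφ : HasArtinSymbol q φ) (σ : Gal(H/K)) {n : ℕ} (hn : n ≠ 0) :
    zcI m σ n = zcI (m * q) σ n +
      if Ideal.absNorm q ∣ n then zcI m (σ * φ⁻¹) (n / Ideal.absNorm q) else 0 := by
  have hNq : Ideal.absNorm q ≠ 0 := by
    rw [Ne, Ideal.absNorm_eq_zero_iff]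
    exact hq0
  have hNq' : 0 < Ideal.absNorm q := Nat.pos_of_ne_zero hNq
  have hfin : ∀ P : Ideal (𝓞 K) → Prop,
      {a : Ideal (𝓞 K) | Ideal.absNorm a = n ∧ P a}.Finite := fun P =>
    (Ideal.finite_setOfPred_absNorm_eq n).subset fun a ha => ha.1
  set A : Set (Ideal (𝓞 K)) := {a | Ideal.absNorm a = n ∧ IsCoprime a m ∧ HasArtinSymbol a σ}
    with hA
  set A₁ : Set (Ideal (𝓞 K)) := {a | Ideal.absNorm a = n ∧ IsCoprime a (m * q) ∧
    HasArtinSymbol a σ} with hA₁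
  set A₂ : Set (Ideal (𝓞 K)) := {a | Ideal.absNorm a = n ∧ IsCoprime a m ∧
    HasArtinSymbol a σ ∧ q ∣ a} with hA₂
  have hunion : A = A₁ ∪ A₂ := by
    ext a
    simp only [hA, hA₁, hA₂, Set.mem_ofPred_eq, Set.mem_union]
    rw [IsCoprime.mul_right_iff, coprime_iff_not_dvd hq hq0]
    tauto
  have hdisj : Disjoint A₁ A₂ := by
    rw [Set.disjoint_left]
    intro a h1 h2
    have h3 := (IsCoprime.mul_right_iff.1 h1.2.1).2
    rw [coprime_iff_not_dvd hq hq0] at h3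
    exact h3 h2.2.2.2
  have hcard : zcI m σ n = zcI (m * q) σ n + A₂.ncard := by
    rw [zcI_eq, zcI_eq]
    change A.ncard = A₁.ncard + A₂.ncard
    rw [hunion]
    exact Set.ncard_union_eq hdisj (hfin _) (hfin _)
  rw [hcard]
  congr 1
  split_ifs with hdvd
  · obtain ⟨k, rfl⟩ := hdvd
    have hk : k ≠ 0 := fun h => hn (by rw [h, mul_zero])
    rw [Nat.mul_div_cancel_left _ hNq', zcI_eq]
    have himg : A₂ = (fun a => q * a) '' {a : Ideal (𝓞 K) | Ideal.absNorm a = k ∧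
        IsCoprime a m ∧ HasArtinSymbol a (σ * φ⁻¹)} := by
      ext b
      constructor
      · rintro ⟨h1, h2, h3, a, rfl⟩
        rw [map_mul] at h1
        have h4 : Ideal.absNorm a = k := Nat.eq_of_mul_eq_mul_left hNq' h1
        have ha0 : a ≠ ⊥ := by
          rintro rfl
          rw [Ideal.absNorm_bot] at h4
          exact hk h4.symm
        have ham : IsCoprime a m := h2.of_mul_left_right
        exact ⟨a, ⟨h4, ham, (art_prime_mul hur hq0 hqm hφ σ ha0 ham).1 h3⟩, rfl⟩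
      · rintro ⟨a, ⟨h1, h2, h3⟩, rfl⟩
        have ha0 : a ≠ ⊥ := by
          rintro rfl
          rw [Ideal.absNorm_bot] at h1
          exact hk h1.symm
        refine ⟨by rw [map_mul, h1], hqm.mul_left h2,
          (art_prime_mul hur hq0 hqm hφ σ ha0 h2).2 h3, Dvd.intro _ rfl⟩
    rw [himg]
    refine Set.ncard_image_of_injective _ fun a b hab => ?_
    rw [← Ideal.zero_eq_bot] at hq0
    exact mul_left_cancel₀ hq0 hab
  · have hempty : A₂ = ∅ := by
      ext a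
      simp only [hA₂, Set.mem_ofPred_eq, Set.mem_empty_iff_false, iff_false]
      rintro ⟨h1, -, -, b, rfl⟩
      exact hdvd ⟨Ideal.absNorm b, by rw [← h1, map_mul]⟩
    rw [hempty, Set.ncard_empty]

omit [IsAbelianGalois K H] in
theorem summable_zcI (m : Ideal (𝓞 K)) (σ : Gal(H/K)) {s : ℂ} (hs : 1 < s.re) :
    LSeriesSummable (fun n => (zcI m σ n : ℂ)) s := by
  refine Summable.of_norm_bounded (Analytic.card_summable K hs).norm fun n => ?_
  refine LSeries.norm_term_le s ?_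
  simp only [Complex.norm_natCast]
  have hfin : Finite {I : Ideal (𝓞 K) // Ideal.absNorm I = n} :=
    Ideal.finite_setOfPred_absNorm_eq n
  have h1 : zcI m σ n ≤ Nat.card {I : Ideal (𝓞 K) // Ideal.absNorm I = n} := by
    unfold zcI
    exact Nat.card_le_card_of_injective
      (fun a => (⟨a.1, a.2.1⟩ : {I : Ideal (𝓞 K) // Ideal.absNorm I = n}))
      (fun a b hab => Subtype.ext (congrArg (fun x => x.1) hab))
  exact_mod_cast h1

open Filter Topology in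
omit [IsAbelianGalois K H] in
theorem isPZ_unique {m : Ideal (𝓞 K)} {σ : Gal(H/K)} {Z W : ℂ → ℂ} (hZ : IsPZ m σ Z)
    (hW : IsPZ m σ W) : ∀ s : ℂ, s ≠ 1 → Z s = W s := by
  have hopen : IsOpen ({1}ᶜ : Set ℂ) := isOpen_compl_singleton
  have hZ' : AnalyticOnNhd ℂ Z {1}ᶜ := hZ.1.analyticOnNhd hopen
  have hW' : AnalyticOnNhd ℂ W {1}ᶜ := hW.1.analyticOnNhd hopen
  have hconn : IsPreconnected ({1}ᶜ : Set ℂ) :=
    (isConnected_compl_singleton_of_one_lt_rank (by simp) 1).isPreconnected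
  have hev : Z =ᶠ[𝓝 (2 : ℂ)] W := by
    have ho : IsOpen {s : ℂ | 1 < s.re} := isOpen_lt continuous_const Complex.continuous_re
    filter_upwards [ho.mem_nhds (show (2 : ℂ) ∈ {s : ℂ | 1 < s.re} by simp)] with s hs
    rw [hZ.2 s hs, hW.2 s hs]
  intro s hs
  exact hZ'.eqOn_of_preconnected_of_eventuallyEq hW' hconn
    (show (2 : ℂ) ∈ ({1}ᶜ : Set ℂ) by simp) hev hs

open Filter Topology in
omit [IsAbelianGalois K H] in
theorem isPZ_deriv_unique {m : Ideal (𝓞 K)} {σ : Gal(H/K)} {Z W : ℂ → ℂ} (hZ : IsPZ m σ Z)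
    (hW : IsPZ m σ W) : deriv Z 0 = deriv W 0 := by
  have hopen : IsOpen ({1}ᶜ : Set ℂ) := isOpen_compl_singleton
  have h0 : Z =ᶠ[𝓝 (0 : ℂ)] W := by
    filter_upwards [hopen.mem_nhds (show (0 : ℂ) ∈ ({1}ᶜ : Set ℂ) by simp)] with s hs
    exact isPZ_unique hZ hW s hs
  exact h0.deriv_eq

/-- The Dirichlet series supported on the multiples of `N`. -/
private theorem hasSum_mult {N : ℕ} (hN : N ≠ 0) (c : ℕ → ℂ) {s : ℂ}
    (hc : LSeriesSummable c s) :
    HasSum (LSeries.term (fun n => if N ∣ n then c (n / N) else 0) s)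
      ((N : ℂ) ^ (-s) * LSeries c s) := by
  have hN0 : (N : ℂ) ≠ 0 := by exact_mod_cast hN
  have hinj : Function.Injective fun k : ℕ => N * k := fun a b h =>
    Nat.eq_of_mul_eq_mul_left (Nat.pos_of_ne_zero hN) h
  rw [← hinj.hasSum_iff]
  · have h1 : HasSum (fun k => (N : ℂ) ^ (-s) * LSeries.term c s k)
        ((N : ℂ) ^ (-s) * LSeries c s) := hc.hasSum.mul_left _
    convert h1 using 1
    funext k
    simp only [Function.comp_apply]
    rcases eq_or_ne k 0 with rfl | hk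
    · rw [mul_zero, LSeries.term_zero, LSeries.term_zero, mul_zero]
    · rw [LSeries.term_of_ne_zero (mul_ne_zero hN hk), LSeries.term_of_ne_zero hk,
        if_pos (Dvd.intro _ rfl), Nat.mul_div_cancel_left _ (Nat.pos_of_ne_zero hN)]
      push_cast
      rw [Complex.natCast_mul_natCast_cpow, Complex.cpow_neg]
      have h3 : (N : ℂ) ^ s ≠ 0 := by
        rw [Ne, Complex.cpow_eq_zero_iff]
        exact fun h => hN0 h.1
      have h4 : (k : ℂ) ^ s ≠ 0 := by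
        rw [Ne, Complex.cpow_eq_zero_iff]
        exact fun h => hk (by exact_mod_cast h.1)
      field_simp
  · intro n hn
    rcases eq_or_ne n 0 with rfl | hn0
    · exact LSeries.term_zero _ _
    · rw [LSeries.term_of_ne_zero hn0, if_neg, zero_div]
      rintro ⟨k, rfl⟩
      exact hn ⟨k, rfl⟩

theorem isPZ_mul_prime {m : Ideal (𝓞 K)}
    (hur : ∀ 𝔮 : Ideal (𝓞 K), 𝔮.IsPrime → 𝔮 ≠ ⊥ → IsCoprime 𝔮 m → UnrAt H 𝔮)
    {q : Ideal (𝓞 K)} (hq : q.IsPrime) (hq0 : q ≠ ⊥) (hqm : IsCoprime q m) {φ : Gal(H/K)}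
    (hφ : HasArtinSymbol q φ) {σ : Gal(H/K)} {Z Z' : ℂ → ℂ} (hZ : IsPZ m σ Z)
    (hZ' : IsPZ m (σ * φ⁻¹) Z') :
    IsPZ (m * q) σ (fun s => Z s - (Ideal.absNorm q : ℂ) ^ (-s) * Z' s) := by
  have hNq : Ideal.absNorm q ≠ 0 := by
    rw [Ne, Ideal.absNorm_eq_zero_iff]
    exact hq0
  have hNqC : (Ideal.absNorm q : ℂ) ≠ 0 := by exact_mod_cast hNq
  refine ⟨?_, fun s hs => ?_⟩
  · refine hZ.1.sub (DifferentiableOn.mul ?_ hZ'.1)
    intro s _
    exact (differentiableAt_id.neg.const_cpow (Or.inl hNqC)).differentiableWithinAt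
  · have h1 := hasSum_mult hNq (fun n => (zcI m (σ * φ⁻¹) n : ℂ)) (summable_zcI m (σ * φ⁻¹) hs)
    have h2 : LSeriesSummable (fun n => if Ideal.absNorm q ∣ n then
        ((zcI m (σ * φ⁻¹) (n / Ideal.absNorm q) : ℕ) : ℂ) else 0) s := h1.summable
    have h3 : LSeries (fun n => if Ideal.absNorm q ∣ n then
        ((zcI m (σ * φ⁻¹) (n / Ideal.absNorm q) : ℕ) : ℂ) else 0) s =
        (Ideal.absNorm q : ℂ) ^ (-s) * LSeries (fun n => (zcI m (σ * φ⁻¹) n : ℂ)) s :=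
      h1.tsum_eq
    have h4 : LSeries (fun n => (zcI m σ n : ℂ)) s =
        LSeries (fun n => (zcI (m * q) σ n : ℂ)) s +
          (Ideal.absNorm q : ℂ) ^ (-s) * LSeries (fun n => (zcI m (σ * φ⁻¹) n : ℂ)) s := by
      rw [← h3, ← LSeries_add (summable_zcI (m * q) σ hs) h2]
      refine LSeries_congr (fun {n} hn => ?_) s
      rw [zcI_mul_prime hur hq hq0 hqm hφ σ hn, Pi.add_apply]
      push_cast
      rfl
    change Z s - (Ideal.absNorm q : ℂ) ^ (-s) * Z' s = _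
    rw [hZ.2 s hs, hZ'.2 s hs, h4]
    ring

/-- the derivative at `0` of the partial zeta function without the Euler factor at `q` -/
theorem deriv_mul_prime {m : Ideal (𝓞 K)}
    (hur : ∀ 𝔮 : Ideal (𝓞 K), 𝔮.IsPrime → 𝔮 ≠ ⊥ → IsCoprime 𝔮 m → UnrAt H 𝔮)
    {q : Ideal (𝓞 K)} (hq : q.IsPrime) (hq0 : q ≠ ⊥) (hqm : IsCoprime q m) {φ : Gal(H/K)}
    (hφ : HasArtinSymbol q φ) {σ : Gal(H/K)} {Z Z' W : ℂ → ℂ} (hZ : IsPZ m σ Z)
    (hZ' : IsPZ m (σ * φ⁻¹) Z') (h0 : Z' 0 = 0) (hW : IsPZ (m * q) σ W) :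
    deriv W 0 = deriv Z 0 - deriv Z' 0 := by
  have hNq : Ideal.absNorm q ≠ 0 := by
    rw [Ne, Ideal.absNorm_eq_zero_iff]
    exact hq0
  have hNqC : (Ideal.absNorm q : ℂ) ≠ 0 := by exact_mod_cast hNq
  have hopen : IsOpen ({1}ᶜ : Set ℂ) := isOpen_compl_singleton
  have hmem : (0 : ℂ) ∈ ({1}ᶜ : Set ℂ) := by simp
  rw [isPZ_deriv_unique hW (isPZ_mul_prime hur hq hq0 hqm hφ hZ hZ')]
  have hd : HasDerivAt Z (deriv Z 0) 0 := (hZ.1.differentiableAt (hopen.mem_nhds hmem)).hasDerivAt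
  have hd' : HasDerivAt Z' (deriv Z' 0) 0 :=
    (hZ'.1.differentiableAt (hopen.mem_nhds hmem)).hasDerivAt
  have hp : DifferentiableAt ℂ (fun s : ℂ => (Ideal.absNorm q : ℂ) ^ (-s)) 0 :=
    differentiableAt_id.neg.const_cpow (Or.inl hNqC)
  have h1 := (hd.sub (hp.hasDerivAt.mul hd')).deriv
  have h2 : deriv (fun s : ℂ => Z s - (Ideal.absNorm q : ℂ) ^ (-s) * Z' s) 0 =
      deriv Z 0 - (deriv (fun s : ℂ => (Ideal.absNorm q : ℂ) ^ (-s)) 0 * Z' 0 +
        (Ideal.absNorm q : ℂ) ^ (-(0 : ℂ)) * deriv Z' 0) := h1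
  rw [h2, h0, mul_zero, zero_add, neg_zero, Complex.cpow_zero, one_mul]

end Pool.Agent.SLow
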