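import Pool.Agent.SLow.AbSq

/-!
# The group of the `γ` for which the quotients `e σ / e (σ γ)` are given by units

`e : Gal(L/K) → ℂ` (in the application `e σ = exp (-2 ζ'(0, σ))`). `Good b i ι₂ e γ`: there are units
`r σ` of `L` with `i (r σ) = e σ / e (σ γ)`, permuted by `Gal(L/K)`, of absolute value `1` at the
embeddings over `ι₂` (and with square roots which are abelian over `K` if `b = true`).
-/

set_option autoImplicit false

noncomputable section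

open NumberField Module

namespace Pool.Agent.SLow

variable {K L : Type} [Field K] [NumberField K] [Field L] [NumberField L] [Algebra K L]

/-- the quotients `e σ / e (σ γ)` are given by units with all the required properties -/
def Good (b : Bool) (i : L →+* ℂ) (ι₂ : K →+* ℝ) (e : Gal(L/K) → ℂ) (γ : Gal(L/K)) : Prop :=
  ∃ r : Gal(L/K) → (𝓞 L)ˣ,
    (∀ σ, i ((r σ : 𝓞 L) : L) * e (σ * γ) = e σ) ∧
    (∀ ρ σ, ρ ((r σ : 𝓞 L) : L) = ((r (ρ * σ) : 𝓞 L) : L)) ∧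
    (∀ g : L →+* ℂ, (∀ x : K, g (algebraMap K L x) = ι₂ x) →
      ∀ σ, ‖g ((r σ : 𝓞 L) : L)‖ = 1) ∧
    (b = true → ∀ σ, AbSq K ((r σ : 𝓞 L) : L))

variable {b : Bool} {i : L →+* ℂ} {ι₂ : K →+* ℝ} {e : Gal(L/K) → ℂ}

theorem coe_units_mul (u v : (𝓞 L)ˣ) :
    (((u * v : (𝓞 L)ˣ) : 𝓞 L) : L) = ((u : 𝓞 L) : L) * ((v : 𝓞 L) : L) := by
  rw [Units.val_mul]
  rfl

theorem coe_units_inv (u : (𝓞 L)ˣ) :
    (((u⁻¹ : (𝓞 L)ˣ) : 𝓞 L) : L) = ((u : 𝓞 L) : L)⁻¹ := by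
  rw [eq_comm, inv_eq_iff_eq_inv, eq_comm]
  apply inv_eq_of_mul_eq_one_left
  rw [← coe_units_mul, mul_inv_cancel]
  rfl

theorem coe_units_ne (u : (𝓞 L)ˣ) : ((u : 𝓞 L) : L) ≠ 0 := by
  rw [Ne, RingOfIntegers.coe_eq_zero_iff]
  exact u.ne_zero

theorem coe_units_one : (((1 : (𝓞 L)ˣ) : 𝓞 L) : L) = 1 := rfl

theorem Good.one : Good b i ι₂ e (1 : Gal(L/K)) := by
  refine ⟨fun _ => 1, fun σ => ?_, fun ρ σ => ?_, fun g _ σ => ?_, fun _ σ => ?_⟩
  · rw [mul_one, coe_units_one, map_one, one_mul]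
  · rw [coe_units_one, map_one]
  · rw [coe_units_one, map_one, norm_one]
  · rw [coe_units_one]
    exact AbSq.one

theorem Good.mul {γ δ : Gal(L/K)} (h : Good b i ι₂ e γ) (h' : Good b i ι₂ e δ) :
    Good b i ι₂ e (γ * δ) := by
  obtain ⟨r, h1, h2, h3, h4⟩ := h
  obtain ⟨r', h1', h2', h3', h4'⟩ := h'
  refine ⟨fun σ => r σ * r' (σ * γ), fun σ => ?_, fun ρ σ => ?_, fun g hg σ => ?_,
    fun hb σ => ?_⟩
  · rw [coe_units_mul, map_mul, mul_assoc, ← mul_assoc σ γ δ, h1', h1]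
  · rw [coe_units_mul, coe_units_mul, map_mul, h2, h2', mul_assoc]
  · rw [coe_units_mul, map_mul, norm_mul, h3 g hg, h3' g hg, mul_one]
  · rw [coe_units_mul]
    exact (h4 hb σ).mul (h4' hb _)

theorem Good.inv (he : ∀ σ, e σ ≠ 0) {γ : Gal(L/K)} (h : Good b i ι₂ e γ) :
    Good b i ι₂ e γ⁻¹ := by
  obtain ⟨r, h1, h2, h3, h4⟩ := h
  refine ⟨fun σ => (r (σ * γ⁻¹))⁻¹, fun σ => ?_, fun ρ σ => ?_, fun g hg σ => ?_,
    fun hb σ => ?_⟩
  · have h5 := h1 (σ * γ⁻¹)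
    rw [inv_mul_cancel_right] at h5
    rw [coe_units_inv, map_inv₀, ← h5, inv_mul_cancel_left₀]
    rw [map_ne_zero]
    exact coe_units_ne _
  · rw [coe_units_inv, coe_units_inv, map_inv₀, h2, mul_assoc]
  · rw [coe_units_inv, map_inv₀, norm_inv, h3 g hg, inv_one]
  · rw [coe_units_inv]
    exact (h4 hb _).inv

/-- the group of the good elements -/
def goodSub (b : Bool) (i : L →+* ℂ) (ι₂ : K →+* ℝ) {e : Gal(L/K) → ℂ} (he : ∀ σ, e σ ≠ 0) :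
    Subgroup Gal(L/K) where
  carrier := {γ | Good b i ι₂ e γ}
  one_mem' := Good.one
  mul_mem' := Good.mul
  inv_mem' := fun {_} h => Good.inv he h

theorem mem_goodSub (he : ∀ σ, e σ ≠ 0) {γ : Gal(L/K)} :
    γ ∈ goodSub b i ι₂ he ↔ Good b i ι₂ e γ := Iff.rfl

end Pool.Agent.SLow
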