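import Pool.Agent.SLow.Defs
import Pool.Agent.SLow.Cont0
import Pool.Agent.HeckeM.Literal

/-!
# The partial zeta functions vanish at `0`

`exists_pz`: for `m ≠ 0, (1)` the partial zeta functions of `H/K` (modulus `m ∞₂`, without the Euler
factors at the primes dividing `m`) have continuations `Z σ` to `ℂ ∖ {1}` with `Z σ 0 = 0`, and there
is `R ∈ Gal(H/K)` with `ζ'(0, σ) + ζ'(0, R σ) = 0`.
-/

set_option autoImplicit false

noncomputable section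

open NumberField Module Pool.Agent.StarkRQ Pool.Agent.StarkU Pool.Agent.HeckeM

namespace Pool.Agent.SLow

private theorem hz_congr {a a' : ℕ → ℂ} {Z : ℂ → ℂ} (h : IsCont a Z)
    (haa : ∀ n, n ≠ 0 → a n = a' n) : IsCont a' Z where
  diff := h.diff
  summable := fun s hs => (LSeriesSummable_congr s fun {n} hn => haa n hn).1 (h.summable s hs)
  eq := fun s hs => (h.eq s hs).trans (LSeries_congr (fun {n} hn => haa n hn) s)

private theorem hz_smul {a : ℕ → ℂ} {Z : ℂ → ℂ} (h : IsCont a Z) (c : ℂ) :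
    IsCont (c • a) (fun s => c * Z s) where
  diff := h.diff.const_mul c
  summable := fun s hs => (h.summable s hs).smul c
  eq := fun s hs => by rw [h.eq s hs, LSeries_smul]

private theorem hz_sum0 {J : Type*} (S : Finset J) {a : J → ℕ → ℂ} (e : J → ℂ)
    (h : ∀ j ∈ S, ∃ Z, IsCont (a j) Z ∧ Z 0 = 0) :
    ∃ E, IsCont (fun n => ∑ j ∈ S, e j * a j n) E ∧ E 0 = 0 := by
  classical
  choose! Z hZ h0 using h
  refine ⟨_, hz_congr (IsCont.sum S (a := fun j => e j • a j) (Z := fun j s => e j * Z j s)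
    fun j hj => hz_smul (hZ j hj) (e j)) fun n _ => ?_, ?_⟩
  · simp [Finset.sum_apply]
  · exact Finset.sum_eq_zero fun j hj => by rw [h0 j hj, mul_zero]

/-- all partial zeta functions have a zero at `s = 0` -/
private theorem pz_zero {K H : Type} [Field K] [NumberField K] [Field H] [NumberField H]
    [Algebra K H] [IsAbelianGalois K H] (hK : finrank ℚ K = 2) {ι₁ ι₂ : K →+* ℝ} (hι : ι₁ ≠ ι₂)
    {m : Ideal (𝓞 K)} (hm : m ≠ ⊥) (h2m : (2 : 𝓞 K) ∉ m)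
    (hur : ∀ 𝔮 : Ideal (𝓞 K), 𝔮.IsPrime → 𝔮 ≠ ⊥ → IsCoprime 𝔮 m → UnrAt H 𝔮)
    (hmod : ∀ α : 𝓞 K, α - 1 ∈ m → 0 < ι₂ (α : K) →
      HasArtinSymbol (Ideal.span {α}) (1 : Gal(H/K)))
    {R : Gal(H/K)} (hRR : R * R = 1) (hR : ∀ α : 𝓞 K, α - 1 ∈ m → ι₂ (α : K) < 0 →
        HasArtinSymbol (Ideal.span {α}) R) (σ : Gal(H/K)) :
    ∃ Z, IsPZ m σ Z ∧ Z 0 = 0 := by
  obtain ⟨B, hB, hB'⟩ := exists_repsI hm
  -- the even part
  obtain ⟨E, hE1, hE0⟩ : ∃ E : ℂ → ℂ,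
      IsCont (fun n => (zcI m σ n : ℂ) + (zcI m (R * σ) n : ℂ)) E ∧ E 0 = 0 := by
    obtain ⟨e, he⟩ := zcI_even hur hmod hRR hR hB hB' σ
    obtain ⟨E, h1, h2⟩ := hz_sum0 B (a := fun 𝔟 n => (rcoefI ι₂ m 𝔟 0 n : ℂ))
      (fun 𝔟 => (e 𝔟 : ℂ)) (fun 𝔟 h𝔟 => by
        obtain ⟨W, hW, hW'⟩ := exists_cont_rcoefI0 hK hι hm h2m (hB 𝔟 h𝔟).1 (hB 𝔟 h𝔟).2
          (j := 0) zero_le_one (fun h => absurd h zero_ne_one)
        exact ⟨W, hW, hW'.1⟩)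
    refine ⟨E, hz_congr h1 fun n hn => ?_, h2⟩
    have h3 := congrArg (fun l : ℤ => (l : ℂ)) (he n hn)
    push_cast at h3
    exact h3.symm
  -- the odd part
  obtain ⟨O, hO1, hO0⟩ : ∃ O : ℂ → ℂ,
      IsCont (fun n => (zcI m σ n : ℂ) - (zcI m (R * σ) n : ℂ)) O ∧ O 0 = 0 := by
    by_cases hR1 : R = 1
    · refine ⟨_, hz_congr IsCont.zero fun n _ => ?_, ?_⟩
      · rw [hR1, one_mul, sub_self, Pi.zero_apply]
      · rfl
    · obtain ⟨e, he⟩ := zcI_odd hur hmod hRR hR hB hB' σ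
      obtain ⟨E, h1, h2⟩ := hz_sum0 B (a := fun 𝔟 n => (rcoefI ι₂ m 𝔟 1 n : ℂ))
        (fun 𝔟 => (e 𝔟 : ℂ)) (fun 𝔟 h𝔟 => by
          obtain ⟨W, hW, hW'⟩ := exists_cont_rcoefI0 hK hι hm h2m (hB 𝔟 h𝔟).1 (hB 𝔟 h𝔟).2
            (j := 1) le_rfl (fun _ u hu => unit_posM hur hR hR1 u hu)
          exact ⟨W, hW, hW'.1⟩)
      refine ⟨E, hz_congr h1 fun n hn => ?_, h2⟩
      have h3 := congrArg (fun l : ℤ => (l : ℂ)) (he n hn)
      push_cast at h3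
      exact h3.symm
  have h1 := hz_smul (hE1.add hO1) (1 / 2)
  have h2 := hz_congr (a' := fun n => (zcI m σ n : ℂ)) h1 fun n _ => by
    simp only [Pi.smul_apply, Pi.add_apply, smul_eq_mul]
    ring
  refine ⟨_, ⟨h2.diff, h2.eq⟩, ?_⟩
  simp only [hE0, hO0, add_zero, mul_zero]

/-- The partial zeta functions of `H/K`, their value at `0` and the relation between their
derivatives at `0`. -/
theorem exists_pz {K H : Type} [Field K] [NumberField K] [Field H] [NumberField H] [Algebra K H]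
    [IsAbelianGalois K H] (hK : finrank ℚ K = 2) {ι₁ ι₂ : K →+* ℝ} (hι : ι₁ ≠ ι₂)
    {m : Ideal (𝓞 K)} (h0 : m ≠ ⊥) (h1 : m ≠ ⊤)
    (hur : ∀ 𝔮 : Ideal (𝓞 K), 𝔮.IsPrime → 𝔮 ≠ ⊥ → IsCoprime 𝔮 m → UnrAt H 𝔮)
    (hmod : ∀ α : 𝓞 K, α - 1 ∈ m → 0 < ι₂ (α : K) →
      HasArtinSymbol (Ideal.span {α}) (1 : Gal(H/K))) :
    ∃ Z : Gal(H/K) → ℂ → ℂ, (∀ σ, IsPZ m σ (Z σ) ∧ Z σ 0 = 0) ∧
      ∃ R : Gal(H/K), ∀ σ, deriv (Z σ) 0 + deriv (Z (R * σ)) 0 = 0 := by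
  have h2 : (2 : 𝓞 K) ∉ m ^ 3 := by
    intro h
    have h2 : Ideal.absNorm (m ^ 3) ∣ Ideal.absNorm (Ideal.span {(2 : 𝓞 K)}) := by
      apply Ideal.absNorm_dvd_absNorm_of_le
      rw [Ideal.span_singleton_le_iff_mem]
      exact h
    have h3 : Ideal.absNorm (Ideal.span {(2 : 𝓞 K)}) = 4 := by
      rw [Ideal.absNorm_span_singleton]
      have h4 := Algebra.norm_algebraMap (R := ℤ) (S := 𝓞 K) (2 : ℤ)
      rw [RingOfIntegers.rank, hK] at h4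
      have h5 : (algebraMap ℤ (𝓞 K)) 2 = 2 := by simp
      rw [h5] at h4
      rw [h4]
      rfl
    rw [h3, map_pow] at h2
    have h6 : Ideal.absNorm m ≠ 0 := by
      rw [Ne, Ideal.absNorm_eq_zero_iff]
      exact h0
    have h7 : Ideal.absNorm m ≠ 1 := by
      rw [Ne, Ideal.absNorm_eq_one_iff]
      exact h1
    have h8 : 2 ≤ Ideal.absNorm m := by omega
    have h9 := Nat.le_of_dvd (by norm_num) h2
    have h10 : 2 ^ 3 ≤ Ideal.absNorm m ^ 3 := Nat.pow_le_pow_left h8 3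
    omega
  have hle : m ^ 3 ≤ m := Ideal.pow_le_self (by norm_num)
  have hur3 : ∀ 𝔮 : Ideal (𝓞 K), 𝔮.IsPrime → 𝔮 ≠ ⊥ → IsCoprime 𝔮 (m ^ 3) → UnrAt H 𝔮 :=
    fun 𝔮 h2 h3 h4 => hur 𝔮 h2 h3 ((IsCoprime.pow_right_iff (by norm_num)).1 h4)
  obtain ⟨R, hRR, hR⟩ := exists_RM (H := H) h0 hur hmod
  have hR3 : ∀ α : 𝓞 K, α - 1 ∈ m ^ 3 → ι₂ (α : K) < 0 →
      HasArtinSymbol (Ideal.span {α}) R := fun α h2 h3 => hR α (hle h2) h3
  have hmod3 : ∀ α : 𝓞 K, α - 1 ∈ m ^ 3 → 0 < ι₂ (α : K) →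
      HasArtinSymbol (Ideal.span {α}) (1 : Gal(H/K)) := fun α h2 h3 => hmod α (hle h2) h3
  have h3 : ∀ σ : Gal(H/K), ∃ Z, IsPZ (m ^ 3) σ Z ∧ Z 0 = 0 := fun σ =>
    pz_zero hK hι (pow_ne_zero 3 h0) h2 hur3 hmod3 hRR hR3 σ
  choose Z hZ hZ0 using h3
  obtain ⟨-, hsum⟩ := heckeM hK hι (pow_ne_zero 3 h0) h2 hur3 hmod3 hRR hR3
  refine ⟨Z, fun σ => ⟨(isPZ_pow m (by norm_num) σ _).1 (hZ σ), hZ0 σ⟩, R, fun σ => ?_⟩
  exact (hsum σ _ _ (hZ _) (hZ _)).2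

end Pool.Agent.SLow
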