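import Pool.Agent.HeckeRQ.Lam
import Pool.Agent.HeckeRQ.Unfold
import Pool.Agent.HeckeRQ.Orbits
import Pool.Agent.HeckeRQ.Beta

/-!
# The continuation, with its value at `0`

The same statement as `HeckeRQ.Lat.exists_D`, and moreover `D 0 = 0` for both parities `j`.
-/

set_option autoImplicit false

noncomputable section

open Set

namespace Pool.Agent.HeckeRQ

/-- a product with two differentiable factors vanishing at `0` has derivative zero at `0` -/
private theorem md_deriv {A g h : ℂ → ℂ} (hA : DifferentiableAt ℂ A 0)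
    (hg : DifferentiableAt ℂ g 0) (hh : DifferentiableAt ℂ h 0) (g0 : g 0 = 0) (h0 : h 0 = 0) :
    deriv (fun s => A s * g s * h s) 0 = 0 := by
  have h1 := ((hA.hasDerivAt.mul hg.hasDerivAt).mul hh.hasDerivAt).deriv
  have h2 : (fun s => A s * g s * h s) = A * g * h := by
    funext s
    simp [Pi.mul_apply]
  rw [h2, h1]
  simp [g0, h0]

private theorem md_congr {α β : Type*} [AddCommMonoid α] [TopologicalSpace α]
    {f g : β → α} {a : α} (h : HasSum f a) (hg : ∀ b, g b = f b) : HasSum g a := by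
  rwa [funext hg]

private theorem md_diff (a : ℂ) : Differentiable ℂ (fun s : ℂ => (Complex.Gamma ((s + a) / 2))⁻¹) := by
  have h := Complex.differentiable_one_div_Gamma
  exact h.comp (by fun_prop)

theorem Lat.exists_D0 (L : Lat) {v w : ℝ} (h0 : ∀ p, L.fst p + v ≠ 0 ∧ L.snd p + w ≠ 0) {j : ℕ}
    (hj : j ≤ 1) {η : ℝ} (hη : 1 < η) (ρ : Equiv.Perm (ℤ × ℤ)) {κ : ℝ} (hκ : κ ^ 2 = 1)
    (hκj : κ ^ j = 1) (h1 : ∀ p, (L.fst (ρ p) + v) ^ 2 = η ^ 2 * (L.fst p + v) ^ 2)
    (h2 : ∀ p, L.snd (ρ p) + w = κ * η⁻¹ * (L.snd p + w)) :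
    ∃ D : ℂ → ℂ, DifferentiableOn ℂ D {1}ᶜ ∧ (D 0 = 0 ∧ (j = 0 → deriv D 0 = 0)) ∧
      ∀ s : ℂ, 1 < s.re → HasSum (fun p : {p : ℤ × ℤ // |L.fst p + v| ≤ |L.snd p + w| ∧
          |L.snd p + w| < η ^ 2 * |L.fst p + v|} =>
        ((SignType.sign (L.snd p + w) : ℤ) : ℂ) ^ j *
          ((|(L.fst p + v) * (L.snd p + w)| : ℝ) : ℂ) ^ (-s)) (D s) := by
  have h0' : ∀ p, L.fst p + v ≠ 0 ∨ L.snd p + w ≠ 0 := fun p => Or.inl (h0 p).1
  have hU : 1 < η ^ 2 := one_lt_pow₀ hη two_ne_zero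
  obtain ⟨Λ, hΛ, hM⟩ := L.exists_Lam h0' hj hU
  have hpi : (Real.pi : ℂ) ≠ 0 := by exact_mod_cast Real.pi_ne_zero
  have hA : ∀ s : ℂ, s ≠ 1 → DifferentiableAt ℂ
      (fun s : ℂ => 2 * (Real.pi : ℂ) ^ (s + (j : ℂ) / 2) * Λ (s + (j : ℂ) / 2)) s := by
    intro s hs
    refine DifferentiableAt.mul ?_ ?_
    · refine DifferentiableAt.mul (by fun_prop) ?_
      exact DifferentiableAt.const_cpow (by fun_prop) (Or.inl hpi)
    · refine DifferentiableAt.comp (g := Λ) (f := fun s : ℂ => s + (j : ℂ) / 2) s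
        (hΛ (s + (j : ℂ) / 2) ?_) (by fun_prop)
      rcases Nat.le_one_iff_eq_zero_or_eq_one.1 hj with rfl | rfl
      · right
        simpa using hs
      · left
        rfl
  refine ⟨fun s => 2 * (Real.pi : ℂ) ^ (s + (j : ℂ) / 2) * Λ (s + (j : ℂ) / 2) *
    (Complex.Gamma ((s + 0) / 2))⁻¹ * (Complex.Gamma ((s + j) / 2))⁻¹, ?_, ?_, ?_⟩
  · intro s hs
    exact (((hA s hs).mul (md_diff 0 s)).mul (md_diff j s)).differentiableWithinAt
  · constructor
    · simp
    · rintro rfl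
      refine md_deriv (hA 0 zero_ne_one) (md_diff 0 0) (md_diff _ 0) ?_ ?_
      · simp
      · simp
  · intro s hs
    have hs0 : 0 < s.re := by linarith
    have e1 := L.hasSum_mellin h0' hj hU hs
    have e2 := hasSum_orbits (al := fun p => L.fst p + v) (be := fun p => L.snd p + w) h0 hη ρ hκ
      hκj h1 h2 hs0 e1
    set c : ℂ := Complex.Gamma (s / 2) * Complex.Gamma ((s + j) / 2) /
          (2 * Complex.Gamma (s + (j : ℂ) / 2)) with hc
    have g1 : Complex.Gamma (s / 2) ≠ 0 := by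
      refine Complex.Gamma_ne_zero_of_re_pos ?_
      have : (s / 2).re = s.re / 2 := by simp
      rw [this]
      linarith
    have g2 : Complex.Gamma ((s + j) / 2) ≠ 0 := by
      refine Complex.Gamma_ne_zero_of_re_pos ?_
      have : ((s + j) / 2).re = (s.re + j) / 2 := by simp
      rw [this]
      positivity
    have g3 : Complex.Gamma (s + (j : ℂ) / 2) ≠ 0 := by
      refine Complex.Gamma_ne_zero_of_re_pos ?_
      have : (s + (j : ℂ) / 2).re = s.re + j / 2 := by simp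
      rw [this]
      positivity
    have hc0 : c ≠ 0 := by
      rw [hc]
      exact div_ne_zero (mul_ne_zero g1 g2) (mul_ne_zero two_ne_zero g3)
    have e3 := e2.mul_right c⁻¹
    have e4 : mellin (L.Phi j v w (η ^ 2)) (s + (j : ℂ) / 2) = Λ (s + (j : ℂ) / 2) := by
      refine (hM (s + (j : ℂ) / 2) ?_).2
      have : (s + (j : ℂ) / 2).re = s.re + j / 2 := by simp
      rw [this]
      linarith
    have e5 : mellin (L.Phi j v w (η ^ 2)) (s + (j : ℂ) / 2) * (Real.pi : ℂ) ^ (s + (j : ℂ) / 2) /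
        Complex.Gamma (s + (j : ℂ) / 2) * c⁻¹ = 2 * (Real.pi : ℂ) ^ (s + (j : ℂ) / 2) *
        Λ (s + (j : ℂ) / 2) * (Complex.Gamma ((s + 0) / 2))⁻¹ *
          (Complex.Gamma ((s + j) / 2))⁻¹ := by
      rw [e4, hc, add_zero]
      generalize Complex.Gamma (s + (j : ℂ) / 2) = G at g3 ⊢
      generalize Complex.Gamma (s / 2) = G₁ at g1 ⊢
      generalize Complex.Gamma ((s + j) / 2) = G₂ at g2 ⊢
      generalize Λ (s + (j : ℂ) / 2) = Y
      generalize (Real.pi : ℂ) ^ (s + (j : ℂ) / 2) = P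
      field_simp
    rw [e5] at e3
    refine md_congr e3 fun p => ?_
    rw [integral_fJ hj (h0 p).1 (h0 p).2 hs0, ← hc, mul_inv_cancel_right₀ hc0]

end Pool.Agent.HeckeRQ
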