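import Pool.Agent.SLow.Up1

/-!
# The modulus of a subfield of a cyclotomic extension
-/

set_option autoImplicit false

noncomputable section

open NumberField Module Pool.Agent.StarkRQ Pool.Agent.StarkU Pool.Agent.HeckeM

namespace Pool.Agent.SLow

/-! ## The modulus -/

theorem up_hur {K H : Type} [Field K] [NumberField K] [Field H] [NumberField H]
    [Algebra K H] {ι₁ ι₂ : K →+* ℝ} {m : Ideal (𝓞 K)} {i : H →+* ℂ} (h : InRay ι₁ ι₂ m i)
    {𝔮 : Ideal (𝓞 K)} (h0 : 𝔮 ≠ ⊥) (hm : IsCoprime 𝔮 m) : UnrAt H 𝔮 := by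
  intro Q hQ hQ𝔮
  have h1 : Q ≠ ⊥ := by
    rintro rfl
    refine h0 (hQ𝔮.symm.trans ?_)
    exact Ideal.comap_bot_of_injective _ (RingOfIntegers.algebraMap.injective K H)
  have h2 := h.hunr Q hQ h1
  rw [hQ𝔮] at h2
  exact h2 hm

theorem up_root_pow {M : Type} [Field M] {n : ℕ} {ζ : M}
    (hζ : IsPrimitiveRoot ζ (2 ^ n)) {a : ℤ} (h : ((2 ^ n : ℕ) : ℤ) ∣ a - 1) :
    ζ ^ a.natAbs = ζ ∨ ζ ^ a.natAbs = ζ⁻¹ := by
  have hne : ζ ≠ 0 := hζ.ne_zero (by positivity)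
  have h1 : ζ ^ a = ζ := by
    have h2 := (hζ.zpow_eq_one_iff_dvd (a - 1)).2 h
    rw [zpow_sub₀ hne, zpow_one, div_eq_one_iff_eq hne] at h2
    exact h2
  rcases Int.natAbs_eq a with h2 | h2
  · left
    rw [← zpow_natCast, ← h2]
    exact h1
  · right
    have h3 : ((a.natAbs : ℕ) : ℤ) = -a := by omega
    rw [← zpow_natCast, h3, zpow_neg, h1]

section main

variable {K H L : Type} [Field K] [NumberField K] [Field H] [NumberField H] [Field L]
  [NumberField L] [Algebra K H] [Algebra K L] [Algebra H L] [IsScalarTower K H L]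
  [IsAbelianGalois K H] [IsAbelianGalois K L]

section field

variable {E : Type} [Field E] [NumberField E] [Algebra K E] [Algebra E L] [IsScalarTower K E L]
  [IsAbelianGalois K E]

theorem up_mod {n : ℕ} (hn : 1 ≤ n) [IsCyclotomicExtension {2 ^ n} H L] {ι₁ ι₂ : K →+* ℝ}
    {m : Ideal (𝓞 K)} {i : H →+* ℂ} (h : InRay ι₁ ι₂ m i) {c : Gal(L/H)}
    {ζ : L} (hζ : IsPrimitiveRoot ζ (2 ^ n)) (hc : c ζ = ζ⁻¹)
    (hE : ∀ x : E, c (algebraMap E L x) = algebraMap E L x) {α : 𝓞 K} (hα : α - 1 ∈ Ideal.span {(2 : 𝓞 K)} ^ n * m)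
    (hpos : 0 < ι₂ (α : K)) : HasArtinSymbol (Ideal.span {α}) (1 : Gal(E/K)) := by
  have hne : NeZero (2 ^ n) := ⟨by positivity⟩
  have hα0 : α ≠ 0 := by
    rintro rfl
    simp at hpos
  have hs0 : Ideal.span {α} ≠ ⊥ := by
    rw [Ne, Ideal.span_singleton_eq_bot]
    exact hα0
  obtain ⟨σ, hσ⟩ := artU_exists (M := L) hs0
  have hm1 : α - 1 ∈ m := Ideal.mul_le_right hα
  have h1 : AlgEquiv.restrictNormalHom H σ = 1 :=
    artM_unique (fun 𝔮 _ hq0 hqm => up_hur h hq0 hqm) hs0 (isCoprime_span_one hm1)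
      (CMR.hasArtin_restrict (M := H) hσ) (h.hmod α hm1 hpos)
  have h4 : ∀ x : H, σ (algebraMap H L x) = algebraMap H L x := by
    intro x
    have h5 := AlgEquiv.restrictNormal_commutes σ H x
    have h6 : σ.restrictNormal H = 1 := h1
    rw [h6] at h5
    exact h5.symm
  have hdvd : ((2 ^ n : ℕ) : 𝓞 K) ∣ α - 1 := by
    have h2 := Ideal.mul_le_left hα
    rw [Ideal.span_singleton_pow, Ideal.mem_span_singleton] at h2
    rw [Nat.cast_pow, Nat.cast_ofNat]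
    exact h2
  have hnorm := CMR.norm_congr_one hdvd
  have hodd : Odd (Algebra.norm ℤ α) := by
    have h2 : (2 : ℤ) ∣ Algebra.norm ℤ α - 1 := by
      refine dvd_trans ?_ hnorm
      rw [Nat.cast_pow, Nat.cast_ofNat]
      exact dvd_pow_self 2 (by omega)
    obtain ⟨d, hd⟩ := h2
    exact ⟨d, by omega⟩
  have hN : Ideal.absNorm (Ideal.span {α}) = (Algebra.norm ℤ α).natAbs :=
    Ideal.absNorm_span_singleton α
  have hcop : (Ideal.absNorm (Ideal.span {α})).Coprime (2 ^ n) := by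
    rw [hN]
    exact Nat.Coprime.pow_right n (Nat.coprime_two_right.2 (Int.natAbs_odd.2 hodd))
  have h5 := CMG.artin_root hσ hne.out hcop hζ.pow_eq_one
  rw [hN] at h5
  let t : Gal(L/H) := AlgEquiv.ofRingEquiv (f := σ.toRingEquiv) h4
  have ht : t = 1 ∨ t = c := by
    rcases up_root_pow hζ hnorm with h6 | h6
    · left
      exact up_ext hζ t 1 (h5.trans h6)
    · right
      exact up_ext hζ t c ((h5.trans h6).trans hc.symm)
  have h7 : ∀ x : E, σ (algebraMap E L x) = algebraMap E L x := by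
    intro x
    rcases ht with ht | ht
    · exact DFunLike.congr_fun ht (algebraMap E L x)
    · exact (DFunLike.congr_fun ht (algebraMap E L x)).trans (hE x)
  have h8 : AlgEquiv.restrictNormalHom E σ = 1 := by
    ext x
    have h9 := AlgEquiv.restrictNormal_commutes σ E x
    exact (algebraMap E L).injective (h9.trans (h7 x))
  have h9 := CMR.hasArtin_restrict (M := E) hσ
  rwa [h8] at h9

omit [IsAbelianGalois K E] in
theorem up_ram {n : ℕ} (hn : 1 ≤ n) [IsCyclotomicExtension {2 ^ n} H L] {ι₁ ι₂ : K →+* ℝ}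
    {m : Ideal (𝓞 K)} {i : H →+* ℂ} (h : InRay ι₁ ι₂ m i)
    {𝔓 : Ideal (𝓞 E)} (hP : 𝔓.IsPrime) (hP0 : 𝔓 ≠ ⊥)
    (hcop : IsCoprime (𝔓.comap (algebraMap (𝓞 K) (𝓞 E))) (Ideal.span {(2 : 𝓞 K)} ^ n * m)) :
    ¬ 𝔓 ^ 2 ∣ (𝔓.comap (algebraMap (𝓞 K) (𝓞 E))).map (algebraMap (𝓞 K) (𝓞 E)) := by
  intro hdvd
  have hq : (𝔓.comap (algebraMap (𝓞 K) (𝓞 E))).IsPrime := Ideal.comap_isPrime _ _
  have hq0 : 𝔓.comap (algebraMap (𝓞 K) (𝓞 E)) ≠ ⊥ := by
    obtain ⟨x, hx, hx0⟩ := 𝔓.ne_bot_iff.1 hP0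
    exact Ideal.comap_ne_bot_of_integral_mem hx0 hx (Algebra.IsIntegral.isIntegral x)
  have hqm := hcop.of_mul_right_right
  have h2 : (2 : 𝓞 K) ∉ 𝔓.comap (algebraMap (𝓞 K) (𝓞 E)) := by
    intro h2
    have h3 : IsCoprime (𝔓.comap (algebraMap (𝓞 K) (𝓞 E))) (Ideal.span {(2 : 𝓞 K)}) :=
      (IsCoprime.pow_right_iff (by omega)).1 hcop.of_mul_right_left
    rw [Ideal.isCoprime_iff_sup_eq, sup_eq_left.2 ((Ideal.span_singleton_le_iff_mem _).2 h2)] at h3
    exact hq.ne_top h3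
  have hGE : IsGalois E L := IsGalois.tower_top_of_isGalois K E L
  obtain ⟨Q, hQ, hQP⟩ := exists_over (M := L) 𝔓
  refine up_unrAt (L := L) (n := n) hq hq0 h2 (up_hur h hq0 hqm) Q hQ ?_ ?_
  · rw [up_algebraMap (K := K) (H := E) (L := L), ← Ideal.comap_comap, hQP]
  · rw [up_algebraMap (K := K) (H := E) (L := L), ← Ideal.map_map]
    rw [Ideal.dvd_iff_le] at hdvd ⊢
    refine (Ideal.map_mono hdvd).trans ?_
    rw [Ideal.map_pow]
    refine Ideal.pow_right_mono ?_ 2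
    rw [Ideal.map_le_iff_le_comap, hQP]

end field

end main

end Pool.Agent.SLow
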