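import Pool.Agent.SLow.Defs
import Pool.Agent.HeckeM.CoeffR
import Pool.Agent.StarkRQ.Cyclo
import Pool.Agent.CMR.Mod
import Pool.Agent.SLow.Up2

/-!
# A real extension of degree divisible by `4` in the tower `2^k m`

`L = CyclotomicField (2^n) H`, `n` large, `ζ ∈ L` a primitive root of unity of order `2^n`.
`IsAbelianGalois K L`: `StarkRQ.isAbelianGalois_cyclotomic`. `[L : H]` divides `φ(2^n) = 2^(n-1)`
(e.g. `Gal(L/H)` embeds in `(ZMod (2^n))ˣ`, `IsCyclotomicExtension`), so it is a power of `2`; and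
`2^(n-1) = [ℚ(ζ) : ℚ] ≤ [L : ℚ] = [L : H] [H : ℚ]`, so `8 ∣ [L : H]` for `n` large. Extend `i` to
`I : L → ℂ`. As `i(H)` is real, complex conjugation maps `I(L) = i(H)(I ζ)` to itself: there is
`c ∈ Gal(L/H)` with `I (c x) = conj (I x)`, `c ζ = ζ⁻¹`, `c² = 1`, `c ≠ 1`. Let `H'` be the field
fixed by `c` (`IntermediateField.fixedField`), `[L : H'] = 2`, so `4 ∣ [H' : H]`; `H'` is real
under `I`; `H'/K` is abelian (`IsAbelianGalois.tower_bot`).

Modulus `2^k m`, `k = n`: let `α ≡ 1` modulo `2^k m`, `ι₂ α > 0`. Let `σ ∈ Gal(L/K)` be an Artin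
symbol of `(α)` (`StarkU.artU_exists`). `σ` is trivial on `H` (`CMR.hasArtin_restrict`, `artM_iff`,
`h.hmod`; `2^k m ≤ m`). `σ ζ = ζ ^ N((α))` (`CMG.artin_root`, `N((α))` is odd), and
`N((α)) = |N_{K/ℚ}(α)| ≡ ± 1` modulo `2^k` (`CMR.norm_congr_one`), so `σ ζ = ζ` or `ζ⁻¹` and `σ = 1`
or `σ = c` (an element of `Gal(L/H)` is determined by its value at `ζ`). So `σ` is trivial on `H'`,
and its restriction to `H'` is an Artin symbol of `(α)` in `H'` (`CMR.hasArtin_restrict`).

Unramified: let `𝔓` be a prime of `H'` over `𝔮`, `𝔮` prime to `2^k m`, so `𝔮` is prime to `m`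
(unless `m` is prime to all primes over `2`, which is impossible by `h2`; in any case `2 ∉ 𝔮`).
`H/K` is unramified at `𝔮`, and `L/H` is unramified outside `2` (e.g. inertia groups: an element of
the inertia group of a prime `Q` of `L` over `𝔮` is trivial on `H` as `H/K` is unramified at `𝔮`
(`StarkU.inertia_eq_one` for `H/K`), and `ζ^a ≡ ζ` modulo `Q` implies `ζ^a = ζ` as `2 ∉ Q`; so it is
trivial). Then use that the ramification index of `𝔓` over `𝔮` is the order of its inertia group,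
or divides the one of `Q`.
-/

set_option autoImplicit false

noncomputable section

open NumberField Module Pool.Agent.StarkRQ Pool.Agent.StarkU Pool.Agent.HeckeM

namespace Pool.Agent.SLow

private theorem up_field (K H : Type) [Field K] [NumberField K] [Field H] [NumberField H]
    [Algebra K H] (n : ℕ) :
    ∃ (L : Type) (_ : Field L) (_ : NumberField L) (_ : Algebra K L) (_ : Algebra H L)
      (_ : IsScalarTower K H L), IsCyclotomicExtension {2 ^ n} H L := by
  have hne : NeZero (2 ^ n) := ⟨by positivity⟩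
  exact ⟨CyclotomicField (2 ^ n) H, inferInstance, IsCyclotomicExtension.numberField {2 ^ n} H _,
    inferInstance, inferInstance, inferInstance, inferInstance⟩

private theorem up_core {K H L : Type} [Field K] [NumberField K] [Field H] [NumberField H]
    [Field L] [NumberField L] [Algebra K H] [Algebra K L] [Algebra H L] [IsScalarTower K H L]
    [IsAbelianGalois K H] [IsAbelianGalois K L] {n : ℕ} (hn : 4 + finrank ℚ H ≤ n)
    [IsCyclotomicExtension {2 ^ n} H L] {ι₁ ι₂ : K →+* ℝ} {m : Ideal (𝓞 K)} {i : H →+* ℂ}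
    (h : InRay ι₁ ι₂ m i) :
    ∃ (E : IntermediateField H L) (_ : IsAbelianGalois K E) (I : E →+* ℂ),
      (∀ x : H, I (algebraMap H E x) = i x) ∧
      InRay ι₁ ι₂ (Ideal.span {(2 : 𝓞 K)} ^ n * m) I ∧ 4 ∣ finrank H E := by
  have hne : NeZero (2 ^ n) := ⟨by positivity⟩
  have hG : IsGalois H L := IsGalois.tower_top_of_isGalois K H L
  obtain ⟨ζ, hζ⟩ := IsCyclotomicExtension.exists_isPrimitiveRoot H L
    (Set.mem_singleton (2 ^ n)) hne.out
  obtain ⟨I, c, hI, hc⟩ := up_conj (L := L) i h.hreal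
  have hcc : c * c = 1 := by
    ext x
    apply I.injective
    change I (c (c x)) = I x
    rw [hc, hc, Complex.conj_conj]
  have hcζ : c ζ = ζ⁻¹ := by
    apply I.injective
    have h1 : ‖I ζ‖ = 1 := Complex.norm_eq_one_of_pow_eq_one
      (by rw [← map_pow, hζ.pow_eq_one, map_one]) hne.out
    rw [hc, map_inv₀, Complex.inv_eq_conj h1]
  have hc1 : c ≠ 1 := by
    rintro rfl
    have h1 : ζ = ζ⁻¹ := hcζ
    have hz0 : ζ ≠ 0 := hζ.ne_zero hne.out
    have h2 : ζ ^ 2 = 1 := by
      rw [sq]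
      nth_rewrite 2 [h1]
      exact mul_inv_cancel₀ hz0
    have h3 := Nat.le_of_dvd (by norm_num) (hζ.dvd_of_pow_eq_one 2 h2)
    have h4 : 2 ^ 2 ≤ 2 ^ n := Nat.pow_le_pow_right (by norm_num) (by omega)
    omega
  let E : IntermediateField H L := IntermediateField.fixedField (Subgroup.zpowers c)
  have hmem : ∀ x : E, c (x : L) = x := fun x => x.2 ⟨c, Subgroup.mem_zpowers c⟩
  have hT : IsScalarTower K E L := IsScalarTower.of_algebraMap_eq fun x => by
    rw [IsScalarTower.algebraMap_apply K H L, IsScalarTower.algebraMap_apply K H E]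
    rfl
  have hA : IsAbelianGalois K E := IsAbelianGalois.tower_bot K E L
  have hord : orderOf c = 2 := orderOf_eq_prime (by rw [sq, hcc]) hc1
  have hE2 : finrank E L = 2 := by
    rw [IntermediateField.finrank_fixedField_eq_card, Nat.card_zpowers, hord]
  have h8 : 8 ∣ finrank H L := up_deg hn
  have h4 : 4 ∣ finrank H E := by
    have h1 : finrank H E * finrank E L = finrank H L := Module.finrank_mul_finrank H E L
    rw [hE2] at h1
    omega
  refine ⟨E, hA, I.comp (algebraMap E L), fun x => ?_, ⟨fun y => ?_, fun x => ?_, ?_, ?_⟩, h4⟩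
  · change I (algebraMap H L x) = i x
    exact hI x
  · have h1 : (starRingEnd ℂ) (I (y : L)) = I (y : L) := by
      rw [← hc, hmem]
    exact Complex.conj_eq_iff_im.1 h1
  · change I (algebraMap K L x) = ι₁ x
    rw [IsScalarTower.algebraMap_apply K H L, hI, h.hover]
  · intro 𝔓 hP hP0 hcop
    exact up_ram (H := H) (L := L) (n := n) (by omega) h hP hP0 hcop
  · intro α hα hpos
    exact up_mod (H := H) (L := L) (n := n) (by omega) h hζ hcζ hmem hα hpos

theorem exists_up {K H : Type} [Field K] [NumberField K] [Field H] [NumberField H] [Algebra K H]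
    [IsAbelianGalois K H] {ι₁ ι₂ : K →+* ℝ} {m : Ideal (𝓞 K)} (h0 : m ≠ ⊥)
    (h2 : ∀ 𝔭 : Ideal (𝓞 K), 𝔭.IsPrime → (2 : 𝓞 K) ∈ 𝔭 → m ≤ 𝔭) {i : H →+* ℂ}
    (h : InRay ι₁ ι₂ m i) :
    ∃ (k : ℕ) (L : Type) (_ : Field L) (_ : NumberField L) (_ : Algebra K L) (_ : Algebra H L)
      (_ : IsScalarTower K H L) (_ : IsAbelianGalois K L) (I : L →+* ℂ),
      (∀ x : H, I (algebraMap H L x) = i x) ∧
      InRay ι₁ ι₂ (Ideal.span {(2 : 𝓞 K)} ^ k * m) I ∧ 4 ∣ finrank H L := by
  obtain ⟨L, _, _, _, _, _, _⟩ := up_field K H (4 + finrank ℚ H)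
  have hne : NeZero (2 ^ (4 + finrank ℚ H)) := ⟨by positivity⟩
  have hA : IsAbelianGalois K L := isAbelianGalois_cyclotomic K H (2 ^ (4 + finrank ℚ H)) L
  obtain ⟨E, hE, I, h1, h3, h4⟩ := up_core (L := L) (n := 4 + finrank ℚ H) le_rfl h
  exact ⟨4 + finrank ℚ H, E, inferInstance, inferInstance, inferInstance, inferInstance,
    inferInstance, hE, I, h1, h3, h4⟩

end Pool.Agent.SLow
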