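import Pool.Agent.SLow.Hecke0
import Pool.Agent.SLow.Euler
import Pool.Agent.SLow.Core
import Pool.Agent.SLow.CoreSq
import Pool.Agent.SLow.Up
import Pool.Agent.SLow.Dens

/-!
# Removing a prime from `S`
-/

set_option autoImplicit false

noncomputable section

open NumberField Module Pool.Agent.StarkRQ Pool.Agent.StarkU Pool.Agent.HeckeM

namespace Pool.Agent.SLow

section basics

variable {K H : Type} [Field K] [NumberField K] [Field H] [NumberField H] [Algebra K H]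

omit [NumberField H] in
theorem InRay.mono {ι₁ ι₂ : K →+* ℝ} {m m' : Ideal (𝓞 K)} {i : H →+* ℂ} (h : InRay ι₁ ι₂ m i)
    (hm : m' ≤ m) : InRay ι₁ ι₂ m' i where
  hreal := h.hreal
  hover := h.hover
  hunr := fun 𝔓 h1 h2 h3 => h.hunr 𝔓 h1 h2 (by
    rw [Ideal.isCoprime_iff_sup_eq] at h3 ⊢
    exact top_le_iff.1 (h3.symm.le.trans (sup_le_sup_left hm _)))
  hmod := fun α h1 h2 => h.hmod α (hm h1) h2

theorem InRay.unrAt {ι₁ ι₂ : K →+* ℝ} {m : Ideal (𝓞 K)} {i : H →+* ℂ} (h : InRay ι₁ ι₂ m i) :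
    ∀ 𝔮 : Ideal (𝓞 K), 𝔮.IsPrime → 𝔮 ≠ ⊥ → IsCoprime 𝔮 m → UnrAt H 𝔮 := by
  intro 𝔮 h𝔮 h𝔮0 hc Q hQ hQ𝔮
  have hQ0 : Q ≠ ⊥ := by
    rintro rfl
    apply h𝔮0
    rw [← hQ𝔮]
    exact Ideal.comap_bot_of_injective _ (RingOfIntegers.algebraMap.injective K H)
  have h2 := h.hunr Q hQ hQ0 (by rw [hQ𝔮]; exact hc)
  rwa [hQ𝔮] at h2

omit [NumberField K] in
/-- a prime not containing `m` is prime to `m` -/
theorem coprime_of_not_le {m q : Ideal (𝓞 K)} (hq : q.IsMaximal) (h : ¬ m ≤ q) :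
    IsCoprime q m := by
  rw [Ideal.isCoprime_iff_sup_eq]
  by_contra hne
  have h1 : q = q ⊔ m := hq.eq_of_le hne le_sup_left
  exact h (by rw [h1]; exact le_sup_right)

omit [NumberField K] in
/-- prime to `m` and to `2^k m` is the same if all primes over `2` divide `m` -/
theorem coprime_two {m : Ideal (𝓞 K)}
    (h2 : ∀ 𝔭 : Ideal (𝓞 K), 𝔭.IsPrime → (2 : 𝓞 K) ∈ 𝔭 → m ≤ 𝔭) (k : ℕ) (a : Ideal (𝓞 K)) :
    IsCoprime a (Ideal.span {(2 : 𝓞 K)} ^ k * m) ↔ IsCoprime a m := by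
  constructor
  · intro h
    exact h.of_mul_right_right
  · intro h
    refine IsCoprime.mul_right (IsCoprime.pow_right ?_) h
    rw [Ideal.isCoprime_iff_sup_eq] at h ⊢
    by_contra hne
    obtain ⟨𝔭, h𝔭, hle⟩ := Ideal.exists_le_maximal _ hne
    have h3 : (2 : 𝓞 K) ∈ 𝔭 := hle (Ideal.mem_sup_right (Ideal.mem_span_singleton_self 2))
    have h4 := h2 𝔭 h𝔭.isPrime h3
    have h5 : a ⊔ m ≤ 𝔭 := sup_le (le_sup_left.trans hle) h4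
    rw [h] at h5
    exact h𝔭.ne_top (top_le_iff.1 h5)

omit [NumberField H] in
theorem isPZ_two {m : Ideal (𝓞 K)}
    (h2 : ∀ 𝔭 : Ideal (𝓞 K), 𝔭.IsPrime → (2 : 𝓞 K) ∈ 𝔭 → m ≤ 𝔭) (k : ℕ) (σ : Gal(H/K))
    (Z : ℂ → ℂ) : IsPZ (Ideal.span {(2 : 𝓞 K)} ^ k * m) σ Z ↔ IsPZ m σ Z := by
  have h : ∀ n, zcI (Ideal.span {(2 : 𝓞 K)} ^ k * m) σ n = zcI m σ n := by
    intro n
    unfold zcI
    refine Nat.card_congr (Equiv.subtypeEquivRight fun a => ?_)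
    rw [coprime_two h2]
  unfold IsPZ
  simp only [h]

end basics

section step

variable {K H : Type} [Field K] [NumberField K] [Field H] [NumberField H] [Algebra K H]
  [IsAbelianGalois K H]

/-- the Stark units for `m q` give the quotients `e σ / e (σ φ⁻¹)` -/
theorem good_of_stark {b : Bool} {i : H →+* ℂ} {ι₂ : K →+* ℝ} {m : Ideal (𝓞 K)}
    (hur : ∀ 𝔮 : Ideal (𝓞 K), 𝔮.IsPrime → 𝔮 ≠ ⊥ → IsCoprime 𝔮 m → UnrAt H 𝔮)
    {Z : Gal(H/K) → ℂ → ℂ} (hZ : ∀ σ, IsPZ m σ (Z σ) ∧ Z σ 0 = 0)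
    {q : Ideal (𝓞 K)} (hq : q.IsPrime) (hq0 : q ≠ ⊥) (hqm : IsCoprime q m) {φ : Gal(H/K)}
    (hφ : HasArtinSymbol q φ) (h : StarkFor b 1 ι₂ (m * q) i) :
    Good b i ι₂ (fun σ => Complex.exp (-2 * deriv (Z σ) 0)) φ⁻¹ := by
  obtain ⟨W, ε, h1, h2, h3, h4⟩ := h
  refine ⟨ε, fun σ => ?_, h2, h3, fun hb σ => ?_⟩
  · obtain ⟨h5, h6⟩ := h1 σ
    have h7 := deriv_mul_prime hur hq hq0 hqm hφ (hZ σ).1 (hZ (σ * φ⁻¹)).1 (hZ (σ * φ⁻¹)).2 h5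
    rw [h6, h7, ← Complex.exp_add]
    congr 1
    push_cast
    ring
  · obtain ⟨E, i1, i2, i3, i4, i5, h5⟩ := h4 hb
    obtain ⟨y, hy⟩ := h5 σ
    exact AbSq.of_field hy

end step

end Pool.Agent.SLow
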