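import Pool.Agent.SLow.Defs
import Pool.Agent.HeckeM.CoeffR
import Pool.Agent.StarkRQ.Cyclo
import Pool.Agent.CMR.Mod

/-!
# A real extension of degree divisible by `4` in the tower `2^k m`

`L = CyclotomicField (2^n) H`, `n` large, `ζ ∈ L` a primitive root of unity of order `2^n`.
`IsAbelianGalois K L`: `StarkRQ.isAbelianGalois_cyclotomic`. `[L : H]` divides `φ(2^n) = 2^(n-1)`
(e.g. `Gal(L/H)` embeds in `(ZMod (2^n))ˣ`, `IsCyclotomicExtension`), so it is a power of `2`; and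
`2^(n-1) = [ℚ(ζ) : ℚ] ≤ [L : ℚ] = [L : H] [H : ℚ]`, so `8 ∣ [L : H]` for `n` large. Extend `i` to
`I : L → ℂ`. As `i(H)` is real, complex conjugation maps `I(L) = i(H)(I ζ)` to itself: there is
`c ∈ Gal(L/H)` with `I (c x) = conj (I x)`, `c ζ = ζ⁻¹`, `c² = 1`, `c ≠ 1`. Let `H'` be the field
fixed by `c` (`IntermediateField.fixedField`), `[L : H'] = 2`, so `4 ∣ [H' : H]`; `H'` is real
under `I`; `H'/K` is abelian (`IsAbelianGalois.tower_bot`).

Modulus `2^k m`, `k = n`: let `α ≡ 1` modulo `2^k m`, `ι₂ α > 0`. Let `σ ∈ Gal(L/K)` be an Artin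
symbol of `(α)` (`StarkU.artU_exists`). `σ` is trivial on `H` (`CMR.hasArtin_restrict`, `artM_iff`,
`h.hmod`; `2^k m ≤ m`). `σ ζ = ζ ^ N((α))` (`CMG.artin_root`, `N((α))` is odd), and
`N((α)) = |N_{K/ℚ}(α)| ≡ ± 1` modulo `2^k` (`CMR.norm_congr_one`), so `σ ζ = ζ` or `ζ⁻¹` and `σ = 1`
or `σ = c` (an element of `Gal(L/H)` is determined by its value at `ζ`). So `σ` is trivial on `H'`,
and its restriction to `H'` is an Artin symbol of `(α)` in `H'` (`CMR.hasArtin_restrict`).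

Unramified: let `𝔓` be a prime of `H'` over `𝔮`, `𝔮` prime to `2^k m`, so `𝔮` is prime to `m`
(unless `m` is prime to all primes over `2`, which is impossible by `h2`; in any case `2 ∉ 𝔮`).
`H/K` is unramified at `𝔮`, and `L/H` is unramified outside `2` (e.g. inertia groups: an element of
the inertia group of a prime `Q` of `L` over `𝔮` is trivial on `H` as `H/K` is unramified at `𝔮`
(`StarkU.inertia_eq_one` for `H/K`), and `ζ^a ≡ ζ` modulo `Q` implies `ζ^a = ζ` as `2 ∉ Q`; so it is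
trivial). Then use that the ramification index of `𝔓` over `𝔮` is the order of its inertia group,
or divides the one of `Q`.
-/

set_option autoImplicit false

noncomputable section

open NumberField Module Pool.Agent.StarkRQ Pool.Agent.StarkU Pool.Agent.HeckeM

namespace Pool.Agent.SLow

/-! ## The complex conjugation -/

theorem up_conj {H L : Type} [Field H] [Field L] [Algebra H L] [Normal H L]
    (i : H →+* ℂ) (hi : ∀ y, (i y).im = 0) :
    ∃ (I : L →+* ℂ) (c : Gal(L/H)), (∀ x, I (algebraMap H L x) = i x) ∧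
      ∀ x, I (c x) = (starRingEnd ℂ) (I x) := by
  let _ := i.toAlgebra
  let I : L →ₐ[H] ℂ := IsAlgClosed.lift
  let _ : Algebra L ℂ := I.toRingHom.toAlgebra
  have _ : IsScalarTower H L ℂ := IsScalarTower.of_algebraMap_eq fun x => (I.commutes x).symm
  let g : L →ₐ[H] ℂ :=
    { toRingHom := (starRingEnd ℂ).comp I.toRingHom
      commutes' := fun x => by
        change (starRingEnd ℂ) (I (algebraMap H L x)) = algebraMap H ℂ x
        rw [I.commutes x]
        exact Complex.conj_eq_iff_im.2 (hi x) }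
  refine ⟨I.toRingHom, Normal.algHomEquivAut H ℂ L g, fun x => I.commutes x, fun x => ?_⟩
  have h := (Normal.algHomEquivAut H ℂ L).symm_apply_apply g
  have h2 := DFunLike.congr_fun h x
  exact h2

/-- the degree of the cyclotomic extension -/
theorem up_deg {H L : Type} [Field H] [NumberField H] [Field L] [NumberField L]
    [Algebra H L] {n : ℕ} [IsCyclotomicExtension {2 ^ n} H L] (hn : 4 + finrank ℚ H ≤ n) :
    8 ∣ finrank H L := by
  have hne : NeZero (2 ^ n) := ⟨by positivity⟩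
  have hG : IsGalois H L := IsCyclotomicExtension.isGalois {2 ^ n} H L
  obtain ⟨ζ, hζ⟩ := IsCyclotomicExtension.exists_isPrimitiveRoot H L
    (Set.mem_singleton (2 ^ n)) hne.out
  have hn0 : n ≠ 0 := by omega
  have htot : Nat.totient (2 ^ n) = 2 ^ (n - 1) := by
    rw [Nat.totient_prime_pow Nat.prime_two (by omega)]
    simp
  have h1 : finrank H L ∣ 2 ^ (n - 1) := by
    rw [← IsGalois.card_aut_eq_finrank H L, ← htot, ← ZMod.card_units_eq_totient,
      ← Nat.card_eq_fintype_card]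
    exact Subgroup.card_dvd_of_injective (hζ.autToPow H) (hζ.autToPow_injective (K := H))
  obtain ⟨a, ha, ha'⟩ := (Nat.dvd_prime_pow Nat.prime_two).1 h1
  have h2 : 2 ^ (n - 1) ≤ finrank ℚ L := by
    rw [← htot, ← Polynomial.natDegree_cyclotomic (2 ^ n) ℚ,
      Polynomial.cyclotomic_eq_minpoly_rat hζ (by positivity)]
    exact minpoly.natDegree_le ζ
  have h3 : finrank ℚ H * finrank H L = finrank ℚ L := Module.finrank_mul_finrank ℚ H L
  rw [ha'] at h3 ⊢
  have h4 : 3 ≤ a := by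
    by_contra hcon
    have h5 : 2 ^ a ≤ 2 ^ 2 := Nat.pow_le_pow_right (by norm_num) (by omega)
    have h6 : 2 ^ (n - 1) ≤ finrank ℚ H * 4 := by
      calc 2 ^ (n - 1) ≤ finrank ℚ L := h2
        _ = finrank ℚ H * 2 ^ a := h3.symm
        _ ≤ finrank ℚ H * 4 := Nat.mul_le_mul_left _ (by simpa using h5)
    have h7 : 2 ^ (3 + finrank ℚ H) ≤ 2 ^ (n - 1) := Nat.pow_le_pow_right (by norm_num) (by omega)
    have h8 : finrank ℚ H < 2 ^ finrank ℚ H := Nat.lt_two_pow_self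
    rw [pow_add] at h7
    omega
  have h5 : (8 : ℕ) = 2 ^ 3 := by norm_num
  rw [h5]
  exact pow_dvd_pow 2 h4

/-! ## Ramification -/

theorem up_unr {F M : Type} [Field F] [NumberField F] [Field M] [NumberField M]
    [Algebra F M] [IsGalois F M] {𝔮 : Ideal (𝓞 F)} (h𝔮 : 𝔮.IsPrime) (h0 : 𝔮 ≠ ⊥)
    {Q : Ideal (𝓞 M)} (hQ : Q.IsPrime) (hQ𝔮 : Q.comap (algebraMap (𝓞 F) (𝓞 M)) = 𝔮)
    (hin : ∀ g : Gal(M/F), (∀ x : 𝓞 M, g • x - x ∈ Q) → g = 1) :
    ¬ Q ^ 2 ∣ 𝔮.map (algebraMap (𝓞 F) (𝓞 M)) := by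
  have hmax : 𝔮.IsMaximal := h𝔮.isMaximal h0
  have hover : Q.LiesOver 𝔮 := ⟨hQ𝔮.symm⟩
  have hle : 𝔮.map (algebraMap (𝓞 F) (𝓞 M)) ≤ Q := by
    rw [Ideal.map_le_iff_le_comap, hQ𝔮]
  have hcard : Nat.card (Q.inertia Gal(M/F)) = 1 := by
    rw [Nat.card_eq_one_iff_unique]
    refine ⟨⟨fun a b => ?_⟩, ⟨1⟩⟩
    exact Subtype.ext ((hin _ a.2).trans (hin _ b.2).symm)
  have hram : Q.ramificationIdx (𝓞 F) = 1 := by
    have hfin : Finite (𝓞 F ⧸ 𝔮) := Ideal.finiteQuotientOfFreeOfNeBot 𝔮 h0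
    have hfin' : Finite 𝔮.ResidueField :=
      Finite.of_surjective _ (Ideal.bijective_algebraMap_quotient_residueField 𝔮).2
    rw [Ideal.card_inertia_eq_ramificationIdxIn 𝔮 Q,
      Ideal.ramificationIdxIn_eq_ramificationIdx 𝔮 Q Gal(M/F)] at hcard
    exact hcard
  rw [← Ideal.ramificationIdx'_eq_ramificationIdx (p := 𝔮) (q := Q) h0] at hram
  intro h
  exact (Ideal.ramificationIdx'_ne_one_iff hle).2 (Ideal.dvd_iff_le.1 h) hram

/-- congruent roots of unity are equal -/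
theorem up_root {R : Type} [CommRing R] [IsDomain R] {Q : Ideal R} [Q.IsPrime] {n : ℕ}
    (h2 : (2 : R) ∉ Q) {z w : R} (hz : z ^ 2 ^ n = 1) (hw : w ^ 2 ^ n = 1) (h : w - z ∈ Q) :
    w = z := by
  by_contra hne
  have h1 := (Commute.all w z).geom_sum₂_mul (2 ^ n)
  rw [hz, hw, sub_self] at h1
  have h3 : (∑ i ∈ Finset.range (2 ^ n), w ^ i * z ^ (2 ^ n - 1 - i)) = 0 :=
    (mul_eq_zero.1 h1).resolve_right (sub_ne_zero.2 hne)
  have h4 : Ideal.Quotient.mk Q w = Ideal.Quotient.mk Q z := Ideal.Quotient.eq.2 h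
  have h5 := congrArg (Ideal.Quotient.mk Q) h3
  rw [map_sum, map_zero] at h5
  simp only [map_mul, map_pow, h4] at h5
  rw [geom_sum₂_self] at h5
  have hpos : 1 ≤ 2 ^ n := Nat.one_le_two_pow
  have h6 : (Ideal.Quotient.mk Q z) ^ (2 ^ n - 1) * Ideal.Quotient.mk Q z = 1 := by
    rw [← pow_succ, Nat.sub_add_cancel hpos, ← map_pow, hz, map_one]
  have h7 : (((2 ^ n : ℕ) : ℕ) : R ⧸ Q) = 0 := by
    calc (((2 ^ n : ℕ) : ℕ) : R ⧸ Q) =
          ((2 ^ n : ℕ) : R ⧸ Q) * ((Ideal.Quotient.mk Q z) ^ (2 ^ n - 1) * Ideal.Quotient.mk Q z) := by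
          rw [h6, mul_one]
      _ = 0 := by rw [← mul_assoc, h5, zero_mul]
  have h8 : ((2 : R) ^ n) ∈ Q := by
    rw [← Ideal.Quotient.eq_zero_iff_mem, map_pow, map_ofNat]
    rw [Nat.cast_pow, Nat.cast_ofNat] at h7
    exact h7
  exact h2 (Ideal.IsPrime.mem_of_pow_mem inferInstance n h8)

section tower

variable {K H L : Type} [Field K] [NumberField K] [Field H] [NumberField H] [Field L]
  [NumberField L] [Algebra K H] [Algebra K L] [Algebra H L] [IsScalarTower K H L]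

omit [NumberField K] [NumberField H] [NumberField L] in
/-- two automorphisms which are equal at a primitive root of unity -/
theorem up_ext {f : ℕ} [IsCyclotomicExtension {f} H L] [NeZero f] {ζ : L}
    (hζ : IsPrimitiveRoot ζ f) (σ τ : Gal(L/H)) (h : σ ζ = τ ζ) : σ = τ := by
  have h8 := IsCyclotomicExtension.adjoin_primitive_root_eq_top (A := H) (B := L) hζ
  have h9 : (σ : L →ₐ[H] L) = (τ : L →ₐ[H] L) := by
    apply AlgHom.ext_of_adjoin_eq_top h8
    intro x hx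
    rw [Set.mem_singleton_iff] at hx
    rw [hx]
    exact h
  ext x
  exact DFunLike.congr_fun h9 x

omit [NumberField K] [NumberField H] [NumberField L] in
theorem up_smul [Normal K H] (ψ : Gal(L/K)) (x : 𝓞 H) :
    algebraMap (𝓞 H) (𝓞 L) (AlgEquiv.restrictNormalHom H ψ • x) =
      ψ • algebraMap (𝓞 H) (𝓞 L) x := by
  apply NumberField.RingOfIntegers.ext
  change algebraMap H L ((AlgEquiv.restrictNormalHom H ψ) (x : H)) = ψ (algebraMap H L (x : H))
  exact AlgEquiv.restrictNormal_commutes ψ H (x : H)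

omit [NumberField K] [NumberField H] [NumberField L] in
theorem up_algebraMap :
    algebraMap (𝓞 K) (𝓞 L) = (algebraMap (𝓞 H) (𝓞 L)).comp (algebraMap (𝓞 K) (𝓞 H)) := by
  ext x
  change algebraMap K L (x : K) = algebraMap H L (algebraMap K H (x : K))
  rw [← IsScalarTower.algebraMap_apply K H L]

/-- `L/K` is unramified at the primes not over `2` where `H/K` is -/
theorem up_unrAt [IsAbelianGalois K H] [IsAbelianGalois K L] {n : ℕ}
    [IsCyclotomicExtension {2 ^ n} H L] {𝔮 : Ideal (𝓞 K)} (h𝔮 : 𝔮.IsPrime) (h0 : 𝔮 ≠ ⊥)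
    (h2 : (2 : 𝓞 K) ∉ 𝔮) (hun : UnrAt H 𝔮) : UnrAt L 𝔮 := by
  intro Q hQ hQ𝔮
  refine up_unr h𝔮 h0 hQ hQ𝔮 fun g hg => ?_
  have hne : NeZero (2 ^ n) := ⟨by positivity⟩
  obtain ⟨ζ, hζ⟩ := IsCyclotomicExtension.exists_isPrimitiveRoot H L
    (Set.mem_singleton (2 ^ n)) hne.out
  -- the restriction to `H`
  have hQH : (Q.comap (algebraMap (𝓞 H) (𝓞 L))).IsPrime := Ideal.comap_isPrime _ _
  have hQH' : (Q.comap (algebraMap (𝓞 H) (𝓞 L))).comap (algebraMap (𝓞 K) (𝓞 H)) = 𝔮 := by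
    rw [Ideal.comap_comap, ← up_algebraMap, hQ𝔮]
  have h3 : AlgEquiv.restrictNormalHom H g = 1 := by
    refine inertia_eq_one h𝔮 h0 hQH hQH' (hun _ hQH hQH') fun x => ?_
    rw [Ideal.mem_comap, map_sub, up_smul]
    exact hg _
  have h4 : ∀ x : H, g (algebraMap H L x) = algebraMap H L x := by
    intro x
    have h5 := AlgEquiv.restrictNormal_commutes g H x
    have h6 : g.restrictNormal H = 1 := h3
    rw [h6] at h5
    exact h5.symm
  -- the root of unity
  have hζi : IsIntegral ℤ ζ := hζ.isIntegral (by positivity)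
  let z : 𝓞 L := ⟨ζ, hζi⟩
  have hz : z ^ 2 ^ n = 1 := by
    apply NumberField.RingOfIntegers.ext
    change ((z : L)) ^ 2 ^ n = 1
    exact hζ.pow_eq_one
  have hgz : (g • z) ^ 2 ^ n = 1 := by
    rw [← smul_pow', hz, smul_one]
  have h2Q : (2 : 𝓞 L) ∉ Q := by
    intro h
    refine h2 ?_
    rw [← hQ𝔮, Ideal.mem_comap, map_ofNat]
    exact h
  have h5 : g • z = z := up_root h2Q hz hgz (hg z)
  have h6 : g ζ = ζ := congrArg (fun x : 𝓞 L => (x : L)) h5
  let t : Gal(L/H) := AlgEquiv.ofRingEquiv (f := g.toRingEquiv) h4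
  have h7 : t = 1 := up_ext hζ t 1 h6
  ext x
  exact DFunLike.congr_fun h7 x

end tower

end Pool.Agent.SLow
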